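import Mathlib

section

set_option autoImplicit false

namespace Pool.Agent.MP_d3be90_lc

open Finset Relation

variable {V : Type}

/-- a walk of the relation `r` all of whose vertices lie in `D` -/
def WkM (r : V → V → Prop) (D : Finset V) (a b : V) : Prop :=
  a ∈ D ∧ ReflTransGen (fun x y => r x y ∧ x ∈ D ∧ y ∈ D) a b

namespace WkM

variable {r r' : V → V → Prop} {D D' : Finset V} {a b c : V}

lemma refl (h : a ∈ D) : WkM r D a a := ⟨h, ReflTransGen.refl⟩

lemma last (h : WkM r D a b) : b ∈ D := by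
  obtain ⟨h1, h2⟩ := h
  induction h2 with
  | refl => exact h1
  | tail _ h _ => exact h.2.2

lemma trans (h : WkM r D a b) (h' : WkM r D b c) : WkM r D a c := ⟨h.1, h.2.trans h'.2⟩

lemma tail (h : WkM r D a b) (h' : r b c) (hc : c ∈ D) : WkM r D a c :=
  ⟨h.1, h.2.tail ⟨h', h.last, hc⟩⟩

lemma mono (h : WkM r D a b) (hr : ∀ x y, r x y → r' x y) (hD : D ⊆ D') : WkM r' D' a b :=
  ⟨hD h.1, ReflTransGen.mono (fun x y e => ⟨hr x y e.1, hD e.2.1, hD e.2.2⟩) _ _ h.2⟩

lemma monoD (h : WkM r D a b) (hD : D ⊆ D') : WkM r D' a b := h.mono (fun _ _ e => e) hD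

lemma swap (h : WkM r D a b) : WkM (fun x y => r y x) D b a :=
  ⟨h.last, ReflTransGen.mono (fun _ _ e => ⟨e.1, e.2.2, e.2.1⟩) _ _ (reflTransGen_swap.2 h.2)⟩

lemma ind {P : V → Prop} (h : WkM r D a b) (h0 : P a)
    (h1 : ∀ x y, WkM r D a x → r x y → y ∈ D → P x → P y) : P b := by
  obtain ⟨ha, h2⟩ := h
  induction h2 with
  | refl => exact h0
  | tail h3 h ih => exact h1 _ _ ⟨ha, h3⟩ h.1 h.2.2 ih

lemma split {v₁ v₂ : V} (h : WkM r D a b) (hr : ∀ x y, r x y → r' x y ∨ (x = v₁ ∧ y = v₂)) :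
    WkM r' D a b ∨ (WkM r' D a v₁ ∧ WkM r' D v₂ b) := by
  refine h.ind (P := fun z => WkM r' D a z ∨ (WkM r' D a v₁ ∧ WkM r' D v₂ z)) (Or.inl (refl h.1)) ?_
  intro x y _ hxy hy ih
  rcases hr x y hxy with e | ⟨rfl, rfl⟩
  · exact ih.imp (fun h => h.tail e hy) fun h => ⟨h.1, h.2.tail e hy⟩
  · exact Or.inr ⟨ih.elim id And.left, refl hy⟩

variable [DecidableEq V]

lemma hit (S : Finset V) (h : WkM r D a b) :
    WkM r (D \ S) a b ∨ ∃ s ∈ S, WkM r D a s ∧ WkM r D s b := by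
  refine h.ind (P := fun z => WkM r (D \ S) a z ∨ ∃ s ∈ S, WkM r D a s ∧ WkM r D s z) ?_ ?_
  · by_cases ha : a ∈ S
    · exact Or.inr ⟨a, ha, refl h.1, refl h.1⟩
    · exact Or.inl (refl (mem_sdiff.2 ⟨h.1, ha⟩))
  · intro x y hx hxy hy ih
    by_cases hS : y ∈ S
    · exact Or.inr ⟨y, hS, hx.tail hxy hy, refl hy⟩
    · exact ih.imp (fun h => h.tail hxy (mem_sdiff.2 ⟨hy, hS⟩))
        fun ⟨s, h1, h2, h3⟩ => ⟨s, h1, h2, h3.tail hxy hy⟩

lemma tight (X : Finset V) (h : WkM r D a b) (hb : b ∈ X) :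
    ∃ e ∈ X, ∃ D' ⊆ D, WkM r D' a e ∧ ∀ x ∈ D', x = e ∨ WkM r (D \ X) a x := by
  classical
  set F := D.filter fun x => WkM r (D \ X) a x with hF
  have h1 : ∀ z, WkM r (D \ X) a z → WkM r F a z := fun z hz =>
    hz.ind (refl (mem_filter.2 ⟨h.1, refl hz.1⟩)) fun x y hx hxy hy ih =>
      ih.tail hxy (mem_filter.2 ⟨(mem_sdiff.1 hy).1, hx.tail hxy hy⟩)
  have h2 : (∃ e ∈ X, e ∈ D ∧ WkM r (insert e F) a e) ∨ WkM r (D \ X) a b := by
    refine h.ind (P := fun z => (∃ e ∈ X, e ∈ D ∧ WkM r (insert e F) a e) ∨ WkM r (D \ X) a z) ?_ ?_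
    · by_cases ha : a ∈ X
      · exact Or.inl ⟨a, ha, h.1, refl (mem_insert_self _ _)⟩
      · exact Or.inr (refl (mem_sdiff.2 ⟨h.1, ha⟩))
    · intro x y _ hxy hy ih
      rcases ih with ih | ih
      · exact Or.inl ih
      by_cases hX : y ∈ X
      · exact Or.inl ⟨y, hX, hy,
          ((h1 x ih).monoD (subset_insert _ _)).tail hxy (mem_insert_self _ _)⟩
      · exact Or.inr (ih.tail hxy (mem_sdiff.2 ⟨hy, hX⟩))
  rcases h2 with ⟨e, he, heD, h3⟩ | h3
  · exact ⟨e, he, insert e F, insert_subset heD (filter_subset _ _), h3,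
      fun x hx => (mem_insert.1 hx).imp id fun h => (mem_filter.1 h).2⟩
  · exact absurd hb (mem_sdiff.1 h3.last).2

end WkM

theorem menger_aux [Fintype V] [DecidableEq V] (m : ℕ) (E : Finset (V × V)) :
    ∀ A B : Finset V,
    (∀ S : Finset V, S.card < m → ∃ a ∈ A, ∃ b ∈ B, WkM (fun x y => (x, y) ∈ E) Sᶜ a b) →
    ∃ (a b : Fin m → V) (D : Fin m → Finset V),
      (∀ i, a i ∈ A ∧ b i ∈ B ∧ WkM (fun x y => (x, y) ∈ E) (D i) (a i) (b i)) ∧
      ∀ i j, i ≠ j → Disjoint (D i) (D j) := by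
  induction E using Finset.induction_on with
  | empty =>
    intro A B h
    have h1 : m ≤ (A ∩ B).card := by
      by_contra hc
      obtain ⟨a, ha, b, hb, hw⟩ := h _ (not_le.1 hc)
      have : a = b := hw.ind rfl fun x y _ e => absurd e (notMem_empty _)
      exact mem_compl.1 hw.1 (mem_inter.2 ⟨ha, this ▸ hb⟩)
    obtain ⟨f⟩ : Nonempty (Fin m ↪ ↥(A ∩ B)) :=
      Function.Embedding.nonempty_of_card_le (by rwa [Fintype.card_fin, Fintype.card_coe])
    refine ⟨fun i => f i, fun i => f i, fun i => {(f i : V)}, fun i =>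
      ⟨(mem_inter.1 (f i).2).1, (mem_inter.1 (f i).2).2, WkM.refl (mem_singleton_self _)⟩,
      fun i j hij => disjoint_singleton.2 fun e => hij (f.injective (Subtype.ext e))⟩
  | insert v E _ ih =>
    obtain ⟨v₁, v₂⟩ := v
    intro A B h
    have hm : ∀ x y, (x, y) ∈ E → (x, y) ∈ insert (v₁, v₂) E := fun _ _ => mem_insert_of_mem
    have hs : ∀ x y, (x, y) ∈ insert (v₁, v₂) E → (x, y) ∈ E ∨ (x = v₁ ∧ y = v₂) := fun x y e =>
      (mem_insert.1 e).symm.imp id Prod.mk.inj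
    by_cases hc : ∀ S : Finset V, S.card < m →
        ∃ a ∈ A, ∃ b ∈ B, WkM (fun x y => (x, y) ∈ E) Sᶜ a b
    · obtain ⟨a, b, D, h1, h2⟩ := ih A B hc
      exact ⟨a, b, D, fun i => ⟨(h1 i).1, (h1 i).2.1, (h1 i).2.2.mono hm Subset.rfl⟩, h2⟩
    push Not at hc
    obtain ⟨S, hS, hsep⟩ := hc
    obtain ⟨hv₁, hv₂, hne⟩ : v₁ ∉ S ∧ v₂ ∉ S ∧ v₁ ≠ v₂ := by
      obtain ⟨a, ha, b, hb, hw⟩ := h S hS
      rcases hw.split hs with e | ⟨e₁, e₂⟩
      · exact absurd e (hsep a ha b hb)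
      · refine ⟨mem_compl.1 e₁.last, mem_compl.1 e₂.1, ?_⟩
        rintro rfl
        exact hsep a ha b hb (e₁.trans e₂)
    have key : ∀ S' : Finset V, S'.card < m → ∃ a ∈ A, ∃ b ∈ B, ∃ x ∈ insert v₁ S,
        ∃ y ∈ insert v₂ S, WkM (fun x y => (x, y) ∈ E) S'ᶜ a x ∧
          WkM (fun x y => (x, y) ∈ E) S'ᶜ y b := by
      intro S' hS'
      obtain ⟨a, ha, b, hb, hw⟩ := h S' hS'
      rcases hw.split hs with e | ⟨e₁, e₂⟩
      · rcases e.hit S with e' | ⟨s, h1, h2, h3⟩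
        · exact absurd (e'.monoD fun x hx => mem_compl.2 (mem_sdiff.1 hx).2) (hsep a ha b hb)
        · exact ⟨a, ha, b, hb, s, mem_insert_of_mem h1, s, mem_insert_of_mem h1, h2, h3⟩
      · exact ⟨a, ha, b, hb, v₁, mem_insert_self _ _, v₂, mem_insert_self _ _, e₁, e₂⟩
    obtain ⟨a, x, C₁, h1, d1⟩ := ih A (insert v₁ S) fun S' hS' => by
      obtain ⟨a, ha, -, -, x, hx, -, -, e, -⟩ := key S' hS'
      exact ⟨a, ha, x, hx, e⟩
    obtain ⟨y, b, C₂, h2, d2⟩ := ih (insert v₂ S) B fun S' hS' => by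
      obtain ⟨-, -, b, hb, -, -, y, hy, -, e⟩ := key S' hS'
      exact ⟨y, hy, b, hb, e⟩
    choose e₁ he₁ D₁ s₁ w₁ t₁ using fun i => (h1 i).2.2.tight (insert v₁ S) (h1 i).2.1
    choose e₂ he₂ D₂ s₂ w₂ t₂ using fun i => (h2 i).2.2.swap.tight (insert v₂ S) (h2 i).1
    replace d1 : ∀ i j, i ≠ j → Disjoint (D₁ i) (D₁ j) := fun i j e =>
      (d1 i j e).mono (s₁ i) (s₁ j)
    replace d2 : ∀ i j, i ≠ j → Disjoint (D₂ i) (D₂ j) := fun i j e =>
      (d2 i j e).mono (s₂ i) (s₂ j)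
    have i₁ : Function.Injective e₁ := fun i j e => by_contra fun c =>
      disjoint_left.1 (d1 i j c) (w₁ i).last (e ▸ (w₁ j).last)
    have i₂ : Function.Injective e₂ := fun i j e => by_contra fun c =>
      disjoint_left.1 (d2 i j c) (w₂ i).last (e ▸ (w₂ j).last)
    have sj : ∀ z ∈ insert v₂ S, ∃ j, e₂ j = z := by
      have : univ.image e₂ = insert v₂ S := by
        refine eq_of_subset_of_card_le (fun z hz => ?_) ?_
        · obtain ⟨j, -, rfl⟩ := mem_image.1 hz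
          exact he₂ j
        · rw [card_image_of_injective _ i₂, card_univ, Fintype.card_fin]
          exact (card_insert_le _ _).trans hS
      intro z hz
      rw [← this] at hz
      obtain ⟨j, -, e⟩ := mem_image.1 hz
      exact ⟨j, e⟩
    have sj' : ∀ i, ∃ j, (e₁ i = v₁ ∧ e₂ j = v₂) ∨ (e₁ i ∈ S ∧ e₂ j = e₁ i) := fun i => by
      rcases mem_insert.1 (he₁ i) with e | e
      · exact (sj v₂ (mem_insert_self _ _)).imp fun j e' => Or.inl ⟨e, e'⟩
      · exact (sj _ (mem_insert_of_mem e)).imp fun j e' => Or.inr ⟨e, e'⟩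
    choose J hJ using sj'
    have u₁ : ∀ i, ∀ z ∈ D₁ i, (z = e₁ i ∧ z ∈ S) ∨ WkM (fun x y => (x, y) ∈ E) Sᶜ (a i) z := by
      intro i z hz
      have q : ∀ z, WkM (fun x y => (x, y) ∈ E) (C₁ i \ insert v₁ S) (a i) z →
          WkM (fun x y => (x, y) ∈ E) Sᶜ (a i) z := fun z e =>
        e.monoD fun x hx => mem_compl.2 fun c => (mem_sdiff.1 hx).2 (mem_insert_of_mem c)
      rcases t₁ i z hz with rfl | e
      · by_cases c : e₁ i ∈ S
        · exact Or.inl ⟨rfl, c⟩
        · exact Or.inr ((w₁ i).monoD fun x hx =>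
            (t₁ i x hx).elim (fun e => e ▸ mem_compl.2 c) fun e => (q x e).last)
      · exact Or.inr (q z e)
    have u₂ : ∀ i, ∀ z ∈ D₂ i, (z = e₂ i ∧ z ∈ S) ∨ WkM (fun x y => (x, y) ∈ E) Sᶜ z (b i) := by
      intro i z hz
      have q : ∀ z, WkM (fun x y => (y, x) ∈ E) (C₂ i \ insert v₂ S) (b i) z →
          WkM (fun x y => (y, x) ∈ E) Sᶜ (b i) z := fun z e =>
        e.monoD fun x hx => mem_compl.2 fun c => (mem_sdiff.1 hx).2 (mem_insert_of_mem c)
      rcases t₂ i z hz with rfl | e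
      · by_cases c : e₂ i ∈ S
        · exact Or.inl ⟨rfl, c⟩
        · exact Or.inr ((w₂ i).monoD fun x hx =>
            (t₂ i x hx).elim (fun e => e ▸ mem_compl.2 c) fun e => (q x e).last).swap
      · exact Or.inr (q z e).swap
    have d3 : ∀ i j, i ≠ j → Disjoint (D₁ i) (D₂ (J j)) := by
      intro i j hij
      refine disjoint_left.2 fun z hz hz' => ?_
      rcases u₁ i z hz with ⟨p₁, p₂⟩ | p
      · rcases u₂ _ z hz' with ⟨p₃, -⟩ | p'
        · rcases hJ j with ⟨-, e⟩ | ⟨-, e⟩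
          · exact hv₂ (e ▸ p₃ ▸ p₂)
          · exact hij (i₁ (p₁.symm.trans (p₃.trans e)))
        · exact mem_compl.1 p'.1 p₂
      · rcases u₂ _ z hz' with ⟨-, p₄⟩ | p'
        · exact mem_compl.1 p.last p₄
        · exact hsep _ (h1 i).1 _ (h2 _).2.1 (p.trans p')
    have iJ : Function.Injective J := fun i j e => by
      rcases hJ i with ⟨p₁, p₂⟩ | ⟨p₁, p₂⟩ <;> rcases hJ j with ⟨p₃, p₄⟩ | ⟨p₃, p₄⟩
      · exact i₁ (p₁.trans p₃.symm)
      · exact absurd (p₂ ▸ e ▸ p₄ ▸ p₃) hv₂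
      · exact absurd (p₄ ▸ e ▸ p₂ ▸ p₁) hv₂
      · exact i₁ (p₂.symm.trans (e ▸ p₄))
    refine ⟨a, fun i => b (J i), fun i => D₁ i ∪ D₂ (J i), fun i =>
      ⟨(h1 i).1, (h2 _).2.1, ?_⟩, fun i j hij => ?_⟩
    · have q₁ := (w₁ i).mono hm (subset_union_left (s₂ := D₂ (J i)))
      have q₂ := (w₂ (J i)).swap.mono hm (subset_union_right (s₁ := D₁ i))
      rcases hJ i with ⟨p₁, p₂⟩ | ⟨-, p₂⟩
      · exact (q₁.tail (by rw [p₁, p₂]; exact mem_insert_self _ _) q₂.1).trans q₂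
      · exact q₁.trans (p₂ ▸ q₂)
    · exact disjoint_union_left.2 ⟨disjoint_union_right.2 ⟨d1 i j hij, d3 i j hij⟩,
        disjoint_union_right.2 ⟨(d3 j i hij.symm).symm, d2 _ _ (iJ.ne hij)⟩⟩

end Pool.Agent.MP_d3be90_lc

end

section

set_option autoImplicit false

open Finset
open scoped Classical

namespace Pool.Agent.MP_d3be90_lc

variable {V : Type}

/-- `S` induces a connected (possibly empty) subgraph -/
def Conn (G : SimpleGraph V) (S : Finset V) : Prop := ∀ a ∈ S, ∀ b ∈ S, WkM G.Adj S a b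

/-- some edge joins `A` and `B` -/
def Touch (G : SimpleGraph V) (A B : Finset V) : Prop := ∃ x ∈ A, ∃ y ∈ B, G.Adj x y

/-- `G` has a complete minor on `t` vertices -/
def KMinor (G : SimpleGraph V) (t : ℕ) : Prop :=
  ∃ B : Fin t → Finset V, (∀ i, (B i).Nonempty) ∧ (∀ i, Conn G (B i)) ∧
    ∀ i j, i ≠ j → Disjoint (B i) (B j) ∧ Touch G (B i) (B j)

/-- there is a walk inside `S` from `a` to the given vertex of length at most the given number -/
inductive Reach (G : SimpleGraph V) (l : V → V → ℕ) (S : Finset V) (a : V) : V → ℕ → Prop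
  | base (r : ℕ) : a ∈ S → Reach G l S a a r
  | step {x y : V} {r : ℕ} : Reach G l S a x r → G.Adj x y → y ∈ S → Reach G l S a y (r + l x y)

/-- `S` has strong radius less than `R` around `a` -/
def Rad (G : SimpleGraph V) (l : V → V → ℕ) (S : Finset V) (a : V) (R : ℕ) : Prop :=
  a ∈ S ∧ ∃ r < R, ∀ x ∈ S, Reach G l S a x r

/-- capacities `c`, integer lengths `l`, and a pseudometric `ρ` dominated by the lengths -/
structure Net (G : SimpleGraph V) (c : V → V → ℝ) (l : V → V → ℕ) (ρ : V → V → ℝ) : Prop where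
  c_nonneg : ∀ x y, 0 ≤ c x y
  c_symm : ∀ x y, c x y = c y x
  c_adj : ∀ x y, c x y ≠ 0 → G.Adj x y
  l_symm : ∀ x y, l x y = l y x
  ρ_self : ∀ x, ρ x x = 0
  ρ_symm : ∀ x y, ρ x y = ρ y x
  ρ_tri : ∀ x y z, ρ x z ≤ ρ x y + ρ y z
  ρ_le : ∀ x y, G.Adj x y → ρ x y ≤ l x y

/-- volume of `S` (ordered pairs) -/
noncomputable def vol (c : V → V → ℝ) (l : V → V → ℕ) (S : Finset V) : ℝ :=
  ∑ x ∈ S, ∑ y ∈ S, c x y * (l x y : ℝ)

/-- volume with real lengths -/
noncomputable def volR (c len : V → V → ℝ) (S : Finset V) : ℝ :=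
  ∑ x ∈ S, ∑ y ∈ S, c x y * len x y

/-- the class of `x` in `S` -/
noncomputable def cls (S : Finset V) (ctr : V → V) (x : V) : Finset V :=
  S.filter fun y => ctr y = ctr x

/-- a partition of `C` into connected, light and cheap units, with a rank function leading to hubs -/
structure Units (G : SimpleGraph V) (c ρ : V → V → ℝ) (W C : Finset V) (τ : ℝ) (u0 r : ℕ)
    (ctr : V → V) (rk : V → ℕ) (Hub : Finset V) : Prop where
  mem : ∀ x ∈ C, ctr x ∈ C
  idem : ∀ x ∈ C, ctr (ctr x) = ctr x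
  conn : ∀ x ∈ C, Conn G (cls C ctr x)
  light : ∀ x ∈ C, 2 * (cls C ctr x).card ≤ u0
  cheap : ∀ x ∈ C, ∑ y ∈ cls C ctr x, ∑ z ∈ W \ cls C ctr x, c y z * ρ y (ctr y) ≤ τ
  rk_lt : ∀ x ∈ C, rk (ctr x) < r
  hub : ∀ x ∈ C, ctr x ∈ Hub ∨
    ∃ x' ∈ C, ∃ y ∈ C, ctr x' = ctr x ∧ G.Adj x' y ∧ rk (ctr y) < rk (ctr x)

/-- `y` is within `D` edges of `A` -/
def Near [Fintype V] (Q : SimpleGraph V) (A : Finset V) (D : ℕ) (y : V) : Prop :=
  ∃ a ∈ A, Reach Q (fun _ _ => 1) univ a y D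

/-- the tree-or-separator alternative in `W`, with at most `q` cheap light units -/
def Cover (G : SimpleGraph V) (c ρ : V → V → ℝ) (W : Finset V) (τ : ℝ) (u0 q t : ℕ) : Prop :=
  ∀ (I : Finset (Fin t)) (A : Fin t → Finset V), (∀ i ∈ I, A i ⊆ W) →
    ∃ (M : Finset V) (ctr : V → V), M ⊆ W ∧ (∀ x ∈ W, ∀ y ∈ M, ctr x = ctr y → x ∈ M) ∧
      (∀ y ∈ M, 2 * (cls W ctr y).card ≤ u0) ∧ (M.image ctr).card ≤ q ∧
      ∑ y ∈ M, ∑ x ∈ W, (if ctr x = ctr y then 0 else c y x * ρ y (ctr y)) ≤ q * τ ∧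
      ((M.Nonempty ∧ Conn G M ∧ ∀ i ∈ I, ¬ Disjoint M (A i)) ∨
        ∀ S ⊆ W \ M, S.Nonempty → Conn G S → ∃ i ∈ I, Disjoint S (A i))

/-- a balanced partition of `U` with at most `p` portals and extra cost at most `δ` -/
def Sep (c len ρ : V → V → ℝ) (U : Finset V) (p : ℕ) (δ : ℝ) : Prop :=
  ∃ (lab : V → Finset V) (P : Finset V) (π : V → V → V), P.card ≤ p ∧
    (∀ y ∈ U, y ∈ lab y ∧ 2 * (lab y).card ≤ U.card) ∧
    (∀ u ∈ U, ∀ v ∈ U, lab u ≠ lab v → c u v ≠ 0 → π u v ∈ P) ∧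
    ∑ u ∈ U, ∑ v ∈ U, (if lab u = lab v then 0 else c u v * (ρ u (π u v) + ρ (π u v) v)) ≤
      ∑ u ∈ U, ∑ v ∈ U, (if lab u = lab v then 0 else c u v * len u v) + δ

/-- a level `k` Sherali-Adams solution -/
structure SA (k : ℕ) (μ : Finset V → Finset V → ℝ) : Prop where
  nonneg : ∀ S : Finset V, S.card ≤ k → ∀ A ∈ S.powerset, 0 ≤ μ S A
  total : ∀ S : Finset V, S.card ≤ k → ∑ A ∈ S.powerset, μ S A = 1
  cons : ∀ S T : Finset V, S ⊆ T → T.card ≤ k → ∀ B ∈ S.powerset,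
    μ S B = ∑ A ∈ T.powerset, (if A ∩ S = B then μ T A else 0)

/-- the Sherali-Adams distance -/
noncomputable def dSA (μ : Finset V → Finset V → ℝ) (u v : V) : ℝ :=
  ∑ A ∈ ({u, v} : Finset V).powerset, (if (u ∈ A ↔ v ∈ A) then 0 else μ ({u, v} : Finset V) A)

/-- the weight of the event: trace `σ` on `Q`, and `u` is chosen -/
noncomputable def mSA (μ : Finset V → Finset V → ℝ) (Q σ : Finset V) (u : V) : ℝ :=
  ∑ A ∈ (insert u Q).powerset, (if A ∩ Q = σ ∧ u ∈ A then μ (insert u Q) A else 0)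

/-- a probability distribution on cuts -/
def IsDist [Fintype V] (w : Finset V → ℝ) : Prop := (∀ A, 0 ≤ w A) ∧ ∑ A, w A = 1

/-- probability that `u` is chosen -/
noncomputable def prI [Fintype V] (w : Finset V → ℝ) (u : V) : ℝ :=
  ∑ A, (if u ∈ A then w A else 0)

/-- probability that `u` and `v` are separated -/
noncomputable def prS [Fintype V] (w : Finset V → ℝ) (u v : V) : ℝ :=
  ∑ A, (if (u ∈ A ↔ v ∈ A) then 0 else w A)

/-- weight of the ordered pairs separated by `A` -/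
noncomputable def cutW [Fintype V] (c : V → V → ℝ) (A : Finset V) : ℝ :=
  ∑ u, ∑ v, (if (u ∈ A ↔ v ∈ A) then 0 else c u v)

section API

variable {G : SimpleGraph V} {l : V → V → ℕ} {S S' : Finset V} {a b x y : V} {r r' : ℕ}
  {c ρ : V → V → ℝ}

lemma WkM.symm' (h : WkM G.Adj S a b) : WkM G.Adj S b a :=
  h.swap.mono (fun _ _ e => e.symm) Subset.rfl

lemma conn_of_root (h : ∀ x ∈ S, WkM G.Adj S a x) : Conn G S :=
  fun x hx y hy => (h x hx).symm'.trans (h y hy)

lemma conn_singleton (G : SimpleGraph V) (a : V) : Conn G {a} :=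
  conn_of_root (a := a) fun x hx => by
    rw [mem_singleton.1 hx]; exact WkM.refl (mem_singleton_self _)

lemma Conn.union_of_mem (h : Conn G S) (h' : Conn G S') (hx : x ∈ S) (hx' : x ∈ S') :
    Conn G (S ∪ S') :=
  conn_of_root (a := x) fun y hy => (mem_union.1 hy).elim
    (fun e => (h x hx y e).monoD subset_union_left)
    fun e => (h' x hx' y e).monoD subset_union_right

lemma Conn.union_of_touch (h : Conn G S) (h' : Conn G S') (ht : Touch G S S') :
    Conn G (S ∪ S') := by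
  obtain ⟨x, hx, y, hy, hxy⟩ := ht
  refine conn_of_root (a := x) fun z hz => (mem_union.1 hz).elim
    (fun e => (h x hx z e).monoD subset_union_left) fun e => ?_
  exact ((WkM.refl (mem_union_left _ hx)).tail hxy (mem_union_right _ hy)).trans
    ((h' y hy z e).monoD subset_union_right)

lemma Touch.symm (h : Touch G S S') : Touch G S' S := by
  obtain ⟨x, hx, y, hy, hxy⟩ := h
  exact ⟨y, hy, x, hx, hxy.symm⟩

/-- the component of `a` in `S` -/
noncomputable def comp (G : SimpleGraph V) (S : Finset V) (a : V) : Finset V :=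
  S.filter fun x => WkM G.Adj S a x

lemma mem_comp : x ∈ comp G S a ↔ WkM G.Adj S a x :=
  mem_filter.trans ⟨And.right, fun h => ⟨h.last, h⟩⟩

lemma comp_subset : comp G S a ⊆ S := filter_subset _ _

lemma WkM.inComp (h : WkM G.Adj S a x) : WkM G.Adj (comp G S a) a x :=
  h.ind (WkM.refl (mem_comp.2 (WkM.refl h.1))) fun _ _ hx hxy hy ih =>
    ih.tail hxy (mem_comp.2 (hx.tail hxy hy))

lemma conn_comp (G : SimpleGraph V) (S : Finset V) (a : V) : Conn G (comp G S a) :=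
  conn_of_root (a := a) fun _ hx => (mem_comp.1 hx).inComp

lemma comp_closed (hx : x ∈ comp G S a) (hxy : G.Adj x y) (hy : y ∈ S) : y ∈ comp G S a :=
  mem_comp.2 ((mem_comp.1 hx).tail hxy hy)

lemma comp_eq_of_wk (h : WkM G.Adj S a b) : comp G S a = comp G S b := by
  ext x
  simp only [mem_comp]
  exact ⟨fun e => h.symm'.trans e, fun e => h.trans e⟩

lemma Conn.subset_comp (h : Conn G S') (hS : S' ⊆ S) (ha : a ∈ S') : S' ⊆ comp G S a :=
  fun x hx => mem_comp.2 ((h a ha x hx).monoD hS)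

lemma KMinor.mono {G' : SimpleGraph V} {t : ℕ} (h : KMinor G t) (hG : G ≤ G') : KMinor G' t := by
  obtain ⟨B, h1, h2, h3⟩ := h
  refine ⟨B, h1, fun i a ha b hb => (h2 i a ha b hb).mono (fun _ _ e => hG e) Subset.rfl,
    fun i j hij => ⟨(h3 i j hij).1, ?_⟩⟩
  obtain ⟨x, hx, y, hy, e⟩ := (h3 i j hij).2
  exact ⟨x, hx, y, hy, hG e⟩

namespace Reach

lemma first (h : Reach G l S a x r) : a ∈ S := by
  induction h with
  | base _ h => exact h
  | step _ _ _ ih => exact ih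

lemma last (h : Reach G l S a x r) : x ∈ S := by
  cases h with
  | base _ h => exact h
  | step _ _ h => exact h

lemma mono (h : Reach G l S a x r) (hr : r ≤ r') : Reach G l S a x r' := by
  induction h generalizing r' with
  | base _ h => exact base _ h
  | @step x y r _ hxy hy ih =>
    have : r' = (r' - l x y) + l x y := by omega
    rw [this]
    exact step (ih (by omega)) hxy hy

lemma monoS (h : Reach G l S a x r) (hS : S ⊆ S') : Reach G l S' a x r := by
  induction h with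
  | base _ h => exact base _ (hS h)
  | step _ hxy hy ih => exact step ih hxy (hS hy)

lemma trans (h : Reach G l S a x r) (h' : Reach G l S x y r') : Reach G l S a y (r + r') := by
  induction h' with
  | base _ _ => exact h.mono (Nat.le_add_right _ _)
  | step _ hxy hy ih => rw [← add_assoc]; exact step ih hxy hy

lemma single (hx : x ∈ S) (hxy : G.Adj x y) (hy : y ∈ S) : Reach G l S x y (l x y) := by
  simpa using step (base (G := G) (l := l) 0 hx) hxy hy

lemma symm (hl : ∀ x y, l x y = l y x) (h : Reach G l S a x r) : Reach G l S x a r := by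
  induction h with
  | base _ h => exact base _ h
  | @step x y r h hxy hy ih =>
    rw [add_comm, hl]
    exact (single hy hxy.symm h.last).trans ih

lemma wk (h : Reach G l S a x r) : WkM G.Adj S a x := by
  induction h with
  | base _ h => exact WkM.refl h
  | step _ hxy hy ih => exact ih.tail hxy hy

lemma dist_le (hN : Net G c l ρ) (h : Reach G l S a x r) : ρ a x ≤ r := by
  induction h with
  | base _ _ => rw [hN.ρ_self]; positivity
  | @step x y r _ hxy _ ih =>
    have := hN.ρ_tri a x y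
    have := hN.ρ_le x y hxy
    push_cast
    linarith

/-- balls are reached from inside -/
lemma inBall (h : Reach G l S a x r) (hr : r ≤ r') :
    Reach G l (S.filter fun z => Reach G l S a z r') a x r := by
  induction h with
  | base _ h => exact base _ (mem_filter.2 ⟨h, base _ h⟩)
  | step h hxy hy ih =>
    exact step (ih (by omega)) hxy (mem_filter.2 ⟨hy, (step h hxy hy).mono hr⟩)

/-- last exit from `X` -/
lemma exit (X : Finset V) (h : Reach G l S a x r) (hx : x ∉ X) :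
    Reach G l (S \ X) a x r ∨
      ∃ y ∈ S \ X, (∃ z ∈ X, G.Adj z y) ∧ Reach G l (S \ X) y x r := by
  induction h with
  | base _ h => exact Or.inl (base _ (mem_sdiff.2 ⟨h, hx⟩))
  | @step x y r h hxy hy ih =>
    have hy' : y ∈ S \ X := mem_sdiff.2 ⟨hy, hx⟩
    by_cases hX : x ∈ X
    · exact Or.inr ⟨y, hy', ⟨x, hX, hxy⟩, base _ hy'⟩
    · rcases ih hX with e | ⟨z, hz, hz', e⟩
      · exact Or.inl (step e hxy hy')
      · exact Or.inr ⟨z, hz, hz', step e hxy hy'⟩

/-- the initial part of length at most `s` of a walk -/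
lemma split (hl : ∀ x y, l x y = l y x) (s : ℕ) (h : Reach G l S a x r) :
    ∃ O ⊆ S, a ∈ O ∧ (∀ u ∈ O, ∀ v ∈ O, Reach G l O u v s) ∧
      (x ∈ O ∨ ∃ z ∈ O, ∃ z', G.Adj z z' ∧ ∃ r', r' + s ≤ r ∧ Reach G l S z' x r') := by
  have key : (∃ O ⊆ S, a ∈ O ∧ x ∈ O ∧ ∃ r0 ≤ r, r0 ≤ s ∧ ∀ u ∈ O, ∀ v ∈ O, Reach G l O u v r0) ∨
      ∃ O ⊆ S, a ∈ O ∧ (∀ u ∈ O, ∀ v ∈ O, Reach G l O u v s) ∧
        ∃ z ∈ O, ∃ z', G.Adj z z' ∧ ∃ r', r' + s ≤ r ∧ Reach G l S z' x r' := by
    induction h with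
    | base r h =>
      refine Or.inl ⟨{a}, singleton_subset_iff.2 h, mem_singleton_self _, mem_singleton_self _,
        0, Nat.zero_le _, Nat.zero_le _, fun u hu v hv => ?_⟩
      rw [mem_singleton.1 hu, mem_singleton.1 hv]
      exact base _ (mem_singleton_self _)
    | @step x y r h hxy hy ih =>
      rcases ih with ⟨O, h1, h2, h3, r0, h4, h5, h6⟩ | ⟨O, h1, h2, h3, z, hz, z', h4, r', h5, h6⟩
      · by_cases hs : r0 + l x y ≤ s
        · have q : ∀ u ∈ O, Reach G l (insert y O) u y (r0 + l x y) := fun u hu =>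
            step ((h6 u hu x h3).monoS (subset_insert _ _)) hxy (mem_insert_self _ _)
          refine Or.inl ⟨insert y O, insert_subset hy h1, mem_insert_of_mem h2,
            mem_insert_self _ _, r0 + l x y, by omega, hs, fun u hu v hv => ?_⟩
          rcases mem_insert.1 hu with rfl | hu' <;> rcases mem_insert.1 hv with rfl | hv'
          · exact base _ hu
          · exact (q v hv').symm hl
          · exact q u hu'
          · exact ((h6 u hu' v hv').monoS (subset_insert _ _)).mono (Nat.le_add_right _ _)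
        · exact Or.inr ⟨O, h1, h2, fun u hu v hv => (h6 u hu v hv).mono h5, x, h3, y, hxy, 0,
            by omega, base _ hy⟩
      · exact Or.inr ⟨O, h1, h2, h3, z, hz, z', h4, r' + l x y, by omega, step h6 hxy hy⟩
  rcases key with ⟨O, h1, h2, h3, r0, -, h5, h6⟩ | ⟨O, h1, h2, h3, h4⟩
  · exact ⟨O, h1, h2, fun u hu v hv => (h6 u hu v hv).mono h5, Or.inl h3⟩
  · exact ⟨O, h1, h2, h3, Or.inr h4⟩

/-- a walk with unit lengths has few vertices -/
lemma exists_set (h : Reach G (fun _ _ => 1) S a x r) :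
    ∃ X ⊆ S, a ∈ X ∧ x ∈ X ∧ X.card ≤ r + 1 ∧ Conn G X := by
  induction h with
  | base r h =>
    exact ⟨{a}, singleton_subset_iff.2 h, mem_singleton_self _, mem_singleton_self _, by simp,
      conn_singleton _ _⟩
  | @step x y r h hxy hy ih =>
    obtain ⟨X, h1, h2, h3, h4, h5⟩ := ih
    refine ⟨X ∪ {y}, union_subset h1 (singleton_subset_iff.2 hy), mem_union_left _ h2,
      mem_union_right _ (mem_singleton_self _), ?_,
      h5.union_of_touch (conn_singleton _ _) ⟨x, h3, y, mem_singleton_self _, hxy⟩⟩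
    have := card_union_le X {y}
    rw [card_singleton] at this
    omega

end Reach

lemma Rad.conn {R : ℕ} (h : Rad G l S a R) : Conn G S := by
  obtain ⟨-, r, -, h⟩ := h
  exact conn_of_root fun x hx => (h x hx).wk

lemma Net.ρ_nonneg (hN : Net G c l ρ) (x y : V) : 0 ≤ ρ x y := by
  have := hN.ρ_tri x y x
  rw [hN.ρ_self, hN.ρ_symm y x] at this
  linarith

lemma mem_cls {ctr : V → V} : y ∈ cls S ctr x ↔ y ∈ S ∧ ctr y = ctr x := mem_filter

lemma vol_nonneg (hc : ∀ x y, 0 ≤ c x y) (S : Finset V) : 0 ≤ vol c l S :=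
  sum_nonneg fun x _ => sum_nonneg fun y _ => mul_nonneg (hc x y) (Nat.cast_nonneg _)

lemma vol_mono (hc : ∀ x y, 0 ≤ c x y) (h : S ⊆ S') : vol c l S ≤ vol c l S' :=
  (sum_le_sum fun x _ => sum_le_sum_of_subset_of_nonneg h fun y _ _ =>
    mul_nonneg (hc x y) (Nat.cast_nonneg _)).trans
    (sum_le_sum_of_subset_of_nonneg h fun x _ _ => sum_nonneg fun y _ =>
      mul_nonneg (hc x y) (Nat.cast_nonneg _))

lemma vol_add_sdiff_le (hc : ∀ x y, 0 ≤ c x y) (h : S ⊆ S') :
    vol c l S + vol c l (S' \ S) ≤ vol c l S' := by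
  have e : vol c l S' = ∑ x ∈ S' \ S, ∑ y ∈ S', c x y * (l x y : ℝ) +
      ∑ x ∈ S, ∑ y ∈ S', c x y * (l x y : ℝ) := (sum_sdiff h).symm
  rw [e, add_comm]
  refine add_le_add (sum_le_sum fun x _ => ?_) (sum_le_sum fun x _ => ?_)
  · exact sum_le_sum_of_subset_of_nonneg sdiff_subset fun y _ _ =>
      mul_nonneg (hc x y) (Nat.cast_nonneg _)
  · exact sum_le_sum_of_subset_of_nonneg h fun y _ _ => mul_nonneg (hc x y) (Nat.cast_nonneg _)

end API

end Pool.Agent.MP_d3be90_lc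

end

section

set_option autoImplicit false

open Finset
open scoped Classical

namespace Pool.Agent.MP_d3be90_lc

variable {V : Type}

lemma SMader_touch {G : SimpleGraph V} {A A' B B' : Finset V} (h : Touch G A B) (hA : A ⊆ A')
    (hB : B ⊆ B') : Touch G A' B' := by
  obtain ⟨x, hx, y, hy, e⟩ := h
  exact ⟨x, hA hx, y, hB hy, e⟩

lemma SMader_count {ι : Type} (I : Finset ι) (R R' : ι → ι → Prop) {u v : ι} (hu : u ∈ I)
    (huv : u ≠ v) (hs : ∀ i j, R i j → R j i)
    (hR : ∀ i j, R i j → R' (if i = v then u else i) (if j = v then u else j)) :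
    ((I ×ˢ I).filter fun p => p.1 ≠ p.2 ∧ R p.1 p.2).card ≤
      ((I.erase v ×ˢ I.erase v).filter fun p => p.1 ≠ p.2 ∧ R' p.1 p.2).card +
        (2 + 2 * (I.filter fun j => (j ≠ u ∧ R u j) ∧ j ≠ v ∧ R v j).card) := by
  set N := I.filter fun j => (j ≠ u ∧ R u j) ∧ j ≠ v ∧ R v j with hN
  set D : Finset (ι × ι) := ({(u, v), (v, u)} ∪ {v} ×ˢ N) ∪ N ×ˢ {v} with hD
  have hDc : D.card ≤ 2 + 2 * N.card := by
    have h1 := card_union_le (({(u, v), (v, u)} : Finset (ι × ι)) ∪ {v} ×ˢ N) (N ×ˢ {v})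
    have h2 := card_union_le ({(u, v), (v, u)} : Finset (ι × ι)) ({v} ×ˢ N)
    have h3 : ({(u, v), (v, u)} : Finset (ι × ι)).card ≤ 2 := card_le_two
    rw [card_product, card_singleton] at h1 h2
    rw [hD]
    omega
  refine (card_le_card_sdiff_add_card (t := D)).trans (add_le_add ?_ hDc)
  have hm : ∀ i j, (i, j) ∈ ((I ×ˢ I).filter fun p => p.1 ≠ p.2 ∧ R p.1 p.2) \ D →
      i ∈ I ∧ j ∈ I ∧ i ≠ j ∧ R i j ∧ ¬(i = u ∧ j = v) ∧ ¬(i = v ∧ j = u) ∧
        ¬(i = v ∧ j ∈ N) ∧ ¬(i ∈ N ∧ j = v) := by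
    intro i j h
    simp only [hD, mem_sdiff, mem_filter, mem_product, mem_union, mem_insert, mem_singleton,
      Prod.mk.injEq, not_or] at h
    tauto
  refine card_le_card_of_injOn (fun p => (if p.1 = v then u else p.1, if p.2 = v then u else p.2))
    ?_ ?_
  · rintro ⟨i, j⟩ h
    obtain ⟨h1, h2, h3, h4, h5, h6, -, -⟩ := hm i j (mem_coe.1 h)
    refine mem_coe.2 (mem_filter.2 ⟨mem_product.2 ⟨?_, ?_⟩, ?_, hR i j h4⟩)
    · dsimp only
      split_ifs with e
      · exact mem_erase.2 ⟨huv, hu⟩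
      · exact mem_erase.2 ⟨e, h1⟩
    · dsimp only
      split_ifs with e
      · exact mem_erase.2 ⟨huv, hu⟩
      · exact mem_erase.2 ⟨e, h2⟩
    · dsimp only
      split_ifs with e e' e'
      · exact (h3 (e.trans e'.symm)).elim
      · exact fun q => h6 ⟨e, q.symm⟩
      · exact fun q => h5 ⟨q, e'⟩
      · exact h3
  · rintro ⟨i, j⟩ h ⟨i', j'⟩ h' e
    obtain ⟨a1, a2, a3, a4, a5, a6, a7, a8⟩ := hm i j (mem_coe.1 h)
    obtain ⟨b1, b2, b3, b4, b5, b6, b7, b8⟩ := hm i' j' (mem_coe.1 h')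
    have key : ∀ a b : ι, (if a = v then u else a) = (if b = v then u else b) →
        a = b ∨ (a = u ∧ b = v) ∨ (a = v ∧ b = u) := by
      intro a b q
      split_ifs at q with p1 p2 p2
      · exact .inl (p1.trans p2.symm)
      · exact .inr (.inr ⟨p1, q.symm⟩)
      · exact .inr (.inl ⟨q, p2⟩)
      · exact .inl q
    obtain ⟨e1, e2⟩ := Prod.mk.inj e
    rcases key _ _ e1 with rfl | ⟨rfl, rfl⟩ | ⟨rfl, rfl⟩ <;>
      rcases key _ _ e2 with rfl | ⟨p1, p2⟩ | ⟨p1, p2⟩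
    · rfl
    · subst p1 p2
      exact (b8 ⟨mem_filter.2 ⟨a1, ⟨a3, hs _ _ a4⟩, b3, hs _ _ b4⟩, rfl⟩).elim
    · subst p1 p2
      exact (a8 ⟨mem_filter.2 ⟨a1, ⟨b3, hs _ _ b4⟩, a3, hs _ _ a4⟩, rfl⟩).elim
    · exact (b7 ⟨rfl, mem_filter.2 ⟨a2, ⟨a3.symm, a4⟩, b3.symm, b4⟩⟩).elim
    · exact (a3 p1.symm).elim
    · exact (a5 ⟨rfl, p1⟩).elim
    · exact (a7 ⟨rfl, mem_filter.2 ⟨a2, ⟨b3.symm, b4⟩, a3.symm, a4⟩⟩).elim
    · exact (a6 ⟨rfl, p1⟩).elim
    · exact (a3 p1.symm).elim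

lemma SMader_deg {ι : Type} (N : Finset ι) (R : ι → ι → Prop) (d : ℕ)
    (h : ∀ j ∈ N, d ≤ (N.filter fun i => i ≠ j ∧ R j i).card) :
    d * N.card ≤ ((N ×ˢ N).filter fun p => p.1 ≠ p.2 ∧ R p.1 p.2).card := by
  rw [card_filter, sum_product, mul_comm, ← smul_eq_mul, ← sum_const]
  refine sum_le_sum fun j hj => (h j hj).trans (le_of_eq ?_)
  rw [card_filter]
  exact sum_congr rfl fun i _ => by simp only [ne_comm]

lemma SMader_aux {ι : Type} (G : SimpleGraph V) (t : ℕ) : ∀ (n : ℕ) (I : Finset ι)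
    (B : ι → Finset V), I.card = n → I.Nonempty → (∀ i ∈ I, Conn G (B i)) →
    (∀ i ∈ I, ∀ j ∈ I, i ≠ j → Disjoint (B i) (B j)) →
    2 ^ t * I.card ≤ ((I ×ˢ I).filter fun p => p.1 ≠ p.2 ∧ Touch G (B p.1) (B p.2)).card →
    ∃ C : Fin t → Finset V, (∀ a, Conn G (C a) ∧ (∃ i ∈ I, B i ⊆ C a) ∧ C a ⊆ I.biUnion B) ∧
      ∀ a b, a ≠ b → Disjoint (C a) (C b) ∧ Touch G (C a) (C b) := by
  induction t with
  | zero => exact fun _ _ _ _ _ _ _ _ => ⟨Fin.elim0, fun a => a.elim0, fun a => a.elim0⟩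
  | succ t iht =>
    intro n
    induction n with
    | zero => exact fun I B hn hI => (hI.card_pos.ne' hn).elim
    | succ n ihn =>
      intro I B hn hI hc hd he
      by_cases hx : ∃ u ∈ I, ∃ v ∈ I, u ≠ v ∧ Touch G (B u) (B v) ∧
          (I.filter fun j => (j ≠ u ∧ Touch G (B u) (B j)) ∧ j ≠ v ∧ Touch G (B v) (B j)).card
            < 2 ^ t
      · obtain ⟨u, hu, v, hv, huv, ht, hlt⟩ := hx
        set B' : ι → Finset V := fun i => if i = u then B u ∪ B v else B i with hB'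
        have h1 : ∀ i, B i ⊆ B' i := fun i => by
          simp only [hB']
          split_ifs with e
          · rw [e]; exact subset_union_left
          · exact Subset.rfl
        have h2 : ∀ i, B i ⊆ B' (if i = v then u else i) := fun i => by
          split_ifs with e
          · simp only [hB', if_true, e]; exact subset_union_right
          · exact h1 i
        have h3 := SMader_count I (fun i j => Touch G (B i) (B j))
          (fun i j => Touch G (B' i) (B' j)) hu huv (fun _ _ h => h.symm)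
          fun i j h => SMader_touch h (h2 i) (h2 j)
        have h4 : (I.erase v).card = n := by rw [card_erase_of_mem hv, hn]; rfl
        have h5 : ∀ i ∈ I.erase v, i ≠ u → Disjoint (B u ∪ B v) (B i) := fun i hi e =>
          disjoint_union_left.2 ⟨hd u hu i (mem_of_mem_erase hi) e.symm,
            hd v hv i (mem_of_mem_erase hi) (ne_of_mem_erase hi).symm⟩
        obtain ⟨C, c1, c2⟩ := ihn (I.erase v) B' h4 ⟨u, mem_erase.2 ⟨huv, hu⟩⟩
          (fun i hi => by
            simp only [hB']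
            split_ifs
            · exact (hc u hu).union_of_touch (hc v hv) ht
            · exact hc i (mem_of_mem_erase hi))
          (fun i hi j hj hij => by
            simp only [hB']
            split_ifs with e e' e'
            · exact (hij (e.trans e'.symm)).elim
            · exact h5 j hj e'
            · exact (h5 i hi e).symm
            · exact hd i (mem_of_mem_erase hi) j (mem_of_mem_erase hj) hij)
          (by
            rw [hn, pow_succ, mul_add] at he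
            rw [h4, pow_succ]
            omega)
        refine ⟨C, fun a => ?_, c2⟩
        obtain ⟨d1, ⟨i, hi, d2⟩, d3⟩ := c1 a
        refine ⟨d1, ⟨i, mem_of_mem_erase hi, (h1 i).trans d2⟩, d3.trans ?_⟩
        refine biUnion_subset.2 fun j hj => ?_
        simp only [hB']
        split_ifs
        · exact union_subset (subset_biUnion_of_mem B hu) (subset_biUnion_of_mem B hv)
        · exact subset_biUnion_of_mem B (mem_of_mem_erase hj)
      · have h0 : 0 < ((I ×ˢ I).filter fun p => p.1 ≠ p.2 ∧ Touch G (B p.1) (B p.2)).card :=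
          lt_of_lt_of_le (Nat.mul_pos (Nat.two_pow_pos _) hI.card_pos) he
        obtain ⟨⟨u, v⟩, hp⟩ := card_pos.1 h0
        obtain ⟨hp, huv, ht⟩ := mem_filter.1 hp
        obtain ⟨hu, hv⟩ := mem_product.1 hp
        dsimp only at hu hv huv ht
        set N := I.filter fun j => j ≠ u ∧ Touch G (B u) (B j) with hN
        have hs : N ⊆ I := filter_subset _ _
        obtain ⟨C, c1, c2⟩ := iht N.card N B rfl ⟨v, mem_filter.2 ⟨hv, huv.symm, ht⟩⟩
          (fun i hi => hc i (hs hi)) (fun i hi j hj => hd i (hs hi) j (hs hj))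
          (SMader_deg N (fun i j => Touch G (B i) (B j)) _ fun j hj => by
            obtain ⟨a1, a2, a3⟩ := mem_filter.1 hj
            rw [hN, filter_filter]
            exact not_lt.1 fun h => hx ⟨u, hu, j, a1, a2.symm, a3, h⟩)
        have h1 : ∀ a, Disjoint (B u) (C a) ∧ Touch G (B u) (C a) := fun a => by
          obtain ⟨-, ⟨i, hi, d2⟩, d3⟩ := c1 a
          refine ⟨Disjoint.mono_right d3 ((disjoint_biUnion_right _ _ _).2 fun j hj => ?_),
            SMader_touch (mem_filter.1 hi).2.2 Subset.rfl d2⟩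
          exact hd u hu j (hs hj) (mem_filter.1 hj).2.1.symm
        refine ⟨Fin.cons (B u) C, fun a => ?_, fun a b hab => ?_⟩
        · refine Fin.cases ?_ (fun a => ?_) a
          · exact ⟨hc u hu, ⟨u, hu, Subset.rfl⟩, subset_biUnion_of_mem B hu⟩
          · obtain ⟨d1, ⟨i, hi, d2⟩, d3⟩ := c1 a
            exact ⟨d1, ⟨i, hs hi, d2⟩, d3.trans (biUnion_subset_biUnion_of_subset_left B hs)⟩
        · revert hab
          refine Fin.cases ?_ (fun a => ?_) a <;> refine Fin.cases ?_ (fun b => ?_) b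
          · exact fun h => (h rfl).elim
          · exact fun _ => h1 b
          · exact fun _ => ⟨(h1 a).1.symm, (h1 a).2.symm⟩
          · exact fun h => c2 a b fun e => h (by rw [e])

theorem mader {ι : Type} (G : SimpleGraph V) (t : ℕ) (I : Finset ι) (B : ι → Finset V)
    (hI : I.Nonempty) (hne : ∀ i ∈ I, (B i).Nonempty) (hc : ∀ i ∈ I, Conn G (B i))
    (hd : ∀ i ∈ I, ∀ j ∈ I, i ≠ j → Disjoint (B i) (B j))
    (he : 2 ^ t * I.card ≤
      ((I ×ˢ I).filter fun p => p.1 ≠ p.2 ∧ Touch G (B p.1) (B p.2)).card) :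
    KMinor G t := by
  obtain ⟨C, c1, c2⟩ := SMader_aux G t _ I B rfl hI hc hd he
  refine ⟨C, fun a => ?_, fun a => (c1 a).1, c2⟩
  obtain ⟨i, hi, h⟩ := (c1 a).2.1
  exact (hne i hi).mono h

end Pool.Agent.MP_d3be90_lc

end

section

set_option autoImplicit false

open Finset
open scoped Classical

namespace Pool.Agent.MP_d3be90_lc

variable {V : Type}

/-- connected graphs of large minimum degree have small diameter -/
lemma dense_diam {G : SimpleGraph V} {R : Finset V} {δ : ℕ} (hc : Conn G R)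
    (hδ : ∀ x ∈ R, δ ≤ (R.filter (G.Adj x)).card) (hR : R.card < 3 * δ) {a b : V} (ha : a ∈ R)
    (hb : b ∈ R) : Reach G (fun _ _ => 1) R a b 5 := by
  by_contra hcon
  have ex : ∀ j ≤ 5, ∃ y, Reach G (fun _ _ => 1) R a y (j + 1) ∧
      ¬ Reach G (fun _ _ => 1) R a y j := by
    intro j hj
    by_contra h
    push Not at h
    exact hcon (((hc a ha b hb).ind (P := fun z => Reach G (fun _ _ => 1) R a z j)
      (Reach.base _ ha) fun x y _ hxy hy ih => h y (ih.step hxy hy)).mono hj)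
  obtain ⟨y, y1, y2⟩ := ex 2 (by norm_num)
  obtain ⟨z, z1, z2⟩ := ex 5 le_rfl
  have d1 : Disjoint (R.filter (G.Adj a)) (R.filter (G.Adj y)) := by
    refine disjoint_left.2 fun w hw hw' => y2 ?_
    exact ((Reach.base 0 ha).step (mem_filter.1 hw).2 (mem_filter.1 hw).1).step
      (mem_filter.1 hw').2.symm y1.last
  have d2 : Disjoint (R.filter (G.Adj a) ∪ R.filter (G.Adj y)) (R.filter (G.Adj z)) := by
    refine disjoint_left.2 fun w hw hw' => z2 ?_
    have : Reach G (fun _ _ => 1) R a w 4 := by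
      rcases mem_union.1 hw with e | e
      · exact ((Reach.base 0 ha).step (mem_filter.1 e).2 (mem_filter.1 e).1).mono (by norm_num)
      · exact y1.step (mem_filter.1 e).2 (mem_filter.1 e).1
    exact this.step (mem_filter.1 hw').2.symm z1.last
  have e1 := card_union_of_disjoint d1
  have e2 := card_union_of_disjoint d2
  have e3 : (R.filter (G.Adj a) ∪ R.filter (G.Adj y) ∪ R.filter (G.Adj z)).card ≤ R.card :=
    card_le_card (union_subset (union_subset (filter_subset _ _) (filter_subset _ _))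
      (filter_subset _ _))
  have := hδ a ha
  have := hδ y y1.last
  have := hδ z z1.last
  omega

/-- small connected dominating sets -/
lemma dense_dom {G : SimpleGraph V} {R : Finset V} {δ : ℕ} (hc : Conn G R) (hne : R.Nonempty)
    (hδ : ∀ x ∈ R, δ ≤ (R.filter (G.Adj x)).card) (hR : R.card < 3 * δ) (k : ℕ) :
    ∃ D ⊆ R, D.Nonempty ∧ Conn G D ∧ D.card ≤ 1 + 6 * k ∧
      (R.filter fun x => ¬ ∃ y ∈ D, G.Adj y x).card * 3 ^ k ≤ R.card * 2 ^ k := by
  induction k with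
  | zero =>
    obtain ⟨a, ha⟩ := hne
    exact ⟨{a}, singleton_subset_iff.2 ha, singleton_nonempty _, conn_singleton _ _, by simp,
      by simpa using card_filter_le _ _⟩
  | succ k ih =>
    obtain ⟨D, h1, ⟨a, ha⟩, h3, h4, h5⟩ := ih
    set X := R.filter fun x => ¬ ∃ y ∈ D, G.Adj y x with hX
    have hXR : X ⊆ R := filter_subset _ _
    obtain ⟨v, hv, hv'⟩ : ∃ v ∈ R, X.card ≤ 3 * (X.filter (G.Adj v)).card := by
      by_contra hcon
      push Not at hcon
      have e1 : ∑ v ∈ R, (X.filter (G.Adj v)).card = ∑ x ∈ X, (R.filter (G.Adj x)).card := by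
        simp only [card_filter]
        rw [sum_comm]
        exact sum_congr rfl fun x _ => sum_congr rfl fun v _ => by simp only [G.adj_comm]
      have e2 : X.card * δ ≤ ∑ x ∈ X, (R.filter (G.Adj x)).card := by
        rw [← smul_eq_mul]; exact card_nsmul_le_sum _ _ _ fun x hx => hδ x (hXR hx)
      have e3 : ∑ v ∈ R, 3 * (X.filter (G.Adj v)).card < ∑ _v ∈ R, X.card :=
        sum_lt_sum_of_nonempty hne hcon
      rw [← mul_sum, e1, sum_const, smul_eq_mul] at e3
      nlinarith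
    obtain ⟨Y, y1, y2, y3, y4, y5⟩ := (dense_diam hc hδ hR (h1 ha) hv).exists_set
    refine ⟨D ∪ Y, union_subset h1 y1, ⟨a, mem_union_left _ ha⟩, h3.union_of_mem y5 ha y2,
      (card_union_le _ _).trans (by omega), ?_⟩
    have e1 : (R.filter fun x => ¬ ∃ y ∈ D ∪ Y, G.Adj y x) ⊆ X \ X.filter (G.Adj v) := by
      intro x hx
      obtain ⟨p1, p2⟩ := mem_filter.1 hx
      refine mem_sdiff.2 ⟨mem_filter.2 ⟨p1, fun ⟨y, hy, e⟩ => p2 ⟨y, mem_union_left _ hy, e⟩⟩,
        fun e => p2 ⟨v, mem_union_right _ y3, (mem_filter.1 e).2⟩⟩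
    have e2 := card_le_card e1
    have e3 := card_sdiff_add_card_eq_card (filter_subset (G.Adj v) X)
    have e4 : (R.filter fun x => ¬ ∃ y ∈ D ∪ Y, G.Adj y x).card * 3 ≤ X.card * 2 := by omega
    calc _ = (R.filter fun x => ¬ ∃ y ∈ D ∪ Y, G.Adj y x).card * 3 * 3 ^ k := by ring
      _ ≤ X.card * 2 * 3 ^ k := Nat.mul_le_mul_right _ e4
      _ = X.card * 3 ^ k * 2 := by ring
      _ ≤ R.card * 2 ^ k * 2 := Nat.mul_le_mul_right _ h5
      _ = _ := by ring

lemma dense_aux (G : SimpleGraph V) (m j δ : ℕ) (hj : m < 2 ^ j) (hδ : m < 3 * δ) (t : ℕ) :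
    ∀ R : Finset V, R.Nonempty → R.card ≤ m →
      (∀ x ∈ R, δ + t * (1 + 12 * j) ≤ (R.filter (G.Adj x)).card) →
      ∃ C : Fin t → Finset V, (∀ a, (C a).Nonempty ∧ Conn G (C a) ∧ C a ⊆ R) ∧
        ∀ a b, a ≠ b → Disjoint (C a) (C b) ∧ Touch G (C a) (C b) := by
  induction t with
  | zero => exact fun _ _ _ _ => ⟨Fin.elim0, fun a => a.elim0, fun a => a.elim0⟩
  | succ t ih =>
    intro R ⟨x0, hx0⟩ hm hd
    set R' := comp G R x0 with hR'
    have s1 : R' ⊆ R := comp_subset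
    have c1 := card_le_card s1
    have hd' : ∀ x ∈ R', δ + (t + 1) * (1 + 12 * j) ≤ (R'.filter (G.Adj x)).card := fun x hx =>
      (hd x (s1 hx)).trans (card_le_card fun y hy => mem_filter.2
        ⟨comp_closed hx (mem_filter.1 hy).2 (mem_filter.1 hy).1, (mem_filter.1 hy).2⟩)
    have n1 : x0 ∈ R' := mem_comp.2 (WkM.refl hx0)
    obtain ⟨D, h1, h2, h3, h4, h5⟩ := dense_dom (δ := δ) (conn_comp G R x0) ⟨x0, n1⟩
      (fun x hx => le_trans (Nat.le_add_right _ _) (hd' x hx)) ((c1.trans hm).trans_lt hδ) (2 * j)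
    have h6 : ∀ x ∈ R', ∃ y ∈ D, G.Adj y x := by
      by_contra hcon
      push Not at hcon
      obtain ⟨x, hx, hx'⟩ := hcon
      have p1 : 0 < (R'.filter fun x => ¬ ∃ y ∈ D, G.Adj y x).card :=
        card_pos.2 ⟨x, mem_filter.2 ⟨hx, fun ⟨y, hy, e⟩ => hx' y hy e⟩⟩
      have p2 : 2 ^ j * 2 ^ (2 * j) ≤ 3 ^ (2 * j) := by
        rw [pow_mul, pow_mul, ← mul_pow]
        exact Nat.pow_le_pow_left (by norm_num) _
      have p3 : R'.card * 2 ^ (2 * j) < 2 ^ j * 2 ^ (2 * j) :=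
        Nat.mul_lt_mul_of_pos_right (by omega) (by positivity)
      have p4 : 3 ^ (2 * j) ≤ (R'.filter fun x => ¬ ∃ y ∈ D, G.Adj y x).card * 3 ^ (2 * j) :=
        Nat.le_mul_of_pos_left _ p1
      rw [← hR'] at h5
      omega
    have hd'' : ∀ x ∈ R', δ + t * (1 + 12 * j) ≤ ((R' \ D).filter (G.Adj x)).card := fun x hx => by
      have p1 := hd' x hx
      have p2 : R'.filter (G.Adj x) ⊆ (R' \ D).filter (G.Adj x) ∪ D := fun y hy => by
        by_cases e : y ∈ D
        · exact mem_union_right _ e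
        · exact mem_union_left _ (mem_filter.2
            ⟨mem_sdiff.2 ⟨(mem_filter.1 hy).1, e⟩, (mem_filter.1 hy).2⟩)
      have p3 := (card_le_card p2).trans (card_union_le _ _)
      rw [add_mul] at p1
      omega
    obtain ⟨C, k1, k2⟩ := ih (R' \ D) (by
      have := hd'' x0 n1
      exact (card_pos.1 (show 0 < ((R' \ D).filter (G.Adj x0)).card by omega)).mono
        (filter_subset _ _)) ((card_le_card sdiff_subset).trans (by omega))
      fun x hx => hd'' x (mem_sdiff.1 hx).1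
    have k3 : ∀ a, Disjoint D (C a) ∧ Touch G D (C a) := fun a => by
      obtain ⟨⟨x, hx⟩, -, e⟩ := k1 a
      obtain ⟨y, hy, e'⟩ := h6 x (mem_sdiff.1 (e hx)).1
      exact ⟨disjoint_sdiff.mono_right e, y, hy, x, hx, e'⟩
    refine ⟨Fin.cons D C, fun a => ?_, fun a b hab => ?_⟩
    · refine Fin.cases ?_ (fun a => ?_) a
      · exact ⟨h2, h3, h1.trans s1⟩
      · exact ⟨(k1 a).1, (k1 a).2.1, (k1 a).2.2.trans (sdiff_subset.trans s1)⟩
    · revert hab
      refine Fin.cases ?_ (fun a => ?_) a <;> refine Fin.cases ?_ (fun b => ?_) b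
      · exact fun h => (h rfl).elim
      · exact fun _ => k3 b
      · exact fun _ => ⟨(k3 a).1.symm, (k3 a).2.symm⟩
      · exact fun h => k2 a b fun e => h (by rw [e])

/-- dense graphs have complete minors -/
theorem dense_minor (G : SimpleGraph V) (t d : ℕ) (hd : 22500 * (t + 1) ^ 2 ≤ d) (N : Finset V)
    (hN : N.Nonempty) (hc : N.card ≤ 2 * d + 1) (hδ : ∀ x ∈ N, d ≤ (N.filter (G.Adj x)).card) :
    ∃ C : Fin t → Finset V, (∀ a, (C a).Nonempty ∧ Conn G (C a) ∧ C a ⊆ N) ∧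
      ∀ a b, a ≠ b → Disjoint (C a) (C b) ∧ Touch G (C a) (C b) := by
  obtain ⟨y, hy⟩ : ∃ y, y = Nat.sqrt d := ⟨_, rfl⟩
  have y1 : y * y ≤ d := hy ▸ Nat.sqrt_le d
  have y2 : d < (y + 1) * (y + 1) := hy ▸ Nat.lt_succ_sqrt d
  have y3 : 150 * (t + 1) ≤ y := by
    rw [hy, Nat.le_sqrt]
    calc 150 * (t + 1) * (150 * (t + 1)) = 22500 * (t + 1) ^ 2 := by ring
      _ ≤ d := hd
  have y4 : y + 1 ≤ 2 ^ y := Nat.lt_two_pow_self
  have y5 : t * (1 + 12 * (2 * y + 1)) * 3 + 2 ≤ y * y := by nlinarith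
  refine dense_aux G (2 * d + 1) (2 * y + 1) (d - t * (1 + 12 * (2 * y + 1))) ?_ (by omega) t N
    hN hc fun x hx => le_trans (by omega) (hδ x hx)
  calc 2 * d + 1 < 2 * ((y + 1) * (y + 1)) := by omega
    _ ≤ 2 * (2 ^ y * 2 ^ y) := by gcongr
    _ = _ := by ring

end Pool.Agent.MP_d3be90_lc

end

section

set_option autoImplicit false

open Finset
open scoped Classical

namespace Pool.Agent.MP_d3be90_lc

variable {V : Type}

/-- density forcing a complete minor on `t` vertices -/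
def madD (t : ℕ) : ℕ := 45000 * (t + 1) ^ 2

lemma madD_pos (t : ℕ) : 1 ≤ madD t := by
  have : 0 < madD t := by unfold madD; positivity
  exact this

lemma kminor_lift {ι : Type} (G : SimpleGraph V) (Γ : SimpleGraph ι) (I : Finset ι)
    (B : ι → Finset V) (hne : ∀ i ∈ I, (B i).Nonempty) (hc : ∀ i ∈ I, Conn G (B i))
    (hd : ∀ i ∈ I, ∀ j ∈ I, i ≠ j → Disjoint (B i) (B j))
    (hΓ : ∀ i j, Γ.Adj i j → Touch G (B i) (B j)) {t : ℕ} (C : Fin t → Finset ι)
    (h1 : ∀ a, (C a).Nonempty ∧ Conn Γ (C a) ∧ C a ⊆ I)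
    (h2 : ∀ a b, a ≠ b → Disjoint (C a) (C b) ∧ Touch Γ (C a) (C b)) : KMinor G t := by
  refine ⟨fun a => (C a).biUnion B, fun a => ?_, fun a => ?_, fun a b hab => ⟨?_, ?_⟩⟩
  · obtain ⟨⟨i, hi⟩, -, e⟩ := h1 a
    exact (hne i (e hi)).mono (subset_biUnion_of_mem B hi)
  · obtain ⟨⟨i, hi⟩, e1, e2⟩ := h1 a
    obtain ⟨x, hx⟩ := hne i (e2 hi)
    refine conn_of_root (a := x) fun z hz => ?_
    obtain ⟨j, hj, hz⟩ := mem_biUnion.1 hz
    refine (e1 i hi j hj).ind (P := fun j => ∀ z ∈ B j, WkM G.Adj ((C a).biUnion B) x z)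
      (fun z hz => (hc i (e2 hi) x hx z hz).monoD (subset_biUnion_of_mem B hi))
      (fun p q _ hpq hq ih z hz => ?_) z hz
    obtain ⟨u, hu, v, hv, e⟩ := hΓ p q hpq
    exact ((ih u hu).tail e (subset_biUnion_of_mem B hq hv)).trans
      ((hc q (e2 hq) v hv z hz).monoD (subset_biUnion_of_mem B hq))
  · refine (disjoint_biUnion_left _ _ _).2 fun i hi => (disjoint_biUnion_right _ _ _).2
      fun j hj => hd i ((h1 a).2.2 hi) j ((h1 b).2.2 hj) ?_
    rintro rfl
    exact disjoint_left.1 (h2 a b hab).1 hi hj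
  · obtain ⟨i, hi, j, hj, e⟩ := (h2 a b hab).2
    exact SMader_touch (hΓ i j e) (subset_biUnion_of_mem B hi) (subset_biUnion_of_mem B hj)

lemma maderP_aux {ι : Type} (G : SimpleGraph V) (t : ℕ) (n : ℕ) : ∀ (I : Finset ι)
    (B : ι → Finset V), I.card = n → I.Nonempty → (∀ i ∈ I, (B i).Nonempty) →
    (∀ i ∈ I, Conn G (B i)) → (∀ i ∈ I, ∀ j ∈ I, i ≠ j → Disjoint (B i) (B j)) →
    madD t * I.card ≤ ((I ×ˢ I).filter fun p => p.1 ≠ p.2 ∧ Touch G (B p.1) (B p.2)).card →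
    KMinor G t := by
  induction n with
  | zero => exact fun I B hn hI => (hI.card_pos.ne' hn).elim
  | succ n ihn =>
    intro I B hn hI hne hc hd he
    obtain ⟨E, hE⟩ : ∃ E, E =
      ((I ×ˢ I).filter fun p => p.1 ≠ p.2 ∧ Touch G (B p.1) (B p.2)).card := ⟨_, rfl⟩
    obtain ⟨d, hdd⟩ : ∃ d, d = E / (2 * (n + 1)) := ⟨_, rfl⟩
    rw [← hE, hn] at he
    have d1 : d * (2 * (n + 1)) ≤ E := hdd ▸ Nat.div_mul_le_self _ _
    have d2 : E < (d + 1) * (2 * (n + 1)) := by
      rw [hdd, mul_comm]; exact Nat.lt_mul_div_succ _ (by omega)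
    have d3 : 22500 * (t + 1) ^ 2 ≤ d := by
      rw [hdd, Nat.le_div_iff_mul_le (by omega)]
      calc 22500 * (t + 1) ^ 2 * (2 * (n + 1)) = madD t * (n + 1) := by unfold madD; ring
        _ ≤ E := he
    have d4 : madD t ≤ 2 * d := by unfold madD; omega
    by_cases hx : ∃ u ∈ I, ∃ v ∈ I, u ≠ v ∧ Touch G (B u) (B v) ∧
        (I.filter fun j => (j ≠ u ∧ Touch G (B u) (B j)) ∧ j ≠ v ∧ Touch G (B v) (B j)).card < d
    · obtain ⟨u, hu, v, hv, huv, ht, hlt⟩ := hx
      set B' : ι → Finset V := fun i => if i = u then B u ∪ B v else B i with hB'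
      have h1 : ∀ i, B i ⊆ B' i := fun i => by
        simp only [hB']
        split_ifs with e
        · rw [e]; exact subset_union_left
        · exact Subset.rfl
      have h2 : ∀ i, B i ⊆ B' (if i = v then u else i) := fun i => by
        split_ifs with e
        · simp only [hB', if_true, e]; exact subset_union_right
        · exact h1 i
      have h3 := SMader_count I (fun i j => Touch G (B i) (B j))
        (fun i j => Touch G (B' i) (B' j)) hu huv (fun _ _ h => h.symm)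
        fun i j h => SMader_touch h (h2 i) (h2 j)
      have h4 : (I.erase v).card = n := by rw [card_erase_of_mem hv, hn]; rfl
      have h5 : ∀ i ∈ I.erase v, i ≠ u → Disjoint (B u ∪ B v) (B i) := fun i hi e =>
        disjoint_union_left.2 ⟨hd u hu i (mem_of_mem_erase hi) e.symm,
          hd v hv i (mem_of_mem_erase hi) (ne_of_mem_erase hi).symm⟩
      refine ihn (I.erase v) B' h4 ⟨u, mem_erase.2 ⟨huv, hu⟩⟩
        (fun i hi => (hne i (mem_of_mem_erase hi)).mono (h1 i)) (fun i hi => ?_)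
        (fun i hi j hj hij => ?_) ?_
      · simp only [hB']
        split_ifs
        · exact (hc u hu).union_of_touch (hc v hv) ht
        · exact hc i (mem_of_mem_erase hi)
      · simp only [hB']
        split_ifs with e e' e'
        · exact (hij (e.trans e'.symm)).elim
        · exact h5 j hj e'
        · exact (h5 i hi e).symm
        · exact hd i (mem_of_mem_erase hi) j (mem_of_mem_erase hj) hij
      · rw [← hE] at h3
        have : madD t * n ≤ 2 * d * n := Nat.mul_le_mul_right _ d4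
        have e : d * (2 * (n + 1)) = 2 * d * n + 2 * d := by ring
        rw [h4]
        omega
    obtain ⟨u, hu, hmin⟩ := exists_min_image I
      (fun u => (I.filter fun j => j ≠ u ∧ Touch G (B u) (B j)).card) hI
    set N := I.filter fun j => j ≠ u ∧ Touch G (B u) (B j) with hN
    have hs : N ⊆ I := filter_subset _ _
    have n1 : N.card * (n + 1) ≤ E := by
      rw [hE, ← hn]
      exact SMader_deg I (fun i j => Touch G (B i) (B j)) _ hmin
    have n2 : N.card ≤ 2 * d + 1 := by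
      by_contra h
      have : (2 * d + 2) * (n + 1) ≤ N.card * (n + 1) := Nat.mul_le_mul_right _ (by omega)
      have e : (d + 1) * (2 * (n + 1)) = (2 * d + 2) * (n + 1) := by ring
      omega
    rcases N.eq_empty_or_nonempty with h0 | h0
    · have h4 : (I.erase u).card = n := by rw [card_erase_of_mem hu, hn]; rfl
      have h5 : E ≤ ((I.erase u ×ˢ I.erase u).filter
          fun p => p.1 ≠ p.2 ∧ Touch G (B p.1) (B p.2)).card := by
        rw [hE]
        refine card_le_card fun p hp => ?_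
        obtain ⟨p1, p2, p3⟩ := mem_filter.1 hp
        obtain ⟨p4, p5⟩ := mem_product.1 p1
        refine mem_filter.2 ⟨mem_product.2 ⟨mem_erase.2 ⟨fun e => ?_, p4⟩,
          mem_erase.2 ⟨fun e => ?_, p5⟩⟩, p2, p3⟩
        · exact notMem_empty p.2 (h0 ▸ mem_filter.2 ⟨p5, e ▸ p2.symm, e ▸ p3⟩)
        · exact notMem_empty p.1 (h0 ▸ mem_filter.2 ⟨p4, e ▸ p2, e ▸ p3.symm⟩)
      have h6 : 0 < E := lt_of_lt_of_le (Nat.mul_pos (madD_pos t) (by omega)) he
      refine ihn (I.erase u) B h4 ?_ (fun i hi => hne i (mem_of_mem_erase hi))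
        (fun i hi => hc i (mem_of_mem_erase hi))
        (fun i hi j hj => hd i (mem_of_mem_erase hi) j (mem_of_mem_erase hj)) ?_
      · obtain ⟨p, hp⟩ := card_pos.1 (h6.trans_le h5)
        exact ⟨p.1, (mem_product.1 (mem_filter.1 hp).1).1⟩
      · rw [h4]
        exact ((Nat.mul_le_mul_left _ (Nat.le_succ n)).trans he).trans h5
    · let Γ : SimpleGraph ι :=
        { Adj := fun i j => j ≠ i ∧ Touch G (B i) (B j)
          symm := ⟨fun i j h => ⟨h.1.symm, h.2.symm⟩⟩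
          loopless := ⟨fun i h => h.1 rfl⟩ }
      obtain ⟨C, c1, c2⟩ := dense_minor Γ t d d3 N h0 n2 fun j hj => by
        obtain ⟨a1, a2, a3⟩ := mem_filter.1 hj
        have := not_lt.1 fun h => hx ⟨u, hu, j, a1, a2.symm, a3, h⟩
        refine this.trans (card_le_card fun i hi => ?_)
        obtain ⟨b1, b2, b3⟩ := mem_filter.1 hi
        exact (@mem_filter _ _ (fun a => Classical.propDecidable _) _ _).2
          ⟨mem_filter.2 ⟨b1, b2⟩, b3⟩
      exact kminor_lift G Γ I B hne hc hd (fun _ _ h => h.2) C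
        (fun a => ⟨(c1 a).1, (c1 a).2.1, (c1 a).2.2.trans hs⟩) c2

theorem maderP {ι : Type} (G : SimpleGraph V) (t : ℕ) (I : Finset ι) (B : ι → Finset V)
    (hI : I.Nonempty) (hne : ∀ i ∈ I, (B i).Nonempty) (hc : ∀ i ∈ I, Conn G (B i))
    (hd : ∀ i ∈ I, ∀ j ∈ I, i ≠ j → Disjoint (B i) (B j))
    (he : madD t * I.card ≤
      ((I ×ˢ I).filter fun p => p.1 ≠ p.2 ∧ Touch G (B p.1) (B p.2)).card) :
    KMinor G t :=
  maderP_aux G t _ I B rfl hI hne hc hd he

end Pool.Agent.MP_d3be90_lc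

end

section

set_option autoImplicit false

open Finset
open scoped Classical

namespace Pool.Agent.MP_d3be90_lc

lemma SColour_pair {α : Type} [Fintype α] (κ : ℕ) (p q : α) (h : p ≠ q) :
    κ * (univ.filter fun col : α → Fin κ => col p = col q).card ≤
      Fintype.card (α → Fin κ) := by
  have e : κ * (univ.filter fun col : α → Fin κ => col p = col q).card =
      ((univ : Finset (Fin κ)) ×ˢ (univ.filter fun col : α → Fin κ => col p = col q)).card := by
    rw [card_product, card_univ, Fintype.card_fin]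
  rw [e, ← card_univ]
  refine card_le_card_of_injOn (fun x => Function.update x.2 p x.1) (fun _ _ => mem_univ _) ?_
  rintro ⟨a, c⟩ hc ⟨a', c'⟩ hc' hh
  have h1 : c p = c q := (mem_filter.1 (mem_product.1 (mem_coe.1 hc)).2).2
  have h2 : c' p = c' q := (mem_filter.1 (mem_product.1 (mem_coe.1 hc')).2).2
  have hh' : Function.update c p a = Function.update c' p a' := hh
  have h3 : ∀ x, x ≠ p → c x = c' x := fun x hx => by
    have := congrFun hh' x
    rwa [Function.update_of_ne hx, Function.update_of_ne hx] at this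
  have h4 : a = a' := by
    have := congrFun hh' p
    rwa [Function.update_self, Function.update_self] at this
  refine Prod.ext h4 (funext fun x => ?_)
  by_cases hx : x = p
  · subst hx
    show c x = c' x
    rw [h1, h2]
    exact h3 q (Ne.symm h)
  · exact h3 x hx

lemma SColour_one {α : Type} [Fintype α] (κ : ℕ) (q : α) (T : Finset α) (r : ℕ) (hq : q ∉ T)
    (hT : T.card ≤ r) :
    κ * (univ.filter fun col : α → Fin κ => ∃ p ∈ T, col p = col q).card ≤
      r * Fintype.card (α → Fin κ) := by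
  have h1 : (univ.filter fun col : α → Fin κ => ∃ p ∈ T, col p = col q) ⊆
      T.biUnion fun p => univ.filter fun col : α → Fin κ => col p = col q := by
    intro col hc
    obtain ⟨p, hp, e⟩ := (mem_filter.1 hc).2
    exact mem_biUnion.2 ⟨p, hp, mem_filter.2 ⟨mem_univ _, e⟩⟩
  have h2 := (card_le_card h1).trans card_biUnion_le
  calc κ * (univ.filter fun col : α → Fin κ => ∃ p ∈ T, col p = col q).card
      ≤ κ * ∑ p ∈ T, (univ.filter fun col : α → Fin κ => col p = col q).card :=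
        Nat.mul_le_mul_left _ h2
    _ = ∑ p ∈ T, κ * (univ.filter fun col : α → Fin κ => col p = col q).card := mul_sum _ _ _
    _ ≤ ∑ _p ∈ T, Fintype.card (α → Fin κ) :=
        sum_le_sum fun p hp => SColour_pair κ p q fun e => hq (e ▸ hp)
    _ = T.card * Fintype.card (α → Fin κ) := by rw [sum_const, smul_eq_mul]
    _ ≤ r * Fintype.card (α → Fin κ) := Nat.mul_le_mul_right _ hT

theorem exists_colouring {α β : Type} [Fintype α] (κ : ℕ) (hκ : 0 < κ) (E : Finset β)
    (s : β → α) (T : β → Finset α) (r : ℕ) (hT : ∀ e ∈ E, s e ∉ T e ∧ (T e).card ≤ r) :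
    ∃ col : α → Fin κ,
      κ * (E.filter fun e => ∃ p ∈ T e, col p = col (s e)).card ≤ r * E.card := by
  have hne : (univ : Finset (α → Fin κ)).Nonempty := ⟨fun _ => ⟨0, hκ⟩, mem_univ _⟩
  have key : ∑ col : α → Fin κ, κ * (E.filter fun e => ∃ p ∈ T e, col p = col (s e)).card ≤
      ∑ _col : α → Fin κ, r * E.card := by
    calc ∑ col : α → Fin κ, κ * (E.filter fun e => ∃ p ∈ T e, col p = col (s e)).card
        = ∑ col : α → Fin κ, ∑ e ∈ E, κ * (if ∃ p ∈ T e, col p = col (s e) then 1 else 0) := by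
          refine sum_congr rfl fun col _ => ?_
          rw [card_filter, mul_sum]
      _ = ∑ e ∈ E, κ * (univ.filter fun col : α → Fin κ => ∃ p ∈ T e, col p = col (s e)).card := by
          rw [sum_comm]
          refine sum_congr rfl fun e _ => ?_
          rw [card_filter, mul_sum]
      _ ≤ ∑ _e ∈ E, r * Fintype.card (α → Fin κ) :=
          sum_le_sum fun e he => SColour_one κ (s e) (T e) r (hT e he).1 (hT e he).2
      _ = ∑ _col : α → Fin κ, r * E.card := by
          rw [sum_const, sum_const, smul_eq_mul, smul_eq_mul, card_univ]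
          ring
  obtain ⟨col, -, h⟩ := exists_le_of_sum_le hne key
  exact ⟨col, h⟩

end Pool.Agent.MP_d3be90_lc

end

section

set_option autoImplicit false

open Finset
open scoped Classical

namespace Pool.Agent.MP_d3be90_lc

variable {V : Type}

lemma SFan_card {α : Type} [Fintype α] (P : α → Finset V)
    (hPd : ∀ i j, i ≠ j → Disjoint (P i) (P j)) (T : Finset V) (r : ℕ) (hT : T.card ≤ r + 1)
    (p0 : α) (h0 : ¬ Disjoint T (P p0)) :
    (univ.filter fun p => p ≠ p0 ∧ ¬ Disjoint T (P p)).card ≤ r := by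
  obtain ⟨x0, hx0, hx0'⟩ := not_disjoint_iff.1 h0
  have hch : ∀ p, ∃ x, ¬ Disjoint T (P p) → x ∈ T ∧ x ∈ P p := by
    intro p
    by_cases h : Disjoint T (P p)
    · exact ⟨x0, fun h' => absurd h h'⟩
    · obtain ⟨x, hx, hx'⟩ := not_disjoint_iff.1 h
      exact ⟨x, fun _ => ⟨hx, hx'⟩⟩
  choose f hf using hch
  have h1 : (univ.filter fun p => p ≠ p0 ∧ ¬ Disjoint T (P p)).card ≤ (T.erase x0).card := by
    refine card_le_card_of_injOn f ?_ ?_
    · intro p hp
      have hp' := (mem_filter.1 (mem_coe.1 hp)).2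
      refine mem_coe.2 (mem_erase.2 ⟨?_, (hf p hp'.2).1⟩)
      intro e
      exact disjoint_left.1 (hPd p p0 hp'.1) (hf p hp'.2).2 (e ▸ hx0')
    · intro p hp q hq e
      have hp' := (mem_filter.1 (mem_coe.1 hp)).2
      have hq' := (mem_filter.1 (mem_coe.1 hq)).2
      by_contra hne
      exact disjoint_left.1 (hPd p q hne) (hf p hp'.2).2 (e ▸ (hf q hq'.2).2)
  rw [card_erase_of_mem hx0] at h1
  omega

lemma SFan_pigeon (t r m : ℕ) (hr : 1 ≤ r) (hm : 1 ≤ m) (a b : Fin (2 * r) → ℕ)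
    (ha : 2 * madD t * (8 * r * m) ≤ 2 * ∑ g, a g) (hb : ∑ g, b g = 8 * r * m) :
    ∃ g, 2 * m + madD t * (b g + m) < 2 * a g := by
  by_contra hcon
  push Not at hcon
  have h1 : ∑ g, 2 * a g ≤ ∑ g, (2 * m + madD t * (b g + m)) := sum_le_sum fun g _ => hcon g
  rw [← mul_sum, sum_add_distrib, ← mul_sum, ← mul_sum, sum_add_distrib, hb] at h1
  simp only [sum_const, card_univ, Fintype.card_fin, smul_eq_mul] at h1
  have h2 : 1 ≤ madD t := madD_pos t
  have h3 : 1 ≤ r * m := Nat.mul_pos hr hm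
  have h4 := ha.trans h1
  have h5 : r * m ≤ madD t * (r * m) := Nat.le_mul_of_pos_left _ h2
  have e1 : 2 * madD t * (8 * r * m) = 16 * (madD t * (r * m)) := by ring
  have e2 : 2 * (2 * r * m) + madD t * (8 * r * m + 2 * r * m) =
      4 * (r * m) + 10 * (madD t * (r * m)) := by ring
  rw [e1, e2] at h4
  omega

lemma SFan_touch (Q : SimpleGraph V) (Pp US Zz T : Finset V) (h x0 : V) (hT : T ⊆ Zz)
    (hc : Conn Q T) (hh : h ∈ T) (hx0 : x0 ∈ T) (hx0' : x0 ∈ US) (hhU : h ∉ US)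
    (hU : ∀ y ∈ T, y ∈ US → y ∈ Pp) : Touch Q Pp (comp Q (Zz \ US) h) := by
  have key : WkM Q.Adj (Zz \ US) h x0 ∨ Touch Q Pp (comp Q (Zz \ US) h) := by
    refine (hc h hh x0 hx0).ind
      (P := fun y => WkM Q.Adj (Zz \ US) h y ∨ Touch Q Pp (comp Q (Zz \ US) h))
      (Or.inl (WkM.refl (mem_sdiff.2 ⟨hT hh, hhU⟩))) ?_
    intro x y _ hxy hy ih
    rcases ih with e | e
    · by_cases hyU : y ∈ US
      · exact Or.inr ⟨y, hU y hy hyU, x, mem_comp.2 e, hxy.symm⟩
      · exact Or.inl (e.tail hxy (mem_sdiff.2 ⟨hT hy, hyU⟩))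
    · exact Or.inr e
  rcases key with e | e
  · exact absurd hx0' (mem_sdiff.1 e.last).2
  · exact e

/-- the one-colour step -/
lemma SFan_colour {α β : Type} [Fintype β] (Q : SimpleGraph V) (t : ℕ)
    (P : α → Finset V) (hP : ∀ i, (P i).Nonempty ∧ Conn Q (P i))
    (hPd : ∀ i j, i ≠ j → Disjoint (P i) (P j))
    (Z : β → Finset V) (hZ : ∀ y z, y ≠ z → Disjoint (Z y) (Z z)) (hub : β → V)
    (S : Finset α) (E : Finset (α × β)) (T : α × β → Finset V)
    (hT : ∀ e ∈ E, T e ⊆ Z e.2 ∧ Conn Q (T e) ∧ hub e.2 ∈ T e ∧ ¬ Disjoint (T e) (P e.1))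
    (hS : ∀ e ∈ E, e.1 ∈ S)
    (hgood : ∀ e ∈ E, ∀ p ∈ S, ¬ Disjoint (T e) (P p) → p = e.1)
    (hE : 2 * Fintype.card β + madD t * (S.card + Fintype.card β) < 2 * E.card) : KMinor Q t := by
  set US := S.biUnion P with hUS
  have hU : ∀ e ∈ E, ∀ y ∈ T e, y ∈ US → y ∈ P e.1 := by
    intro e he y hy hyU
    obtain ⟨p, hp, hyp⟩ := mem_biUnion.1 hyU
    have := hgood e he p hp (not_disjoint_iff.2 ⟨y, hy, hyp⟩)
    exact this ▸ hyp
  set E' := E.filter fun e => hub e.2 ∉ US with hE'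
  have hc1 : (E.filter fun e => ¬ hub e.2 ∉ US).card ≤ Fintype.card β := by
    rw [← card_univ]
    refine card_le_card_of_injOn Prod.snd (fun _ _ => mem_coe.2 (mem_univ _)) ?_
    intro e he e' he' h
    obtain ⟨h1, h2⟩ := mem_filter.1 (mem_coe.1 he)
    obtain ⟨h1', h2'⟩ := mem_filter.1 (mem_coe.1 he')
    have a1 := hU e h1 _ (hT e h1).2.2.1 (not_not.1 h2)
    have a2 := hU e' h1' _ (hT e' h1').2.2.1 (not_not.1 h2')
    refine Prod.ext ?_ h
    by_contra hne
    have h' : e.2 = e'.2 := h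
    exact disjoint_left.1 (hPd _ _ hne) a1 (h' ▸ a2)
  have hc2 : E'.card + (E.filter fun e => ¬ hub e.2 ∉ US).card = E.card :=
    card_filter_add_card_filter_not _
  have hE'pos : 0 < E'.card := by omega
  set Zs := E'.image Prod.snd with hZs
  have hZc : Zs.card ≤ Fintype.card β := card_le_univ _
  let B : α ⊕ β → Finset V := Sum.elim P fun z => comp Q (Z z \ US) (hub z)
  have hPU : ∀ p ∈ S, P p ⊆ US := fun p hp => subset_biUnion_of_mem P hp
  have htouch : ∀ e ∈ E', Touch Q (P e.1) (comp Q (Z e.2 \ US) (hub e.2)) := by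
    intro e he
    obtain ⟨h1, h2⟩ := mem_filter.1 he
    obtain ⟨x0, hx0, hx0'⟩ := not_disjoint_iff.1 (hT e h1).2.2.2
    exact SFan_touch Q _ US _ (T e) _ x0 (hT e h1).1 (hT e h1).2.1 (hT e h1).2.2.1 hx0
      (hPU _ (hS e h1) hx0') h2 (hU e h1)
  refine maderP Q t (S.disjSum Zs) B ?_ ?_ ?_ ?_ ?_
  · obtain ⟨e, he⟩ := card_pos.1 hE'pos
    exact ⟨Sum.inr e.2, inr_mem_disjSum.2 (mem_image_of_mem _ he)⟩
  · rintro (p | z) hi
    · exact (hP p).1
    · obtain ⟨e, he, rfl⟩ := mem_image.1 (inr_mem_disjSum.1 hi)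
      obtain ⟨h1, h2⟩ := mem_filter.1 he
      exact ⟨hub e.2, mem_comp.2 (WkM.refl (mem_sdiff.2 ⟨(hT e h1).1 (hT e h1).2.2.1, h2⟩))⟩
  · rintro (p | z) _
    · exact (hP p).2
    · exact conn_comp _ _ _
  · have hmix : ∀ p ∈ S, ∀ z, Disjoint (P p) (comp Q (Z z \ US) (hub z)) := by
      intro p hp z
      refine disjoint_left.2 fun x hx hx' => ?_
      exact (mem_sdiff.1 (comp_subset hx')).2 (hPU p hp hx)
    rintro (p | z) hi (p' | z') hj hne
    · exact hPd p p' fun e => hne (e ▸ rfl)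
    · exact hmix p (inl_mem_disjSum.1 hi) z'
    · exact (hmix p' (inl_mem_disjSum.1 hj) z).symm
    · refine (hZ z z' fun e => hne (e ▸ rfl)).mono ?_ ?_
      · exact comp_subset.trans sdiff_subset
      · exact comp_subset.trans sdiff_subset
  · rw [card_disjSum]
    have h1 : madD t * (S.card + Zs.card) ≤ madD t * (S.card + Fintype.card β) :=
      Nat.mul_le_mul_left _ (by omega)
    refine h1.trans (le_trans (show _ ≤ (E'.disjSum E').card by rw [card_disjSum]; omega) ?_)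
    let f : (α × β) ⊕ (α × β) → (α ⊕ β) × (α ⊕ β) :=
      Sum.elim (fun e => (Sum.inl e.1, Sum.inr e.2)) fun e => (Sum.inr e.2, Sum.inl e.1)
    refine card_le_card_of_injOn f ?_ ?_
    · rintro (e | e) he
      · have he' := inl_mem_disjSum.1 (mem_coe.1 he)
        simp only [mem_coe, mem_filter]
        refine ⟨mem_product.2 ⟨?_, ?_⟩, ?_, ?_⟩
        · exact inl_mem_disjSum.2 (hS e (mem_filter.1 he').1)
        · exact inr_mem_disjSum.2 (mem_image_of_mem _ he')
        · exact Sum.inl_ne_inr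
        · exact htouch e he'
      · have he' := inr_mem_disjSum.1 (mem_coe.1 he)
        simp only [mem_coe, mem_filter]
        refine ⟨mem_product.2 ⟨?_, ?_⟩, ?_, ?_⟩
        · exact inr_mem_disjSum.2 (mem_image_of_mem _ he')
        · exact inl_mem_disjSum.2 (hS e (mem_filter.1 he').1)
        · exact Sum.inr_ne_inl
        · exact (htouch e he').symm
    · rintro (e | e) _ (e' | e') _ h
      · simp only [f, Sum.elim_inl, Prod.mk.injEq, Sum.inl.injEq, Sum.inr.injEq] at h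
        rw [Prod.ext h.1 h.2]
      · simp [f] at h
      · simp [f] at h
      · simp only [f, Sum.elim_inr, Prod.mk.injEq, Sum.inl.injEq, Sum.inr.injEq] at h
        rw [Prod.ext h.2 h.1]

theorem fan_minor (Q : SimpleGraph V) (t r m : ℕ) (hr : 1 ≤ r) (hm : 1 ≤ m)
    (P : Fin (8 * r * m) → Finset V) (hP : ∀ i, (P i).Nonempty ∧ Conn Q (P i))
    (hPd : ∀ i j, i ≠ j → Disjoint (P i) (P j))
    (Z : Fin m → Finset V) (hZ : ∀ y z, y ≠ z → Disjoint (Z y) (Z z)) (hub : Fin m → V)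
    (E : Finset (Fin (8 * r * m) × Fin m)) (T : Fin (8 * r * m) × Fin m → Finset V)
    (hT : ∀ e ∈ E, T e ⊆ Z e.2 ∧ Conn Q (T e) ∧ (T e).card ≤ r + 1 ∧ hub e.2 ∈ T e ∧
      ¬ Disjoint (T e) (P e.1))
    (hE : 2 * madD t * (8 * r * m) ≤ E.card) : KMinor Q t := by
  let T' : Fin (8 * r * m) × Fin m → Finset (Fin (8 * r * m)) := fun e =>
    univ.filter fun p => p ≠ e.1 ∧ ¬ Disjoint (T e) (P p)
  have hT' : ∀ e ∈ E, e.1 ∉ T' e ∧ (T' e).card ≤ r := by
    intro e he
    refine ⟨fun h => (mem_filter.1 h).2.1 rfl, ?_⟩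
    convert SFan_card P hPd (T e) r (hT e he).2.2.1 e.1 (hT e he).2.2.2.2
  obtain ⟨col, hcol⟩ := exists_colouring (2 * r) (by omega) E Prod.fst T' r hT'
  set good := E.filter fun e => ¬ ∃ p ∈ T' e, col p = col e.1 with hgood
  have hgc : E.card ≤ 2 * good.card := by
    have h1 : (E.filter fun e => ∃ p ∈ T' e, col p = col e.1).card + good.card = E.card :=
      card_filter_add_card_filter_not _
    have h2 : r * (2 * (E.filter fun e => ∃ p ∈ T' e, col p = col e.1).card) ≤ r * E.card := by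
      rw [← mul_assoc, mul_comm r 2]
      convert hcol
    have h3 := Nat.le_of_mul_le_mul_left h2 (by omega)
    omega
  have ha : ∑ g, (good.filter fun e => col e.1 = g).card = good.card :=
    (card_eq_sum_card_fiberwise (f := fun e => col e.1) (s := good) (t := univ)
      fun _ _ => mem_coe.2 (mem_univ _)).symm
  have hb : ∑ g, (univ.filter fun p => col p = g).card = 8 * r * m := by
    rw [← card_eq_sum_card_fiberwise (f := col) (s := univ) (t := univ)
      fun _ _ => mem_coe.2 (mem_univ _)]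
    simp
  obtain ⟨g, hg⟩ := SFan_pigeon t r m hr hm (fun g => (good.filter fun e => col e.1 = g).card)
    (fun g => (univ.filter fun p => col p = g).card) (by rw [ha]; omega) hb
  refine SFan_colour Q t P hP hPd Z hZ hub (univ.filter fun p => col p = g)
    (good.filter fun e => col e.1 = g) T ?_ ?_ ?_ ?_
  · intro e he
    have h := hT e (mem_filter.1 (mem_filter.1 he).1).1
    exact ⟨h.1, h.2.1, h.2.2.2.1, h.2.2.2.2⟩
  · intro e he
    exact mem_filter.2 ⟨mem_univ _, (mem_filter.1 he).2⟩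
  · intro e he p hp hd
    by_contra hne
    obtain ⟨h1, h2⟩ := mem_filter.1 he
    refine (mem_filter.1 h1).2 ⟨p, mem_filter.2 ⟨mem_univ _, hne, hd⟩, ?_⟩
    rw [h2, (mem_filter.1 hp).2]
  · rw [Fintype.card_fin]
    exact hg

end Pool.Agent.MP_d3be90_lc

end

section

set_option autoImplicit false

open Finset
open scoped Classical

namespace Pool.Agent.MP_d3be90_lc

variable {V : Type}

lemma SLayer_near_trans [Fintype V] {Q : SimpleGraph V} {A : Finset V} {D k : ℕ} {x y : V}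
    (h : Near Q A D x) (h' : Reach Q (fun _ _ => 1) univ x y k) : Near Q A (D + k) y := by
  obtain ⟨a, ha, e⟩ := h
  exact ⟨a, ha, e.trans h'⟩

lemma SLayer_near_mono [Fintype V] {Q : SimpleGraph V} {A : Finset V} {D D' : ℕ} {x : V}
    (h : Near Q A D x) (h' : D ≤ D') : Near Q A D' x := by
  obtain ⟨a, ha, e⟩ := h
  exact ⟨a, ha, e.mono h'⟩

/-- the distance from `A` -/
noncomputable def SLayer_f [Fintype V] (Q : SimpleGraph V) (A : Finset V) (y : V) : ℕ :=
  sInf {D | Near Q A D y}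

lemma SLayer_f_le [Fintype V] {Q : SimpleGraph V} {A : Finset V} {D : ℕ} {y : V}
    (h : Near Q A D y) : SLayer_f Q A y ≤ D := Nat.sInf_le h

lemma SLayer_f_near [Fintype V] {Q : SimpleGraph V} {A : Finset V} {y : V}
    (h : ∃ D, Near Q A D y) : Near Q A (SLayer_f Q A y) y :=
  Nat.sInf_mem (s := {D | Near Q A D y}) h

lemma SLayer_f_reach [Fintype V] {Q : SimpleGraph V} {A : Finset V} {x y : V} {k : ℕ}
    (h : ∃ D, Near Q A D x) (h' : Reach Q (fun _ _ => 1) univ x y k) :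
    (∃ D, Near Q A D y) ∧ SLayer_f Q A y ≤ SLayer_f Q A x + k ∧
      SLayer_f Q A x ≤ SLayer_f Q A y + k := by
  have h1 := SLayer_near_trans (SLayer_f_near h) h'
  have h2 : ∃ D, Near Q A D y := ⟨_, h1⟩
  exact ⟨h2, SLayer_f_le h1,
    SLayer_f_le (SLayer_near_trans (SLayer_f_near h2) (h'.symm fun _ _ => rfl))⟩

lemma SLayer_cross [Fintype V] {Q : SimpleGraph V} {A D : Finset V} {a b : V} {L : ℕ}
    (ha : a ∈ A) (hw : WkM Q.Adj D a b) (hb : ¬ Near Q A L b) :
    ∃ x ∈ comp Q D a, (∃ D, Near Q A D x) ∧ SLayer_f Q A x = L ∧ ∃ x', Q.Adj x x' := by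
  have key : (∃ D, Near Q A D b) ∧ (SLayer_f Q A b ≤ L ∨
      ∃ x ∈ comp Q D a, (∃ D, Near Q A D x) ∧ SLayer_f Q A x = L ∧ ∃ x', Q.Adj x x') := by
    refine hw.ind (P := fun b => (∃ D, Near Q A D b) ∧ (SLayer_f Q A b ≤ L ∨
      ∃ x ∈ comp Q D a, (∃ D, Near Q A D x) ∧ SLayer_f Q A x = L ∧ ∃ x', Q.Adj x x')) ?_ ?_
    · have h0 : Near Q A 0 a := ⟨a, ha, Reach.base _ (mem_univ _)⟩
      exact ⟨⟨0, h0⟩, Or.inl ((SLayer_f_le h0).trans (Nat.zero_le _))⟩
    · rintro x y hx hxy - ⟨h1, h2⟩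
      have h3 := SLayer_f_reach h1
        (Reach.single (G := Q) (l := fun _ _ => 1) (mem_univ x) hxy (mem_univ y))
      refine ⟨h3.1, ?_⟩
      rcases h2 with h2 | h2
      · by_cases hy : SLayer_f Q A y ≤ L
        · exact Or.inl hy
        · refine Or.inr ⟨x, mem_comp.2 hx, h1, ?_, y, hxy⟩
          have := h3.2.1
          omega
      · exact Or.inr h2
  rcases key with ⟨h1, h2 | h2⟩
  · exact absurd (SLayer_near_mono (SLayer_f_near h1) h2) hb
  · exact h2

lemma SLayer_tree [Fintype V] {Q : SimpleGraph V} {Hub : Finset V} {rk : V → ℕ} {r : ℕ}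
    (hhub : ∀ y z, Q.Adj y z → rk y < r ∧ (y ∈ Hub ∨ ∃ y', Q.Adj y y' ∧ rk y' < rk y)) (n : ℕ) :
    ∀ y, rk y ≤ n → (∃ z, Q.Adj y z) → ∃ T : Finset V, Conn Q T ∧ T.card ≤ n + 1 ∧ y ∈ T ∧
      (∃ h ∈ Hub, h ∈ T) ∧ ∀ z ∈ T, Reach Q (fun _ _ => 1) univ y z n := by
  have hs : ∀ n y, y ∈ Hub → ∃ T : Finset V, Conn Q T ∧ T.card ≤ n + 1 ∧ y ∈ T ∧
      (∃ h ∈ Hub, h ∈ T) ∧ ∀ z ∈ T, Reach Q (fun _ _ => 1) univ y z n := by
    intro n y hy
    refine ⟨{y}, conn_singleton _ _, by simp, mem_singleton_self _,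
      ⟨y, hy, mem_singleton_self _⟩, fun z hz => ?_⟩
    rw [mem_singleton.1 hz]
    exact Reach.base _ (mem_univ _)
  induction n with
  | zero =>
    rintro y hy ⟨z, hz⟩
    rcases (hhub y z hz).2 with h | ⟨y', -, h⟩
    · exact hs 0 y h
    · omega
  | succ n ih =>
    rintro y hy ⟨z, hz⟩
    rcases (hhub y z hz).2 with h | ⟨y', hy', h⟩
    · exact hs _ y h
    · obtain ⟨T, h1, h2, h3, ⟨h0, h4, h5⟩, h6⟩ := ih y' (by omega) ⟨y, hy'.symm⟩
      refine ⟨{y} ∪ T, (conn_singleton _ _).union_of_touch h1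
        ⟨y, mem_singleton_self _, y', h3, hy'⟩, ?_, mem_union_left _ (mem_singleton_self _),
        ⟨h0, h4, mem_union_right _ h5⟩, fun w hw => ?_⟩
      · have := card_union_le {y} T
        rw [card_singleton] at this
        omega
      · rcases mem_union.1 hw with hw | hw
        · rw [mem_singleton.1 hw]
          exact Reach.base _ (mem_univ _)
        · rw [add_comm]
          exact (Reach.single (G := Q) (l := fun _ _ => 1) (mem_univ y) hy' (mem_univ y')).trans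
            (h6 w hw)

lemma SLayer_good (m N : ℕ) (hm : 1 ≤ m) (n : ℕ → ℕ) (hn : ∑ z ∈ range (2 * m), n z ≤ N) :
    ∃ g : Fin m → ℕ, Function.Injective g ∧ ∀ j, g j < 2 * m ∧ n (g j) * m ≤ N := by
  have h1 : m ≤ ((range (2 * m)).filter fun z => n z * m ≤ N).card := by
    by_contra hc
    have h2 := card_filter_add_card_filter_not (s := range (2 * m)) (fun z => n z * m ≤ N)
    rw [card_range] at h2
    set B := (range (2 * m)).filter fun z => ¬ n z * m ≤ N with hB
    have h3 : B.card * (N + 1) ≤ ∑ z ∈ B, n z * m := by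
      have := card_nsmul_le_sum B (fun z => n z * m) (N + 1) fun z hz => by
        have := (mem_filter.1 hz).2
        omega
      simpa using this
    have h4 : ∑ z ∈ B, n z ≤ N :=
      (sum_le_sum_of_subset (filter_subset _ _)).trans hn
    rw [← sum_mul] at h3
    have h5 : (∑ z ∈ B, n z) * m ≤ N * m := Nat.mul_le_mul_right _ h4
    have h6 : m * (N + 1) ≤ B.card * (N + 1) := Nat.mul_le_mul_right _ (by omega)
    nlinarith
  obtain ⟨f⟩ : Nonempty (Fin m ↪ ↥((range (2 * m)).filter fun z => n z * m ≤ N)) :=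
    Function.Embedding.nonempty_of_card_le (by rwa [Fintype.card_fin, Fintype.card_coe])
  exact ⟨fun j => f j, fun i j e => f.injective (Subtype.ext e), fun j =>
    ⟨mem_range.1 (mem_filter.1 (f j).2).1, (mem_filter.1 (f j).2).2⟩⟩

lemma SLayer_popular {k : ℕ} (hk : 1 ≤ k) (S : Finset V) (h : Fin k → V) (hS : ∀ i, h i ∈ S) :
    ∃ v, k ≤ S.card * (univ.filter fun i => h i = v).card := by
  obtain ⟨v, -, hv⟩ := exists_max_image S (fun v => (univ.filter fun i => h i = v).card)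
    ⟨h ⟨0, hk⟩, hS _⟩
  refine ⟨v, ?_⟩
  have h1 := card_eq_sum_card_fiberwise (s := univ) (t := S) (f := h) fun i _ => hS i
  rw [card_univ, Fintype.card_fin] at h1
  have h2 := sum_le_card_nsmul S _ _ hv
  rw [smul_eq_mul] at h2
  exact h1.le.trans h2

theorem layer [Fintype V] (Q : SimpleGraph V) (t : ℕ) (hQ : ¬ KMinor Q t) (Hub : Finset V)
    (rk : V → ℕ) (r N m : ℕ) (hr : 1 ≤ r) (hm : 1 ≤ m) (hN : Hub.card ≤ N)
    (hhub : ∀ y z, Q.Adj y z → rk y < r ∧ (y ∈ Hub ∨ ∃ y', Q.Adj y y' ∧ rk y' < rk y))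
    (hmN : 2 * madD t * N ≤ m ^ 2) (A : Finset V) :
    ∃ Z : Finset V, Z.card ≤ 8 * r * m ∧
      ∀ a ∈ A, ∀ y, WkM Q.Adj Zᶜ a y → Near Q A (6 * r * m) y := by
  by_contra hc
  push Not at hc
  obtain ⟨a, b, D, h1, h2⟩ := menger_aux (8 * r * m)
    (univ.filter fun p : V × V => Q.Adj p.1 p.2) A (univ.filter fun y => ¬ Near Q A (6 * r * m) y)
    fun S hS => by
      obtain ⟨a, ha, y, h1, h2⟩ := hc S hS.le
      exact ⟨a, ha, y, mem_filter.2 ⟨mem_univ _, h2⟩,
        h1.mono (fun x y e => mem_filter.2 ⟨mem_univ _, e⟩) Subset.rfl⟩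
  have hw : ∀ i, WkM Q.Adj (D i) (a i) (b i) := fun i =>
    (h1 i).2.2.mono (fun x y e => (mem_filter.1 e).2) Subset.rfl
  have hk : 1 ≤ 8 * r * m := by nlinarith
  set Zn : ℕ → Finset V := fun z => univ.filter fun y =>
    z * (2 * r + 1) ≤ SLayer_f Q A y ∧ SLayer_f Q A y ≤ z * (2 * r + 1) + 2 * r with hZn
  have hZd : ∀ y z, y ≠ z → Disjoint (Zn y) (Zn z) := by
    have aux : ∀ y z, y < z → Disjoint (Zn y) (Zn z) := fun y z hyz =>
      disjoint_left.2 fun v hv hv' => by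
        have p1 := (mem_filter.1 hv).2.2
        have p2 := (mem_filter.1 hv').2.1
        have p3 : (y + 1) * (2 * r + 1) ≤ z * (2 * r + 1) := Nat.mul_le_mul_right _ hyz
        rw [add_mul, one_mul] at p3
        omega
    intro y z hyz
    rcases lt_or_gt_of_ne hyz with e | e
    · exact aux y z e
    · exact (aux z y e).symm
  have hT : ∀ (i : Fin (8 * r * m)) (z : ℕ), z < 2 * m → ∃ (T : Finset V) (h : V),
      T ⊆ Zn z ∧ Conn Q T ∧ T.card ≤ r + 1 ∧ h ∈ Hub ∧ h ∈ T ∧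
        ¬ Disjoint T (comp Q (D i) (a i)) := by
    intro i z hz
    have hL : z * (2 * r + 1) + r ≤ 6 * r * m := by
      have p3 : (z + 1) * (2 * r + 1) ≤ 2 * m * (2 * r + 1) := Nat.mul_le_mul_right _ hz
      have p4 : 1 * m ≤ r * m := Nat.mul_le_mul_right _ hr
      nlinarith
    obtain ⟨x, hx, q1, q2, q3⟩ := SLayer_cross (L := z * (2 * r + 1) + r) (h1 i).1 (hw i)
      fun e => (mem_filter.1 (h1 i).2.1).2 (SLayer_near_mono e hL)
    obtain ⟨T, t1, t2, t3, ⟨h, t4, t5⟩, t6⟩ := SLayer_tree hhub r x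
      (by obtain ⟨x', e⟩ := q3; exact (hhub x x' e).1.le) q3
    refine ⟨T, h, fun w hw => ?_, t1, t2, t4, t5, fun e => disjoint_left.1 e t3 hx⟩
    obtain ⟨-, p1, p2⟩ := SLayer_f_reach q1 (t6 w hw)
    refine mem_filter.2 ⟨mem_univ _, ?_, ?_⟩ <;> omega
  have hsum : ∑ z ∈ range (2 * m), (Hub ∩ Zn z).card ≤ N := by
    rw [← card_biUnion fun y _ z _ hyz =>
      (hZd y z hyz).mono inter_subset_right inter_subset_right]
    exact (card_le_card (biUnion_subset.2 fun z _ => inter_subset_left)).trans hN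
  obtain ⟨g, hg, hg'⟩ := SLayer_good m N hm (fun z => (Hub ∩ Zn z).card) hsum
  choose T h t1 t2 t3 t4 t5 t6 using fun (i : Fin (8 * r * m)) (j : Fin m) =>
    hT i (g j) (hg' j).1
  choose H hH using fun j : Fin m => SLayer_popular hk (Hub ∩ Zn (g j)) (fun i => h i j)
    fun i => mem_inter.2 ⟨t4 i j, t1 i j (t5 i j)⟩
  have hN1 : 1 ≤ N := (card_pos.2 ⟨_, t4 ⟨0, hk⟩ ⟨0, hm⟩⟩).trans_le hN
  refine hQ (fan_minor Q t r m hr hm (fun i => comp Q (D i) (a i))
    (fun i => ⟨⟨a i, mem_comp.2 (WkM.refl (hw i).1)⟩, conn_comp _ _ _⟩)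
    (fun i j hij => (h2 i j hij).mono comp_subset comp_subset) (fun j => Zn (g j))
    (fun y z hyz => hZd _ _ (hg.ne hyz)) H (univ.filter fun e => h e.1 e.2 = H e.2)
    (fun e => T e.1 e.2) (fun e he => ⟨t1 _ _, t2 _ _, t3 _ _, ?_, t6 _ _⟩) ?_)
  · rw [← (mem_filter.1 he).2]
    exact t5 _ _
  · have e1 : (univ.filter fun e : Fin (8 * r * m) × Fin m => h e.1 e.2 = H e.2).card =
        ∑ j : Fin m, (univ.filter fun i => h i j = H j).card := by
      simp only [card_filter]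
      exact Fintype.sum_prod_type_right _
    have e2 : ∀ j : Fin m, 8 * r * m * m ≤ (univ.filter fun i => h i j = H j).card * N := by
      intro j
      have p1 := Nat.mul_le_mul_right m (hH j)
      have p2 := Nat.mul_le_mul_left (univ.filter fun i => h i j = H j).card (hg' j).2
      calc 8 * r * m * m ≤ _ := p1
        _ = (univ.filter fun i => h i j = H j).card * ((Hub ∩ Zn (g j)).card * m) := by ring
        _ ≤ _ := p2
    have e3 : m * (8 * r * m * m) ≤ (∑ j : Fin m, (univ.filter fun i => h i j = H j).card) * N := by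
      rw [sum_mul]
      have := card_nsmul_le_sum univ _ _ fun j _ => e2 j
      rwa [card_univ, Fintype.card_fin, smul_eq_mul] at this
    rw [e1]
    refine Nat.le_of_mul_le_mul_right ?_ hN1
    calc 2 * madD t * (8 * r * m) * N = 8 * r * m * (2 * madD t * N) := by ring
      _ ≤ 8 * r * m * m ^ 2 := Nat.mul_le_mul_left _ hmN
      _ = m * (8 * r * m * m) := by ring
      _ ≤ _ := e3

end Pool.Agent.MP_d3be90_lc

end

section

set_option autoImplicit false

open Finset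
open scoped Classical

namespace Pool.Agent.MP_d3be90_lc

variable {V : Type}

/-- the quotient graph on the centres -/
def SDichQ (G : SimpleGraph V) (W : Finset V) (ctr : V → V) : SimpleGraph V :=
  SimpleGraph.fromRel fun a b => ∃ x ∈ W, ∃ y ∈ W, ctr x = a ∧ ctr y = b ∧ G.Adj x y

lemma SDich_adj {G : SimpleGraph V} {W : Finset V} {ctr : V → V} {a b : V} :
    (SDichQ G W ctr).Adj a b ↔
      a ≠ b ∧ ∃ x ∈ W, ∃ y ∈ W, ctr x = a ∧ ctr y = b ∧ G.Adj x y := by
  rw [SDichQ, SimpleGraph.fromRel_adj]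
  refine and_congr_right fun _ => ⟨fun h => h.elim id ?_, Or.inl⟩
  rintro ⟨x, hx, y, hy, h1, h2, h3⟩
  exact ⟨y, hy, x, hx, h2, h1, h3.symm⟩

/-- the union of the classes with centre in `X` -/
noncomputable def SDichL (W : Finset V) (ctr : V → V) (X : Finset V) : Finset V :=
  W.filter fun x => ctr x ∈ X

lemma SDich_mem {W X : Finset V} {ctr : V → V} {x : V} :
    x ∈ SDichL W ctr X ↔ x ∈ W ∧ ctr x ∈ X := mem_filter

lemma SDich_same {G : SimpleGraph V} {W X : Finset V} {ctr : V → V}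
    (hc : ∀ x ∈ W, Conn G (cls W ctr x)) {x y : V} (hx : x ∈ W) (hy : y ∈ W)
    (e : ctr y = ctr x) (hX : ctr x ∈ X) : WkM G.Adj (SDichL W ctr X) x y :=
  (hc x hx x (mem_cls.2 ⟨hx, rfl⟩) y (mem_cls.2 ⟨hy, e⟩)).monoD fun z hz =>
    SDich_mem.2 ⟨(mem_cls.1 hz).1, (mem_cls.1 hz).2 ▸ hX⟩

lemma SDich_conn {G : SimpleGraph V} {W X : Finset V} {ctr : V → V}
    (hc : ∀ x ∈ W, Conn G (cls W ctr x)) (hX : Conn (SDichQ G W ctr) X) :
    Conn G (SDichL W ctr X) := by
  intro x hx y hy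
  obtain ⟨hx1, hx2⟩ := SDich_mem.1 hx
  obtain ⟨hy1, hy2⟩ := SDich_mem.1 hy
  refine (hX _ hx2 _ hy2).ind
    (P := fun z => ∀ y ∈ W, ctr y = z → WkM G.Adj (SDichL W ctr X) x y) ?_ ?_ y hy1 rfl
  · exact fun y hy e => SDich_same hc hx1 hy e hx2
  · intro a b _ hab hb ih y hy e
    obtain ⟨-, x', hx', y', hy', e1, e2, h3⟩ := SDich_adj.1 hab
    exact ((ih x' hx' e1).tail h3 (SDich_mem.2 ⟨hy', e2 ▸ hb⟩)).trans
      (SDich_same hc hy' hy (e.trans e2.symm) (e2 ▸ hb))

lemma SDich_minor {G : SimpleGraph V} {W : Finset V} {ctr : V → V}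
    (hc : ∀ x ∈ W, Conn G (cls W ctr x)) {t : ℕ} (ht : 2 ≤ t)
    (h : KMinor (SDichQ G W ctr) t) : KMinor G t := by
  obtain ⟨B, -, h2, h3⟩ := h
  have ht' : ∀ i j, i ≠ j → Touch G (SDichL W ctr (B i)) (SDichL W ctr (B j)) := by
    intro i j hij
    obtain ⟨a, ha, b, hb, hab⟩ := (h3 i j hij).2
    obtain ⟨-, x, hx, y, hy, e1, e2, h⟩ := SDich_adj.1 hab
    exact ⟨x, SDich_mem.2 ⟨hx, e1 ▸ ha⟩, y, SDich_mem.2 ⟨hy, e2 ▸ hb⟩, h⟩
  haveI : Nontrivial (Fin t) := Fin.nontrivial_iff_two_le.2 ht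
  refine ⟨fun i => SDichL W ctr (B i), fun i => ?_, fun i => SDich_conn hc (h2 i),
    fun i j hij => ⟨?_, ht' i j hij⟩⟩
  · obtain ⟨j, hj⟩ := exists_ne i
    obtain ⟨x, hx, -⟩ := ht' i j hj.symm
    exact ⟨x, hx⟩
  · exact disjoint_left.2 fun x hx hx' =>
      disjoint_left.1 (h3 i j hij).1 (SDich_mem.1 hx).2 (SDich_mem.1 hx').2

lemma SDich_proj [Fintype V] {G : SimpleGraph V} {W S Z : Finset V} {ctr : V → V}
    (hS : ∀ x ∈ S, x ∈ W ∧ ctr x ∉ Z) {x y : V} (h : WkM G.Adj S x y) :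
    WkM (SDichQ G W ctr).Adj Zᶜ (ctr x) (ctr y) := by
  refine h.ind (P := fun z => WkM (SDichQ G W ctr).Adj Zᶜ (ctr x) (ctr z))
    (WkM.refl (mem_compl.2 (hS x h.1).2)) ?_
  intro a b ha hab hb ih
  by_cases e : ctr a = ctr b
  · exact e ▸ ih
  · exact ih.tail (SDich_adj.2 ⟨e, a, (hS a ha.last).1, b, (hS b hb).1, rfl, rfl, hab⟩)
      (mem_compl.2 (hS b hb).2)

lemma SDich_cost {G : SimpleGraph V} {c ρ : V → V → ℝ} {W : Finset V} {τ : ℝ} (hτ : 0 ≤ τ)
    {u0 r : ℕ} {ctr : V → V} {rk : V → ℕ} {Hub : Finset V}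
    (hU : Units G c ρ W W τ u0 r ctr rk Hub) (X : Finset V) (q : ℕ) (hq : X.card ≤ q) :
    SDichL W ctr X ⊆ W ∧ (∀ x ∈ W, ∀ y ∈ SDichL W ctr X, ctr x = ctr y → x ∈ SDichL W ctr X) ∧
      (∀ y ∈ SDichL W ctr X, 2 * (cls W ctr y).card ≤ u0) ∧
      ((SDichL W ctr X).image ctr).card ≤ q ∧
      ∑ y ∈ SDichL W ctr X, ∑ x ∈ W, (if ctr x = ctr y then 0 else c y x * ρ y (ctr y)) ≤
        q * τ := by
  have hcard : ((SDichL W ctr X).image ctr).card ≤ q := by
    refine le_trans (card_le_card fun b hb => ?_) hq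
    obtain ⟨y, hy, rfl⟩ := mem_image.1 hb
    exact (SDich_mem.1 hy).2
  refine ⟨filter_subset _ _, fun x hx y hy e => SDich_mem.2 ⟨hx, e ▸ (SDich_mem.1 hy).2⟩,
    fun y hy => hU.light y (SDich_mem.1 hy).1, hcard, ?_⟩
  rw [← sum_fiberwise_of_maps_to (g := ctr) (t := (SDichL W ctr X).image ctr)
    fun y hy => mem_image_of_mem ctr hy]
  refine le_trans (sum_le_card_nsmul _ _ τ fun b hb => ?_) ?_
  · obtain ⟨x0, hx0, rfl⟩ := mem_image.1 hb
    obtain ⟨h1, h2⟩ := SDich_mem.1 hx0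
    have e : (SDichL W ctr X).filter (fun y => ctr y = ctr x0) = cls W ctr x0 := by
      ext y
      rw [mem_filter, SDich_mem, mem_cls]
      exact ⟨fun h => ⟨h.1.1, h.2⟩, fun h => ⟨⟨h.1, h.2 ▸ h2⟩, h.2⟩⟩
    rw [e]
    refine le_trans (le_of_eq (sum_congr rfl fun y hy => ?_)) (hU.cheap x0 h1)
    have e2 : W \ cls W ctr x0 = W.filter fun x => ¬ ctr x = ctr y := by
      ext z
      rw [mem_sdiff, mem_filter, mem_cls, (mem_cls.1 hy).2]
      tauto
    rw [e2, sum_filter]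
    exact sum_congr rfl fun x _ => by rw [ite_not]
  · rw [nsmul_eq_mul]
    exact mul_le_mul_of_nonneg_right (Nat.cast_le.2 hcard) hτ

theorem cover_of_units [Fintype V] {G : SimpleGraph V} {c ρ : V → V → ℝ} {l : V → V → ℕ}
    (hN : Net G c l ρ) (t : ℕ) (ht : 2 ≤ t) (hG : ¬ KMinor G t) (W : Finset V) (hW : W.Nonempty)
    (τ : ℝ) (hτ : 0 ≤ τ) (u0 r N m : ℕ) (ctr : V → V) (rk : V → ℕ) (Hub : Finset V)
    (hU : Units G c ρ W W τ u0 r ctr rk Hub) (hH : Hub.card ≤ N) (hr : 1 ≤ r) (hm : 1 ≤ m)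
    (hmN : 2 * madD t * N ≤ m ^ 2) :
    Cover G c ρ W τ u0 (8 * (t + 1) * r * m) t := by
  intro I A hA
  have hQ : ¬ KMinor (SDichQ G W ctr) t := fun h => hG (SDich_minor hU.conn ht h)
  have hhub : ∀ y z, (SDichQ G W ctr).Adj y z →
      rk y < r ∧ (y ∈ Hub ∨ ∃ y', (SDichQ G W ctr).Adj y y' ∧ rk y' < rk y) := by
    intro y z hyz
    obtain ⟨-, x, hx, -, -, rfl, -, -⟩ := SDich_adj.1 hyz
    refine ⟨hU.rk_lt x hx, (hU.hub x hx).imp id ?_⟩
    rintro ⟨x', hx', y', hy', e, h1, h2⟩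
    exact ⟨ctr y', SDich_adj.2 ⟨fun e' => by rw [e'] at h2; exact lt_irrefl _ h2,
      x', hx', y', hy', e, rfl, h1⟩, h2⟩
  choose Z hZ1 hZ2 using fun i : Fin t =>
    layer (SDichQ G W ctr) t hQ Hub rk r N m hr hm hH hhub hmN ((A i).image ctr)
  have hI : I.card ≤ t := by simpa using card_le_univ I
  have hrm : 1 ≤ r * m := Nat.mul_pos hr hm
  by_cases hc : ∃ x0 ∈ W, ∀ i ∈ I, Near (SDichQ G W ctr) ((A i).image ctr) (6 * r * m) (ctr x0)
  · obtain ⟨x0, hx0, hc⟩ := hc
    have hX : ∀ i : Fin t, ∃ X : Finset V, X.card ≤ 6 * r * m + 1 ∧ (i ∈ I →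
        ctr x0 ∈ X ∧ Conn (SDichQ G W ctr) X ∧ ∃ a ∈ A i, ctr a ∈ X) := by
      intro i
      by_cases hi : i ∈ I
      · obtain ⟨a, ha, h⟩ := hc i hi
        obtain ⟨X, -, h1, h2, h3, h4⟩ := h.exists_set
        obtain ⟨a0, ha0, rfl⟩ := mem_image.1 ha
        exact ⟨X, h3, fun _ => ⟨h2, h4, a0, ha0, h1⟩⟩
      · exact ⟨∅, by simp, fun h => absurd h hi⟩
    choose X hX1 hX2 using hX
    have hcard : (insert (ctr x0) (I.biUnion X)).card ≤ 8 * (t + 1) * r * m := by
      have h1 := card_insert_le (ctr x0) (I.biUnion X)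
      have h2 : (I.biUnion X).card ≤ t * (6 * r * m + 1) :=
        (card_biUnion_le_card_mul _ _ _ fun i _ => hX1 i).trans (Nat.mul_le_mul_right _ hI)
      have h3 : t ≤ t * (r * m) := Nat.le_mul_of_pos_right _ hrm
      nlinarith
    obtain ⟨k1, k2, k3, k4, k5⟩ := SDich_cost hτ hU _ _ hcard
    refine ⟨_, ctr, k1, k2, k3, k4, k5, Or.inl ⟨⟨x0, SDich_mem.2 ⟨hx0, mem_insert_self _ _⟩⟩,
      SDich_conn hU.conn (conn_of_root (a := ctr x0) fun z hz => ?_), fun i hi hd => ?_⟩⟩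
    · rcases mem_insert.1 hz with rfl | hz
      · exact WkM.refl (mem_insert_self _ _)
      · obtain ⟨i, hi, hz⟩ := mem_biUnion.1 hz
        exact ((hX2 i hi).2.1 _ (hX2 i hi).1 z hz).monoD
          ((subset_biUnion_of_mem X hi).trans (subset_insert _ _))
    · obtain ⟨a, ha, h⟩ := (hX2 i hi).2.2
      exact disjoint_left.1 hd
        (SDich_mem.2 ⟨hA i hi ha, mem_insert_of_mem (mem_biUnion.2 ⟨i, hi, h⟩)⟩) ha
  · have hcard : (I.biUnion Z).card ≤ 8 * (t + 1) * r * m := by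
      have h2 : (I.biUnion Z).card ≤ t * (8 * r * m) :=
        (card_biUnion_le_card_mul _ _ _ fun i _ => hZ1 i).trans (Nat.mul_le_mul_right _ hI)
      nlinarith
    obtain ⟨k1, k2, k3, k4, k5⟩ := SDich_cost hτ hU _ _ hcard
    refine ⟨_, ctr, k1, k2, k3, k4, k5, Or.inr fun S hS ⟨x0, hx0⟩ hSc => ?_⟩
    by_contra hn
    refine hc ⟨x0, (mem_sdiff.1 (hS hx0)).1, fun i hi => ?_⟩
    obtain ⟨a, ha1, ha2⟩ := not_disjoint_iff.1 fun h => hn ⟨i, hi, h⟩
    refine hZ2 i _ (mem_image_of_mem ctr ha2) _ (SDich_proj (fun x hx => ?_) (hSc a ha1 x0 hx0))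
    obtain ⟨h1, h2⟩ := mem_sdiff.1 (hS hx)
    exact ⟨h1, fun h => h2 (SDich_mem.2 ⟨h1, mem_biUnion.2 ⟨i, hi, h⟩⟩)⟩

end Pool.Agent.MP_d3be90_lc

end

section

set_option autoImplicit false

open Finset
open scoped Classical

namespace Pool.Agent.MP_d3be90_lc

variable {V : Type}

/-- the state of the separator loop inside `U` -/
structure State (G : SimpleGraph V) (c ρ : V → V → ℝ) (U : Finset V) (τ : ℝ) (q t : ℕ)
    (W : Finset V) (I : Finset (Fin t)) (B P : Fin t → Finset V) (π : Fin t → V → V) : Prop where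
  sub : W ⊆ U
  heavy : U.card < 2 * W.card
  conn : Conn G W
  bne : ∀ i ∈ I, (B i).Nonempty
  bconn : ∀ i ∈ I, Conn G (B i)
  bW : ∀ i ∈ I, Disjoint (B i) W
  bpair : ∀ i ∈ I, ∀ j ∈ I, i ≠ j → Disjoint (B i) (B j) ∧ Touch G (B i) (B j)
  edge : ∀ x ∈ W, ∀ y ∈ U \ W, G.Adj x y → ∃ i ∈ I, y ∈ B i
  pcard : ∀ i ∈ I, (P i).card ≤ q
  pmem : ∀ i ∈ I, ∀ y ∈ B i, ∀ x ∈ W, G.Adj y x → π i y ∈ P i
  pcost : ∀ i ∈ I, ∑ y ∈ B i, ∑ x ∈ W, c y x * ρ y (π i y) ≤ q * τ

/-- a union `M` of at most `q` cheap light units of `W` -/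
structure Marked (c ρ : V → V → ℝ) (W : Finset V) (τ : ℝ) (u0 q : ℕ) (M : Finset V)
    (ctr : V → V) : Prop where
  sub : M ⊆ W
  closed : ∀ x ∈ W, ∀ y ∈ M, ctr x = ctr y → x ∈ M
  light : ∀ y ∈ M, 2 * (cls W ctr y).card ≤ u0
  card : (M.image ctr).card ≤ q
  cost : ∑ y ∈ M, ∑ x ∈ W, (if ctr x = ctr y then 0 else c y x * ρ y (ctr y)) ≤ q * τ

/-- the vertices of `W` with a neighbour in `B` -/
noncomputable def att (G : SimpleGraph V) (W B : Finset V) : Finset V :=
  W.filter fun x => ∃ y ∈ B, G.Adj y x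

end Pool.Agent.MP_d3be90_lc

end

section

set_option autoImplicit false

open Finset
open scoped Classical

namespace Pool.Agent.MP_d3be90_lc

variable {V : Type}

theorem State.finish {G : SimpleGraph V} {c ρ : V → V → ℝ} {l : V → V → ℕ} (hN : Net G c l ρ)
    {U : Finset V} {τ : ℝ} (hτ : 0 ≤ τ) {q t : ℕ} {W : Finset V} {I : Finset (Fin t)}
    {B P : Fin t → Finset V} {π : Fin t → V → V} (h : State G c ρ U τ q t W I B P π)
    {M : Finset V} {ctr : V → V} (hM : Marked c ρ W τ U.card q M ctr)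
    (hl : ∀ x ∈ W \ M, 2 * (comp G (W \ M) x).card ≤ U.card) :
    Sep c (fun x y => (l x y : ℝ)) ρ U ((t + 1) * q) (4 * (t + 1) * q * τ) := by
  have ρ0 := hN.ρ_nonneg
  have c0 := hN.c_nonneg
  obtain ⟨por, hpor⟩ : ∃ por : V → V, ∀ i ∈ I, ∀ y ∈ B i, por y = π i y := by
    refine ⟨fun y => if e : ∃ i ∈ I, y ∈ B i then π e.choose y else y, fun i hi y hy => ?_⟩
    have e : ∃ i ∈ I, y ∈ B i := ⟨i, hi, hy⟩
    dsimp only
    rw [dif_pos e]
    by_cases q : e.choose = i
    · rw [q]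
    · exact absurd hy (disjoint_left.1 (h.bpair _ e.choose_spec.1 _ hi q).1 e.choose_spec.2)
  obtain ⟨lab, hlab⟩ : ∃ lab : V → Finset V, lab = fun x =>
      if x ∉ W then U \ W else if x ∈ M then cls W ctr x else comp G (W \ M) x := ⟨_, rfl⟩
  obtain ⟨g, hg⟩ : ∃ g : V → V → ℝ, g = fun u v =>
      if u ∉ W ∧ v ∈ W then c u v * ρ u (por u) else 0 := ⟨_, rfl⟩
  obtain ⟨g', hg'⟩ : ∃ g' : V → V → ℝ, g' = fun u v =>
      if u ∈ M ∧ v ∈ W ∧ ctr v ≠ ctr u then c u v * ρ u (ctr u) else 0 := ⟨_, rfl⟩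
  have g0 : ∀ u v, 0 ≤ g u v := fun u v => by
    rw [hg]; dsimp only; split_ifs
    · exact mul_nonneg (c0 _ _) (ρ0 _ _)
    · exact le_rfl
  have g0' : ∀ u v, 0 ≤ g' u v := fun u v => by
    rw [hg']; dsimp only; split_ifs
    · exact mul_nonneg (c0 _ _) (ρ0 _ _)
    · exact le_rfl
  have l1 : ∀ u, u ∉ W → lab u = U \ W := fun u hu => by rw [hlab]; exact if_pos hu
  have l2 : ∀ u ∈ M, lab u = cls W ctr u := fun u hu => by
    rw [hlab]; dsimp only; rw [if_neg (not_not.2 (hM.sub hu)), if_pos hu]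
  have l3 : ∀ u ∈ W, u ∉ M → lab u = comp G (W \ M) u := fun u hu hu' => by
    rw [hlab]; dsimp only; rw [if_neg (not_not.2 hu), if_neg hu']
  have k1 : ∀ u ∈ M, ∀ v ∈ W, lab u ≠ lab v → ctr v ≠ ctr u := fun u hu v hv e e' =>
    e (by rw [l2 u hu, l2 v (hM.closed v hv u hu e'), cls, cls, e'])
  have k2 : ∀ u ∈ W, u ∉ M → ∀ v ∈ W, lab u ≠ lab v → G.Adj u v → v ∈ M :=
    fun u hu hu' v hv e a => by_contra fun hv' => e (by
      rw [l3 u hu hu', l3 v hv hv']
      exact comp_eq_of_wk ((WkM.refl (mem_sdiff.2 ⟨hu, hu'⟩)).tail a (mem_sdiff.2 ⟨hv, hv'⟩)))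
  have t1 : ∀ u v p, G.Adj u v → c u v * (ρ u p + ρ p v) ≤ c u v * l u v + 2 * (c u v * ρ u p) :=
    fun u v p a => by
      have e1 := hN.ρ_tri p u v
      have e2 := hN.ρ_le u v a
      rw [hN.ρ_symm p u] at e1
      nlinarith [c0 u v]
  have t2 : ∀ u v p, G.Adj u v → c u v * (ρ u p + ρ p v) ≤ c u v * l u v + 2 * (c v u * ρ v p) :=
    fun u v p a => by
      have e1 := hN.ρ_tri u v p
      have e2 := hN.ρ_le u v a
      rw [hN.ρ_symm p v, hN.c_symm v u]
      nlinarith [c0 u v]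
  refine ⟨lab, I.biUnion P ∪ M.image ctr, fun u v =>
    if u ∉ W then por u else if v ∉ W then por v else if u ∈ M then ctr u else ctr v,
    ?_, fun y hy => ?_, fun u hu v hv e hc => ?_, ?_⟩
  · have e1 : (I.biUnion P).card ≤ I.card * q := card_biUnion_le_card_mul _ _ _ h.pcard
    have e2 : I.card ≤ t := (card_le_univ _).trans_eq (Fintype.card_fin _)
    have e3 := hM.card
    have e4 := card_union_le (I.biUnion P) (M.image ctr)
    have e5 : I.card * q ≤ t * q := Nat.mul_le_mul_right _ e2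
    rw [add_mul]
    omega
  · by_cases h1 : y ∈ W
    · by_cases h2 : y ∈ M
      · rw [l2 y h2]; exact ⟨mem_cls.2 ⟨h1, rfl⟩, hM.light y h2⟩
      · rw [l3 y h1 h2]
        exact ⟨mem_comp.2 (WkM.refl (mem_sdiff.2 ⟨h1, h2⟩)), hl y (mem_sdiff.2 ⟨h1, h2⟩)⟩
    · rw [l1 y h1]
      have := card_sdiff_add_card_eq_card h.sub
      have := h.heavy
      exact ⟨mem_sdiff.2 ⟨hy, h1⟩, by omega⟩
  · have a := hN.c_adj u v hc
    dsimp only
    by_cases h1 : u ∈ W
    · rw [if_neg (not_not.2 h1)]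
      by_cases h2 : v ∈ W
      · rw [if_neg (not_not.2 h2)]
        refine mem_union_right _ ?_
        split_ifs with h3
        · exact mem_image_of_mem _ h3
        · exact mem_image_of_mem _ (k2 u h1 h3 v h2 e a)
      · rw [if_pos h2]
        obtain ⟨i, hi, hv'⟩ := h.edge u h1 v (mem_sdiff.2 ⟨hv, h2⟩) a
        rw [hpor i hi v hv']
        exact mem_union_left _ (mem_biUnion.2 ⟨i, hi, h.pmem i hi v hv' u h1 a.symm⟩)
    · rw [if_pos h1]
      have h2 : v ∈ W := by_contra fun h2 => e (by rw [l1 u h1, l1 v h2])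
      obtain ⟨i, hi, hu'⟩ := h.edge v h2 u (mem_sdiff.2 ⟨hu, h1⟩) a.symm
      rw [hpor i hi u hu']
      exact mem_union_left _ (mem_biUnion.2 ⟨i, hi, h.pmem i hi u hu' v h2 a⟩)
  have s1 : ∑ u ∈ U, ∑ v ∈ U, g u v ≤ t * (q * τ) := by
    have e1 : ∀ u ∈ U, ∀ v ∈ U, g u v ≤
        ∑ i ∈ I, (if u ∈ B i ∧ v ∈ W then c u v * ρ u (π i u) else 0) := by
      intro u hu v _
      have nn : ∀ i ∈ I, 0 ≤ (if u ∈ B i ∧ v ∈ W then c u v * ρ u (π i u) else 0) := by
        intro i _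
        split_ifs
        · exact mul_nonneg (c0 _ _) (ρ0 _ _)
        · exact le_rfl
      rw [hg]; dsimp only
      split_ifs with h1
      · by_cases hc : c u v = 0
        · rw [hc, zero_mul]; rw [hc] at nn; exact sum_nonneg nn
        · obtain ⟨i, hi, hu'⟩ := h.edge v h1.2 u (mem_sdiff.2 ⟨hu, h1.1⟩) (hN.c_adj u v hc).symm
          refine le_trans ?_ (single_le_sum nn hi)
          rw [if_pos ⟨hu', h1.2⟩, hpor i hi u hu']
      · exact sum_nonneg nn
    have e2 : ∀ i ∈ I, ∑ u ∈ U, ∑ v ∈ U,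
        (if u ∈ B i ∧ v ∈ W then c u v * ρ u (π i u) else 0) ≤ q * τ := by
      intro i hi
      refine le_trans ?_ (h.pcost i hi)
      simp only [ite_and, sum_ite_irrel, sum_const_zero, ← sum_filter]
      refine (sum_le_sum fun u _ => sum_le_sum_of_subset_of_nonneg
        (fun v hv => (mem_filter.1 hv).2) fun v _ _ => mul_nonneg (c0 _ _) (ρ0 _ _)).trans ?_
      exact sum_le_sum_of_subset_of_nonneg (fun u hu => (mem_filter.1 hu).2) fun u _ _ =>
        sum_nonneg fun v _ => mul_nonneg (c0 _ _) (ρ0 _ _)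
    calc ∑ u ∈ U, ∑ v ∈ U, g u v ≤ ∑ u ∈ U, ∑ v ∈ U,
          ∑ i ∈ I, (if u ∈ B i ∧ v ∈ W then c u v * ρ u (π i u) else 0) :=
          sum_le_sum fun u hu => sum_le_sum fun v hv => e1 u hu v hv
      _ = ∑ i ∈ I, ∑ u ∈ U, ∑ v ∈ U,
          (if u ∈ B i ∧ v ∈ W then c u v * ρ u (π i u) else 0) := by
          simp only [sum_comm (s := U) (t := I)]
      _ ≤ ∑ _i ∈ I, (q * τ : ℝ) := sum_le_sum e2
      _ = I.card * (q * τ) := by rw [sum_const, nsmul_eq_mul]
      _ ≤ t * (q * τ) := by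
          have : I.card ≤ t := (card_le_univ _).trans_eq (Fintype.card_fin _)
          have : (I.card : ℝ) ≤ t := by exact_mod_cast this
          gcongr
  have s2 : ∑ u ∈ U, ∑ v ∈ U, g' u v ≤ q * τ := by
    refine le_trans ?_ hM.cost
    have nn : ∀ u v, 0 ≤ (if ctr v = ctr u then 0 else c u v * ρ u (ctr u)) := fun u v => by
      split_ifs
      · exact le_rfl
      · exact mul_nonneg (c0 _ _) (ρ0 _ _)
    rw [hg']
    simp only [ite_and, sum_ite_irrel, sum_const_zero, ← sum_filter, ne_eq, ite_not]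
    refine (sum_le_sum fun u _ => sum_le_sum_of_subset_of_nonneg
      (fun v hv => (mem_filter.1 hv).2) fun v _ _ => nn u v).trans ?_
    exact sum_le_sum_of_subset_of_nonneg (fun u hu => (mem_filter.1 hu).2) fun u _ _ =>
      sum_nonneg fun v _ => nn u v
  have s3 : ∑ u ∈ U, ∑ v ∈ U, g v u = ∑ u ∈ U, ∑ v ∈ U, g u v := sum_comm
  have s4 : ∑ u ∈ U, ∑ v ∈ U, g' v u = ∑ u ∈ U, ∑ v ∈ U, g' u v := sum_comm
  refine le_trans (b := ∑ u ∈ U, ∑ v ∈ U, ((if lab u = lab v then 0 else c u v * (l u v : ℝ)) +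
    2 * (g u v + g v u + g' u v + g' v u))) (sum_le_sum fun u _ => sum_le_sum fun v _ => ?_) ?_
  · have p1 := g0 u v
    have p2 := g0 v u
    have p3 := g0' u v
    have p4 := g0' v u
    by_cases e : lab u = lab v
    · rw [if_pos e, if_pos e]; linarith
    rw [if_neg e, if_neg e]
    by_cases hc : c u v = 0
    · rw [hc, zero_mul, zero_mul]; linarith
    have a := hN.c_adj u v hc
    dsimp only
    by_cases h1 : u ∈ W
    · rw [if_neg (not_not.2 h1)]
      by_cases h2 : v ∈ W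
      · rw [if_neg (not_not.2 h2)]
        split_ifs with h3
        · have : g' u v = c u v * ρ u (ctr u) := by
            rw [hg']; exact if_pos ⟨h3, h2, k1 u h3 v h2 e⟩
          linarith [t1 u v (ctr u) a]
        · have h4 := k2 u h1 h3 v h2 e a
          have : g' v u = c v u * ρ v (ctr v) := by
            rw [hg']; exact if_pos ⟨h4, h1, k1 v h4 u h1 (Ne.symm e)⟩
          linarith [t2 u v (ctr v) a]
      · rw [if_pos h2]
        have : g v u = c v u * ρ v (por v) := by rw [hg]; exact if_pos ⟨h2, h1⟩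
        linarith [t2 u v (por v) a]
    · rw [if_pos h1]
      have h2 : v ∈ W := by_contra fun h2 => e (by rw [l1 u h1, l1 v h2])
      have : g u v = c u v * ρ u (por u) := by rw [hg]; exact if_pos ⟨h1, h2⟩
      linarith [t1 u v (por u) a]
  · simp only [sum_add_distrib, ← mul_sum]
    rw [s3, s4]
    linarith

end Pool.Agent.MP_d3be90_lc

end

section

set_option autoImplicit false

open Finset
open scoped Classical

namespace Pool.Agent.MP_d3be90_lc

variable {V : Type}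

lemma SStep_cost {G : SimpleGraph V} {c ρ : V → V → ℝ} {l : V → V → ℕ} (hN : Net G c l ρ)
    {W W' M B' : Finset V} {τ : ℝ} {u0 q : ℕ} {ctr : V → V} (hM : Marked c ρ W τ u0 q M ctr)
    (hW : W' ⊆ W) (hB : ∀ y ∈ B', ∀ x ∈ W', G.Adj y x → y ∈ M ∧ x ∉ M) :
    ∑ y ∈ B', ∑ x ∈ W', c y x * ρ y (ctr y) ≤ q * τ := by
  have h0 : ∀ y x, 0 ≤ (if ctr x = ctr y then 0 else c y x * ρ y (ctr y)) := fun y x => by
    split_ifs
    · exact le_rfl
    · exact mul_nonneg (hN.c_nonneg _ _) (hN.ρ_nonneg _ _)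
  refine le_trans ?_ hM.cost
  calc ∑ y ∈ B', ∑ x ∈ W', c y x * ρ y (ctr y)
      = ∑ y ∈ B'.filter (· ∈ M), ∑ x ∈ W', c y x * ρ y (ctr y) := by
        refine (sum_filter_of_ne fun y hy hne => ?_).symm
        obtain ⟨x, hx, hx'⟩ := exists_ne_zero_of_sum_ne_zero hne
        exact (hB y hy x hx (hN.c_adj _ _ (left_ne_zero_of_mul hx'))).1
    _ ≤ ∑ y ∈ B'.filter (· ∈ M), ∑ x ∈ W, (if ctr x = ctr y then 0 else c y x * ρ y (ctr y)) := by
        refine sum_le_sum fun y hy => ?_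
        obtain ⟨hy, hyM⟩ := mem_filter.1 hy
        refine le_trans (sum_le_sum fun x hx => ?_)
          (sum_le_sum_of_subset_of_nonneg hW fun x _ _ => h0 y x)
        split_ifs with e
        · by_cases hc : c y x = 0
          · rw [hc, zero_mul]
          · exact absurd (hM.closed x (hW hx) y hyM e) (hB y hy x hx (hN.c_adj _ _ hc)).2
        · exact le_rfl
    _ ≤ _ := sum_le_sum_of_subset_of_nonneg (fun y hy => (mem_filter.1 hy).2)
        fun y _ _ => sum_nonneg fun x _ => h0 y x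

lemma SStep_mono {G : SimpleGraph V} {c ρ : V → V → ℝ} {l : V → V → ℕ} (hN : Net G c l ρ)
    {W W' B : Finset V} (hW : W' ⊆ W) (p : V → V) :
    ∑ y ∈ B, ∑ x ∈ W', c y x * ρ y (p y) ≤ ∑ y ∈ B, ∑ x ∈ W, c y x * ρ y (p y) :=
  sum_le_sum fun y _ => sum_le_sum_of_subset_of_nonneg hW fun x _ _ =>
    mul_nonneg (hN.c_nonneg y x) (hN.ρ_nonneg _ _)

lemma SStep_out {G : SimpleGraph V} {W M : Finset V} {w x y : V} (hx : x ∈ comp G (W \ M) w)
    (hxy : G.Adj x y) (hy : y ∈ W) (hy' : y ∉ comp G (W \ M) w) : y ∈ M := by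
  by_contra h
  exact hy' (comp_closed hx hxy (mem_sdiff.2 ⟨hy, h⟩))

theorem State.step_tree {G : SimpleGraph V} {c ρ : V → V → ℝ} {l : V → V → ℕ} (hN : Net G c l ρ)
    {U : Finset V} {τ : ℝ} {q t : ℕ} {W : Finset V} {I : Finset (Fin t)}
    {B P : Fin t → Finset V} {π : Fin t → V → V} (h : State G c ρ U τ q t W I B P π)
    {M : Finset V} {ctr : V → V} (hM : Marked c ρ W τ U.card q M ctr)
    (hne : M.Nonempty) (hc : Conn G M) (hA : ∀ i ∈ I, ¬ Disjoint M (att G W (B i)))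
    {j : Fin t} (hj : j ∉ I) {w : V} (hw : U.card < 2 * (comp G (W \ M) w).card) :
    ∃ (B' P' : Fin t → Finset V) (π' : Fin t → V → V),
      State G c ρ U τ q t (comp G (W \ M) w) (insert j I) B' P' π' := by
  have hs : comp G (W \ M) w ⊆ W \ M := comp_subset
  have hW : comp G (W \ M) w ⊆ W := hs.trans sdiff_subset
  have hne' : ∀ i ∈ I, i ≠ j := fun i hi e => hj (e ▸ hi)
  have hp : ∀ i ∈ I, Disjoint M (B i) ∧ Touch G M (B i) := fun i hi => by
    refine ⟨((h.bW i hi).mono_right hM.sub).symm, ?_⟩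
    obtain ⟨z, hz, hz'⟩ := not_disjoint_iff.1 (hA i hi)
    obtain ⟨y, hy, e⟩ := (mem_filter.1 hz').2
    exact ⟨z, hz, y, hy, e.symm⟩
  refine ⟨Function.update B j M, Function.update P j (M.image ctr), Function.update π j ctr,
    hW.trans h.sub, hw, conn_comp _ _ _, ?_, ?_, ?_, ?_, ?_, ?_, ?_, ?_⟩
  · intro i hi
    rcases mem_insert.1 hi with rfl | hi
    · rwa [Function.update_self]
    · rw [Function.update_of_ne (hne' i hi)]; exact h.bne i hi
  · intro i hi
    rcases mem_insert.1 hi with rfl | hi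
    · rwa [Function.update_self]
    · rw [Function.update_of_ne (hne' i hi)]; exact h.bconn i hi
  · intro i hi
    rcases mem_insert.1 hi with rfl | hi
    · rw [Function.update_self]; exact disjoint_sdiff.mono_right hs
    · rw [Function.update_of_ne (hne' i hi)]; exact (h.bW i hi).mono_right hW
  · intro i hi0 k hk0 hik
    rcases mem_insert.1 hi0 with rfl | hi <;> rcases mem_insert.1 hk0 with rfl | hk
    · exact absurd rfl hik
    · rw [Function.update_self, Function.update_of_ne (hne' k hk)]; exact hp k hk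
    · rw [Function.update_self, Function.update_of_ne (hne' i hi)]
      exact ⟨(hp i hi).1.symm, (hp i hi).2.symm⟩
    · rw [Function.update_of_ne (hne' i hi), Function.update_of_ne (hne' k hk)]
      exact h.bpair i hi k hk hik
  · intro x hx y hy hxy
    obtain ⟨hyU, hy'⟩ := mem_sdiff.1 hy
    by_cases hyW : y ∈ W
    · exact ⟨j, mem_insert_self _ _, by rw [Function.update_self]; exact SStep_out hx hxy hyW hy'⟩
    · obtain ⟨i, hi, e⟩ := h.edge x (hW hx) y (mem_sdiff.2 ⟨hyU, hyW⟩) hxy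
      exact ⟨i, mem_insert_of_mem hi, by rwa [Function.update_of_ne (hne' i hi)]⟩
  · intro i hi
    rcases mem_insert.1 hi with rfl | hi
    · rw [Function.update_self]; exact hM.card
    · rw [Function.update_of_ne (hne' i hi)]; exact h.pcard i hi
  · intro i hi
    rcases mem_insert.1 hi with rfl | hi
    · simp only [Function.update_self]
      exact fun y hy _ _ _ => mem_image_of_mem _ hy
    · simp only [Function.update_of_ne (hne' i hi)]
      exact fun y hy x hx e => h.pmem i hi y hy x (hW hx) e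
  · intro i hi
    rcases mem_insert.1 hi with rfl | hi
    · simp only [Function.update_self]
      exact SStep_cost hN hM hW fun y hy x hx _ => ⟨hy, (mem_sdiff.1 (hs hx)).2⟩
    · simp only [Function.update_of_ne (hne' i hi)]
      exact (SStep_mono hN hW _).trans (h.pcost i hi)

theorem State.step_sep {G : SimpleGraph V} {c ρ : V → V → ℝ} {l : V → V → ℕ} (hN : Net G c l ρ)
    {U : Finset V} {τ : ℝ} {q t : ℕ} {W : Finset V} {I : Finset (Fin t)}
    {B P : Fin t → Finset V} {π : Fin t → V → V} (h : State G c ρ U τ q t W I B P π)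
    {M : Finset V} {ctr : V → V} (hM : Marked c ρ W τ U.card q M ctr)
    {i : Fin t} (hi : i ∈ I) (hA : (att G W (B i)).Nonempty) {w : V}
    (hw : U.card < 2 * (comp G (W \ M) w).card)
    (hd : Disjoint (comp G (W \ M) w) (att G W (B i))) :
    ∃ (W' : Finset V) (B' P' : Fin t → Finset V) (π' : Fin t → V → V),
      W'.card < W.card ∧ State G c ρ U τ q t W' I B' P' π' := by
  obtain ⟨W1, hW1⟩ : ∃ W1, W1 = comp G (W \ M) w := ⟨_, rfl⟩
  obtain ⟨E, hE⟩ : ∃ E : Finset V, ∀ x, x ∈ E ↔ ∃ a ∈ att G W (B i), WkM G.Adj (W \ W1) a x :=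
    ⟨(W \ W1).filter fun x => ∃ a ∈ att G W (B i), WkM G.Adj (W \ W1) a x, fun x =>
      mem_filter.trans ⟨And.right, fun e => ⟨e.choose_spec.2.last, e⟩⟩⟩
  have hs : W1 ⊆ W \ M := hW1 ▸ comp_subset
  have h1W : W1 ⊆ W := hs.trans sdiff_subset
  have hEs : E ⊆ W \ W1 := fun x hx => ((hE x).1 hx).choose_spec.2.last
  have hEW : E ⊆ W := hEs.trans sdiff_subset
  have hatt : att G W (B i) ⊆ E := fun a ha =>
    (hE a).2 ⟨a, ha, WkM.refl (mem_sdiff.2 ⟨(mem_filter.1 ha).1, fun e =>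
      disjoint_left.1 hd (hW1 ▸ e) ha⟩)⟩
  have hcl : ∀ y ∈ E, ∀ x ∈ W \ W1, G.Adj y x → x ∈ E := fun y hy x hx e => by
    obtain ⟨a, ha, hk⟩ := (hE y).1 hy
    exact (hE x).2 ⟨a, ha, hk.tail e hx⟩
  have h1 : W1 ⊆ W \ E := fun x hx =>
    mem_sdiff.2 ⟨h1W hx, fun e => (mem_sdiff.1 (hEs e)).2 hx⟩
  have hW' : W \ E ⊆ W := sdiff_subset
  have hw1 : w ∈ W1 := by
    obtain ⟨x, hx⟩ : (comp G (W \ M) w).Nonempty := card_pos.1 (by omega)
    exact hW1 ▸ mem_comp.2 (WkM.refl (mem_comp.1 hx).1)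
  have hc1 : Conn G W1 := hW1 ▸ conn_comp _ _ _
  have key : ∀ y ∈ B i ∪ E, ∀ x ∈ W \ E, G.Adj y x → y ∈ M ∧ x ∉ M := fun y hy x hx e => by
    obtain ⟨hxW, hxE⟩ := mem_sdiff.1 hx
    rcases mem_union.1 hy with hy | hy
    · exact absurd (hatt (mem_filter.2 ⟨hxW, y, hy, e⟩)) hxE
    · have hx1 : x ∈ W1 := by
        by_contra h'
        exact hxE (hcl y hy x (mem_sdiff.2 ⟨hxW, h'⟩) e)
      exact ⟨SStep_out (hW1 ▸ hx1) e.symm (hEW hy) (hW1 ▸ (mem_sdiff.1 (hEs hy)).2),
        (mem_sdiff.1 (hs hx1)).2⟩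
  have hsub : ∀ k, B k ⊆ Function.update B i (B i ∪ E) k := fun k => by
    by_cases e : k = i
    · rw [e, Function.update_self]; exact subset_union_left
    · rw [Function.update_of_ne e]
  have hdis : ∀ k ∈ I, i ≠ k → Disjoint (B i ∪ E) (B k) := fun k hk e =>
    disjoint_union_left.2 ⟨(h.bpair i hi k hk e).1, ((h.bW k hk).mono_right hEW).symm⟩
  refine ⟨W \ E, Function.update B i (B i ∪ E), Function.update P i (M.image ctr),
    Function.update π i ctr, ?_, hW'.trans h.sub, ?_, ?_, fun k hk => (h.bne k hk).mono (hsub k),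
    ?_, ?_, ?_, ?_, ?_, ?_, ?_⟩
  · obtain ⟨a, ha⟩ := hA
    exact card_lt_card ((ssubset_iff_of_subset hW').2
      ⟨a, hEW (hatt ha), fun e => (mem_sdiff.1 e).2 (hatt ha)⟩)
  · have := card_le_card h1
    rw [← hW1] at hw
    omega
  · refine conn_of_root (a := w) fun x hx => WkM.symm' ?_
    have := (h.conn x (hW' hx) w (h1W hw1)).ind
      (P := fun z => WkM G.Adj (W \ E) x z ∨ WkM G.Adj (W \ E) x w) (Or.inl (WkM.refl hx)) ?_
    · exact this.elim id id
    · rintro z y - hzy hy (e | e)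
      · by_cases hz : z ∈ W1
        · exact Or.inr (e.trans ((hc1 z hz w hw1).monoD h1))
        · refine Or.inl (e.tail hzy (mem_sdiff.2 ⟨hy, fun hyE => ?_⟩))
          have hz' := mem_sdiff.1 e.last
          exact hz'.2 (hcl y hyE z (mem_sdiff.2 ⟨hz'.1, hz⟩) hzy.symm)
      · exact Or.inr e
  · intro k hk
    by_cases e : k = i
    · rw [e, Function.update_self]
      obtain ⟨b, hb⟩ := h.bne i hi
      refine conn_of_root (a := b) fun x hx => (mem_union.1 hx).elim
        (fun hx => (h.bconn i hi b hb x hx).monoD subset_union_left) fun hx => ?_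
      obtain ⟨a, ha, hk⟩ := (hE x).1 hx
      obtain ⟨y, hy, hya⟩ := (mem_filter.1 ha).2
      refine hk.ind (P := fun z => WkM G.Adj (B i ∪ E) b z)
        (((h.bconn i hi b hb y hy).monoD subset_union_left).tail hya
          (mem_union_right _ (hatt ha))) fun u v hu huv hv ih => ?_
      exact ih.tail huv (mem_union_right _ ((hE v).2 ⟨a, ha, hu.tail huv hv⟩))
    · rw [Function.update_of_ne e]; exact h.bconn k hk
  · intro k hk
    by_cases e : k = i
    · rw [e, Function.update_self]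
      exact disjoint_union_left.2 ⟨(h.bW i hi).mono_right hW', disjoint_sdiff⟩
    · rw [Function.update_of_ne e]; exact (h.bW k hk).mono_right hW'
  · intro k hk m hm hkm
    refine ⟨?_, ?_⟩
    · by_cases e : k = i
      · subst e
        rw [Function.update_self, Function.update_of_ne hkm.symm]; exact hdis m hm hkm
      · by_cases e' : m = i
        · subst e'
          rw [Function.update_self, Function.update_of_ne e]; exact (hdis k hk hkm.symm).symm
        · rw [Function.update_of_ne e, Function.update_of_ne e']; exact (h.bpair k hk m hm hkm).1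
    · obtain ⟨x, hx, y, hy, e⟩ := (h.bpair k hk m hm hkm).2
      exact ⟨x, hsub k hx, y, hsub m hy, e⟩
  · intro x hx y hy hxy
    obtain ⟨hyU, hy'⟩ := mem_sdiff.1 hy
    by_cases hyW : y ∈ W
    · refine ⟨i, hi, ?_⟩
      rw [Function.update_self]
      by_contra h'
      exact hy' (mem_sdiff.2 ⟨hyW, fun e => h' (mem_union_right _ e)⟩)
    · obtain ⟨k, hk, e⟩ := h.edge x (hW' hx) y (mem_sdiff.2 ⟨hyU, hyW⟩) hxy
      exact ⟨k, hk, hsub k e⟩
  · intro k hk
    by_cases e : k = i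
    · rw [e, Function.update_self]; exact hM.card
    · rw [Function.update_of_ne e]; exact h.pcard k hk
  · intro k hk
    by_cases e : k = i
    · simp only [e, Function.update_self]
      exact fun y hy x hx e => mem_image_of_mem _ (key y hy x hx e).1
    · simp only [Function.update_of_ne e]
      exact fun y hy x hx e => h.pmem k hk y hy x (hW' hx) e
  · intro k hk
    by_cases e : k = i
    · simp only [e, Function.update_self]
      exact SStep_cost hN hM hW' key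
    · simp only [Function.update_of_ne e]
      exact (SStep_mono hN hW' _).trans (h.pcost k hk)

end Pool.Agent.MP_d3be90_lc

end

section

set_option autoImplicit false

open Finset
open scoped Classical

namespace Pool.Agent.MP_d3be90_lc

variable {V : Type}

theorem State.sep {G : SimpleGraph V} {c ρ : V → V → ℝ} {l : V → V → ℕ}
    (hN : Net G c l ρ) {t : ℕ} (hG : ¬ KMinor G t) {U : Finset V} {τ : ℝ} (hτ : 0 ≤ τ) {q : ℕ}
    (hcov : ∀ W ⊆ U, W.Nonempty → Conn G W → Cover G c ρ W τ U.card q t) (n : ℕ) :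
    ∀ (W : Finset V) (I : Finset (Fin t)) (B P : Fin t → Finset V) (π : Fin t → V → V),
      2 * W.card + I.card < n → State G c ρ U τ q t W I B P π →
      Sep c (fun x y => (l x y : ℝ)) ρ U ((t + 1) * q) (4 * (t + 1) * q * τ) := by
  induction n with
  | zero => intro W I B P π hn; omega
  | succ n ih =>
    intro W I B P π hn h
    by_cases h1 : ∃ i ∈ I, ¬ (att G W (B i)).Nonempty
    · obtain ⟨i, hi, hA⟩ := h1
      have hc := card_erase_of_mem hi
      have hp : 0 < I.card := card_pos.2 ⟨i, hi⟩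
      refine ih W (I.erase i) B P π (by omega) ⟨h.sub, h.heavy, h.conn,
        fun j hj => h.bne j (mem_of_mem_erase hj), fun j hj => h.bconn j (mem_of_mem_erase hj),
        fun j hj => h.bW j (mem_of_mem_erase hj),
        fun j hj j' hj' => h.bpair j (mem_of_mem_erase hj) j' (mem_of_mem_erase hj'), ?_,
        fun j hj => h.pcard j (mem_of_mem_erase hj), fun j hj => h.pmem j (mem_of_mem_erase hj),
        fun j hj => h.pcost j (mem_of_mem_erase hj)⟩
      intro x hx y hy hxy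
      obtain ⟨j, hj, hyj⟩ := h.edge x hx y hy hxy
      refine ⟨j, mem_erase.2 ⟨?_, hj⟩, hyj⟩
      rintro rfl
      exact hA ⟨x, mem_filter.2 ⟨hx, y, hyj, hxy.symm⟩⟩
    push Not at h1
    obtain ⟨j, hj⟩ : ∃ j, j ∉ I := by
      by_contra hc
      push Not at hc
      exact hG ⟨B, fun i => h.bne i (hc i), fun i => h.bconn i (hc i),
        fun i j hij => h.bpair i (hc i) j (hc j) hij⟩
    have hWne : W.Nonempty := card_pos.1 (by have := h.heavy; omega)
    obtain ⟨M, ctr, m1, m2, m3, m4, m5, m6⟩ := hcov W h.sub hWne h.conn I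
      (fun i => att G W (B i)) fun i _ => filter_subset _ _
    have hM : Marked c ρ W τ U.card q M ctr := ⟨m1, m2, m3, m4, m5⟩
    by_cases h2 : ∀ x ∈ W \ M, 2 * (comp G (W \ M) x).card ≤ U.card
    · exact h.finish hN hτ hM h2
    push Not at h2
    obtain ⟨w, hw, hw'⟩ := h2
    rcases m6 with ⟨n1, n2, n3⟩ | m6
    · obtain ⟨B', P', π', h'⟩ := h.step_tree hN hM n1 n2 n3 hj hw'
      refine ih _ _ B' P' π' ?_ h'
      have e1 : (comp G (W \ M) w).card ≤ (W \ M).card := card_le_card comp_subset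
      have e2 := card_sdiff_add_card_eq_card m1
      have e3 := card_pos.2 n1
      have e4 := card_insert_of_notMem hj
      omega
    · obtain ⟨i, hi, hd⟩ := m6 _ comp_subset ⟨w, mem_comp.2 (WkM.refl hw)⟩ (conn_comp _ _ _)
      obtain ⟨W', B', P', π', h3, h'⟩ := h.step_sep hN hM hi (h1 i hi) hw' hd
      exact ih W' I B' P' π' (by omega) h'

theorem sep_of_cover {G : SimpleGraph V} {c ρ : V → V → ℝ} {l : V → V → ℕ}
    (hN : Net G c l ρ) (t : ℕ) (hG : ¬ KMinor G t) (U : Finset V) (τ : ℝ) (hτ : 0 ≤ τ) (q : ℕ)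
    (hcov : ∀ W ⊆ U, W.Nonempty → Conn G W → Cover G c ρ W τ U.card q t) :
    Sep c (fun x y => (l x y : ℝ)) ρ U ((t + 1) * q) (4 * (t + 1) * q * τ) := by
  by_cases h : ∀ x ∈ U, 2 * (comp G U x).card ≤ U.card
  · refine ⟨comp G U, ∅, fun u _ => u, by simp,
      fun y hy => ⟨mem_comp.2 (WkM.refl hy), h y hy⟩, fun u hu v hv h1 h2 => ?_, ?_⟩
    · exact absurd (comp_eq_of_wk ((WkM.refl hu).tail (hN.c_adj u v h2) hv)) h1
    · have e : ∀ f : V → V → ℝ, ∑ u ∈ U, ∑ v ∈ U,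
          (if comp G U u = comp G U v then 0 else c u v * f u v) = 0 := fun f =>
        sum_eq_zero fun u hu => sum_eq_zero fun v hv => by
          split_ifs with h1
          · rfl
          · by_cases h2 : c u v = 0
            · rw [h2, zero_mul]
            · exact absurd (comp_eq_of_wk ((WkM.refl hu).tail (hN.c_adj u v h2) hv)) h1
      rw [e fun u v => ρ u u + ρ u v, e fun u v => (l u v : ℝ)]
      positivity
  · push Not at h
    obtain ⟨x, -, hx⟩ := h
    refine State.sep hN hG hτ hcov _ (comp G U x) ∅ (fun _ => ∅) (fun _ => ∅) (fun _ y => y)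
      (Nat.lt_succ_self _) ⟨comp_subset, hx, conn_comp _ _ _, by simp, by simp, by simp, by simp,
        ?_, by simp, by simp, by simp⟩
    intro y hy z hz hyz
    exact absurd (comp_closed hy hyz (mem_sdiff.1 hz).1) (mem_sdiff.1 hz).2

end Pool.Agent.MP_d3be90_lc

end

section

set_option autoImplicit false

open Finset
open scoped Classical

namespace Pool.Agent.MP_d3be90_lc

variable {V : Type}

theorem Conn.connected {G : SimpleGraph V} {S : Finset V} (h : Conn G S) (hne : S.Nonempty) :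
    (G.induce (S : Set V)).Connected := by
  obtain ⟨s, hs⟩ := hne
  have : Nonempty (S : Set V) := ⟨⟨s, hs⟩⟩
  refine ⟨fun a b => ?_⟩
  have key : ∀ x, WkM G.Adj S a x → ∀ hx : x ∈ (S : Set V),
      (G.induce (S : Set V)).Reachable a ⟨x, hx⟩ := fun x hx =>
    hx.ind (P := fun x => ∀ hx : x ∈ (S : Set V), (G.induce (S : Set V)).Reachable a ⟨x, hx⟩)
      (fun _ => SimpleGraph.Reachable.refl _) fun y z hy hyz _ ih hz =>
        (ih hy.last).trans (SimpleGraph.Adj.reachable (by simpa using hyz))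
  exact key b (h a a.2 b b.2) b.2

theorem KMinor.minor {W : Type} [Fintype W] (H : SimpleGraph W) {G : SimpleGraph V}
    (h : KMinor G (Fintype.card W + 2)) :
    ∃ φ : W → Set V, (∀ w, (φ w).Nonempty) ∧ (∀ w, (G.induce (φ w)).Connected) ∧
      (∀ w w', w ≠ w' → Disjoint (φ w) (φ w')) ∧
      (∀ w w', H.Adj w w' → ∃ x ∈ φ w, ∃ y ∈ φ w', G.Adj x y) := by
  obtain ⟨B, h1, h2, h3⟩ := h
  obtain ⟨e⟩ : Nonempty (W ↪ Fin (Fintype.card W + 2)) :=
    Function.Embedding.nonempty_of_card_le (by simp)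
  exact ⟨fun w => (B (e w) : Set V), fun w => h1 _, fun w => (h2 _).connected (h1 _),
    fun w w' hw => disjoint_coe.2 (h3 _ _ (e.injective.ne hw)).1,
    fun w w' hw => (h3 _ _ (e.injective.ne hw.ne)).2⟩

theorem cutW_eq [Fintype V] (c : V → V → ℝ) (hc : ∀ x y, c x y = c y x) (A : Finset V) :
    cutW c A = 2 * ∑ u ∈ A, ∑ v ∈ Aᶜ, c u v := by
  have e1 : ∑ u ∈ A, ∑ v, (if (u ∈ A ↔ v ∈ A) then 0 else c u v) = ∑ u ∈ A, ∑ v ∈ Aᶜ, c u v :=
    sum_congr rfl fun u hu => by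
      rw [← sum_add_sum_compl A, sum_eq_zero fun v hv => if_pos (iff_of_true hu hv), zero_add]
      exact sum_congr rfl fun v hv => if_neg fun h => mem_compl.1 hv (h.1 hu)
  have e2 : ∑ u ∈ Aᶜ, ∑ v, (if (u ∈ A ↔ v ∈ A) then 0 else c u v) =
      ∑ u ∈ Aᶜ, ∑ v ∈ A, c v u :=
    sum_congr rfl fun u hu => by
      rw [← sum_add_sum_compl A, sum_eq_zero (s := Aᶜ) fun v hv =>
        if_pos (iff_of_false (mem_compl.1 hu) (mem_compl.1 hv)), add_zero]
      exact sum_congr rfl fun v hv => (if_neg fun h => mem_compl.1 hu (h.2 hv)).trans (hc u v)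
  rw [cutW, ← sum_add_sum_compl A, e1, e2, sum_comm (s := Aᶜ), two_mul]

/-- a sparsest cut -/
theorem exists_sparsest [Fintype V] (a b : Finset V → ℝ) (ha : ∀ A, 0 ≤ a A) (hb : ∀ A, 0 ≤ b A)
    (h : ∃ A, 0 < b A) : ∃ S, 0 < b S ∧ ∀ A, a S / b S * b A ≤ a A := by
  obtain ⟨A0, h0⟩ := h
  obtain ⟨S, hS, hm⟩ := exists_min_image (univ.filter fun A => 0 < b A) (fun A => a A / b A)
    ⟨A0, mem_filter.2 ⟨mem_univ _, h0⟩⟩
  refine ⟨S, (mem_filter.1 hS).2, fun A => ?_⟩
  rcases (hb A).eq_or_lt with e | e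
  · rw [← e, mul_zero]; exact ha A
  · exact (le_div_iff₀ e).1 (hm A (mem_filter.2 ⟨mem_univ _, e⟩))

end Pool.Agent.MP_d3be90_lc

end
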