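import Pool.Agent.Mg.Fd3be90.G31ed9f

section

set_option autoImplicit false

open Finset
open scoped Classical

namespace Pool.Agent.MP_d3be90_lc

variable {V : Type}

lemma sball_pow (a : ℕ → ℝ) (sa : ℝ) (ha0 : ∀ k, 0 ≤ a k) (ha : Monotone a) (M : ℕ) :
    (5 / 4 : ℝ) ^ ((range M).filter fun k => (a k + sa) / 4 < a (k + 1) - a k).card * sa ≤
      a M + sa := by
  induction M with
  | zero => simpa using ha0 0
  | succ M ih =>
    have hm : a M ≤ a (M + 1) := ha (Nat.le_succ M)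
    rw [range_add_one, filter_insert]
    split_ifs with h
    · rw [card_insert_of_notMem (by simp), pow_succ]
      nlinarith
    · linarith

lemma sball_card (lam n : ℕ) (hn : n < 2 ^ lam) (a : ℕ → ℝ) (sa : ℝ)
    (ha0 : ∀ k, 0 ≤ a k) (ha : Monotone a) (haT : ∀ k, a k ≤ n * sa) (hsa : 0 ≤ sa) (M : ℕ) :
    ((range M).filter fun k => (a k + sa) / 4 < a (k + 1) - a k).card ≤ 4 * lam := by
  rcases hsa.eq_or_lt with h0 | hpos
  · have hz : ∀ k, a k = 0 := fun k => le_antisymm (by simpa [← h0] using haT k) (ha0 k)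
    rw [filter_false_of_mem]
    · simp
    · intro k _
      rw [hz, hz, ← h0]
      norm_num
  · have h1 := sball_pow a sa ha0 ha M
    have h2 := haT M
    have h3 : (n : ℝ) + 1 ≤ 2 ^ lam := by exact_mod_cast hn
    have h4 : (2 : ℝ) ^ lam ≤ (5 / 4 : ℝ) ^ (4 * lam) := by
      rw [pow_mul]
      exact pow_le_pow_left₀ (by norm_num) (by norm_num) _
    have h5 : (5 / 4 : ℝ) ^ ((range M).filter fun k =>
        (a k + sa) / 4 < a (k + 1) - a k).card ≤ (5 / 4 : ℝ) ^ (4 * lam) := by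
      refine le_of_mul_le_mul_right ?_ hpos
      nlinarith
    exact (pow_le_pow_iff_right₀ (by norm_num)).1 h5

theorem exists_good_index (lam n : ℕ) (hn : n < 2 ^ lam) (a b : ℕ → ℝ) (sa sb : ℝ)
    (ha0 : ∀ k, 0 ≤ a k) (ha : Monotone a) (haT : ∀ k, a k ≤ n * sa) (hsa : 0 ≤ sa)
    (hb0 : ∀ k, 0 ≤ b k) (hb : Monotone b) (hbT : ∀ k, b k ≤ n * sb) (hsb : 0 ≤ sb) :
    ∃ k ≤ 8 * lam, a (k + 1) - a k ≤ (a k + sa) / 4 ∧ b (k + 1) - b k ≤ (b k + sb) / 4 := by
  by_contra hcon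
  push Not at hcon
  have h1 := sball_card lam n hn a sa ha0 ha haT hsa (8 * lam + 1)
  have h2 := sball_card lam n hn b sb hb0 hb hbT hsb (8 * lam + 1)
  have h3 : range (8 * lam + 1) ⊆
      ((range (8 * lam + 1)).filter fun k => (a k + sa) / 4 < a (k + 1) - a k) ∪
        ((range (8 * lam + 1)).filter fun k => (b k + sb) / 4 < b (k + 1) - b k) := by
    intro k hk
    have hk' : k ≤ 8 * lam := by have := mem_range.1 hk; omega
    by_cases h : a (k + 1) - a k ≤ (a k + sa) / 4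
    · exact mem_union_right _ (mem_filter.2 ⟨hk, hcon k hk' h⟩)
    · exact mem_union_left _ (mem_filter.2 ⟨hk, not_le.1 h⟩)
  have h4 := (card_le_card h3).trans (card_union_le _ _)
  rw [card_range] at h4
  omega

/-- the ball of radius `r` around `f` inside `Y` -/
noncomputable def sball (G : SimpleGraph V) (l : V → V → ℕ) (Y : Finset V) (f : V) (r : ℕ) :
    Finset V := Y.filter fun z => Reach G l Y f z r

lemma mem_sball {G : SimpleGraph V} {l : V → V → ℕ} {Y : Finset V} {f z : V} {r : ℕ} :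
    z ∈ sball G l Y f r ↔ Reach G l Y f z r :=
  mem_filter.trans ⟨And.right, fun h => ⟨h.last, h⟩⟩

lemma sball_sub {G : SimpleGraph V} {l : V → V → ℕ} {Y : Finset V} {f : V} {r : ℕ} :
    sball G l Y f r ⊆ Y := filter_subset _ _

lemma sball_mono {G : SimpleGraph V} {l : V → V → ℕ} {Y : Finset V} {f : V} {r r' : ℕ}
    (h : r ≤ r') : sball G l Y f r ⊆ sball G l Y f r' :=
  fun _ hz => mem_sball.2 ((mem_sball.1 hz).mono h)

lemma sball_vol_eq (c : V → V → ℝ) (l : V → V → ℕ) {Y B : Finset V} (hB : B ⊆ Y) :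
    vol c l B = ∑ x ∈ Y, ∑ y ∈ Y, (if x ∈ B ∧ y ∈ B then c x y * (l x y : ℝ) else 0) := by
  unfold vol
  rw [← sum_subset hB (fun x _ hx => sum_eq_zero fun y _ => by simp [hx])]
  refine sum_congr rfl fun x hx => ?_
  rw [← sum_subset hB (fun y _ hy => by simp [hy])]
  exact sum_congr rfl fun y hy => by simp [hx, hy]

lemma sball_cut_eq (g : V → V → ℝ) {Y B : Finset V} (hB : B ⊆ Y) :
    ∑ x ∈ B, ∑ y ∈ Y \ B, g x y = ∑ x ∈ Y, ∑ y ∈ Y, (if x ∈ B ∧ y ∉ B then g x y else 0) := by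
  rw [← sum_subset hB (fun x _ hx => sum_eq_zero fun y _ => by simp [hx])]
  refine sum_congr rfl fun x hx => ?_
  rw [← sum_subset (sdiff_subset (s := Y) (t := B)) (fun y hy hy' => by
    have : y ∈ B := by
      by_contra h
      exact hy' (mem_sdiff.2 ⟨hy, h⟩)
    simp [this])]
  exact sum_congr rfl fun y hy => by simp [hx, (mem_sdiff.1 hy).2]

lemma sball_point {G : SimpleGraph V} {c ρ : V → V → ℝ} {l : V → V → ℕ} (hN : Net G c l ρ)
    (Y : Finset V) (f : V) (lo s : ℕ) (x y : V) (hy : y ∈ Y) :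
    ∑ r ∈ Ico lo (lo + s), (if x ∈ sball G l Y f r ∧ y ∉ sball G l Y f r then
        (if l x y < s then c x y else 0) else 0) ≤
      (if x ∈ sball G l Y f (lo + 2 * s) ∧ y ∈ sball G l Y f (lo + 2 * s) then
        c x y * (l x y : ℝ) else 0) -
      (if x ∈ sball G l Y f lo ∧ y ∈ sball G l Y f lo then c x y * (l x y : ℝ) else 0) := by
  have hc := hN.c_nonneg x y
  have hcl : 0 ≤ c x y * (l x y : ℝ) := mul_nonneg hc (Nat.cast_nonneg _)
  have hnn : 0 ≤ (if x ∈ sball G l Y f (lo + 2 * s) ∧ y ∈ sball G l Y f (lo + 2 * s) then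
        c x y * (l x y : ℝ) else 0) -
      (if x ∈ sball G l Y f lo ∧ y ∈ sball G l Y f lo then c x y * (l x y : ℝ) else 0) := by
    by_cases h : x ∈ sball G l Y f lo ∧ y ∈ sball G l Y f lo
    · rw [if_pos h, if_pos ⟨sball_mono (by omega) h.1, sball_mono (by omega) h.2⟩]
      simp
    · rw [if_neg h]
      split_ifs <;> simp [hcl]
  by_cases hc0 : c x y = 0
  · refine le_trans (le_of_eq (sum_eq_zero fun r _ => ?_)) hnn
    simp [hc0]
  by_cases hl : ¬ l x y < s
  · refine le_trans (le_of_eq (sum_eq_zero fun r _ => ?_)) hnn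
    simp [hl]
  rw [not_not] at hl
  have hadj := hN.c_adj x y hc0
  rw [← sum_filter, sum_const, if_pos hl, nsmul_eq_mul]
  set R := (Ico lo (lo + s)).filter fun r => x ∈ sball G l Y f r ∧ y ∉ sball G l Y f r with hR
  rcases R.eq_empty_or_nonempty with he | hne
  · rw [he]
    simpa using hnn
  have hmin := mem_filter.1 (R.min'_mem hne)
  set r1 := R.min' hne with hr1
  have hI := mem_Ico.1 hmin.1
  have hyb : y ∈ sball G l Y f (r1 + l x y) :=
    mem_sball.2 (Reach.step (mem_sball.1 hmin.2.1) hadj hy)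
  have hsub : R ⊆ Ico r1 (r1 + l x y) := by
    intro r hr
    refine mem_Ico.2 ⟨R.min'_le r hr, ?_⟩
    by_contra h
    exact (mem_filter.1 hr).2.2 (sball_mono (not_lt.1 h) hyb)
  have hcard : (R.card : ℝ) ≤ l x y := by
    have := card_le_card hsub
    rw [Nat.card_Ico] at this
    exact_mod_cast (by omega : R.card ≤ l x y)
  rw [if_pos ⟨sball_mono (by omega) hmin.2.1, sball_mono (by omega) hyb⟩,
    if_neg (fun h => hmin.2.2 (sball_mono hI.1 h.2))]
  nlinarith

lemma sball_cut {G : SimpleGraph V} {c ρ : V → V → ℝ} {l : V → V → ℕ} (hN : Net G c l ρ)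
    (Y : Finset V) (f : V) (lo s : ℕ) (hs : 1 ≤ s) :
    ∃ r, lo ≤ r ∧ r < lo + s ∧
      (s : ℝ) * ∑ x ∈ sball G l Y f r, ∑ y ∈ Y \ sball G l Y f r,
        (if l x y < s then c x y else 0) ≤
      vol c l (sball G l Y f (lo + 2 * s)) - vol c l (sball G l Y f lo) := by
  have key : ∑ r ∈ Ico lo (lo + s), ∑ x ∈ sball G l Y f r, ∑ y ∈ Y \ sball G l Y f r,
        (if l x y < s then c x y else 0) ≤
      vol c l (sball G l Y f (lo + 2 * s)) - vol c l (sball G l Y f lo) := by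
    rw [sball_vol_eq c l (sball_sub (r := lo + 2 * s)), sball_vol_eq c l (sball_sub (r := lo)),
      ← sum_sub_distrib, sum_congr rfl fun r _ => sball_cut_eq _ (sball_sub (r := r)), sum_comm]
    refine sum_le_sum fun x _ => ?_
    rw [← sum_sub_distrib, sum_comm]
    exact sum_le_sum fun y hy => sball_point hN Y f lo s x y hy
  have hne : (Ico lo (lo + s)).Nonempty := ⟨lo, mem_Ico.2 ⟨le_rfl, by omega⟩⟩
  obtain ⟨r, hr, h⟩ := exists_le_of_sum_le (s := Ico lo (lo + s))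
    (f := fun r => (s : ℝ) * ∑ x ∈ sball G l Y f r, ∑ y ∈ Y \ sball G l Y f r,
        (if l x y < s then c x y else 0))
    (g := fun _ => vol c l (sball G l Y f (lo + 2 * s)) - vol c l (sball G l Y f lo)) hne (by
      rw [← mul_sum, sum_const, Nat.card_Ico, nsmul_eq_mul, Nat.add_sub_cancel_left]
      exact mul_le_mul_of_nonneg_left key (Nat.cast_nonneg _))
  exact ⟨r, (mem_Ico.1 hr).1, (mem_Ico.1 hr).2, h⟩

theorem exists_ball {G : SimpleGraph V} {c ρ : V → V → ℝ} {l : V → V → ℕ} (hN : Net G c l ρ)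
    (lam n s : ℕ) (hlam : 1 ≤ lam) (hn : n < 2 ^ lam) (hs : 1 ≤ s)
    (Y : Finset V) (f : V) (hf : f ∈ Y) (J : Finset V) (O : V → Finset V) (w : V → ℝ)
    (hw : ∀ v, 0 ≤ w v) (hO : ∀ v ∈ J, O v ⊆ Y ∧ ∀ a ∈ O v, ∀ b ∈ O v, Reach G l (O v) a b s)
    (sV sW : ℝ) (hsV : 0 ≤ sV) (hsW : 0 ≤ sW) (hV : vol c l Y ≤ n * sV)
    (hW : ∑ v ∈ J, w v ≤ n * sW) :
    ∃ B ⊆ Y, Rad G l B f (18 * lam * s) ∧
      (s : ℝ) * ∑ x ∈ B, ∑ y ∈ Y \ B, (if l x y < s then c x y else 0) ≤ (vol c l B + sV) / 4 ∧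
      ∑ v ∈ J.filter (fun v => ¬ Disjoint (O v) B ∧ ¬ O v ⊆ B), w v ≤
        (∑ v ∈ J.filter (fun v => ¬ Disjoint (O v) B ∧ O v ⊆ B), w v + sW) / 4 := by
  have hc := hN.c_nonneg
  have htouch : ∀ {r r' : ℕ}, r ≤ r' →
      J.filter (fun v => ¬ Disjoint (O v) (sball G l Y f r)) ⊆
        J.filter (fun v => ¬ Disjoint (O v) (sball G l Y f r')) := by
    intro r r' h v hv
    exact mem_filter.2 ⟨(mem_filter.1 hv).1, fun hd =>
      (mem_filter.1 hv).2 (hd.mono_right (sball_mono h))⟩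
  obtain ⟨k, hk, h1, h2⟩ := exists_good_index lam n hn
    (fun k => vol c l (sball G l Y f (2 * k * s + s)))
    (fun k => ∑ v ∈ J.filter (fun v => ¬ Disjoint (O v) (sball G l Y f (2 * k * s))), w v) sV sW
    (fun k => vol_nonneg hc _)
    (fun k k' h => vol_mono hc (sball_mono (by
      have := Nat.mul_le_mul_right s (Nat.mul_le_mul_left 2 h); omega)))
    (fun k => (vol_mono hc sball_sub).trans hV) hsV
    (fun k => sum_nonneg fun v _ => hw v)
    (fun k k' h => sum_le_sum_of_subset_of_nonneg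
      (htouch (Nat.mul_le_mul_right s (Nat.mul_le_mul_left 2 h))) fun v _ _ => hw v)
    (fun k => (sum_le_sum_of_subset_of_nonneg (filter_subset _ _) fun v _ _ => hw v).trans hW) hsW
  obtain ⟨r, hr1, hr2, h3⟩ := sball_cut hN Y f (2 * k * s + s) s hs
  have e1 : 2 * (k + 1) * s + s = 2 * k * s + s + 2 * s := by ring
  have e2 : 2 * (k + 1) * s = 2 * k * s + s + s := by ring
  rw [e1] at h1
  rw [e2] at h2
  refine ⟨sball G l Y f r, sball_sub, ⟨mem_sball.2 (Reach.base _ hf), r, ?_, fun x hx =>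
    (mem_sball.1 hx).inBall le_rfl⟩, ?_, ?_⟩
  · have a1 : 2 * k * s ≤ 16 * lam * s := Nat.mul_le_mul_right s (by omega)
    have a2 : 2 * s ≤ 2 * lam * s := Nat.mul_le_mul_right s (by omega)
    have a3 : 18 * lam * s = 16 * lam * s + 2 * lam * s := by ring
    omega
  · have := vol_mono (l := l) hc (sball_mono (G := G) (l := l) (Y := Y) (f := f) hr1)
    linarith
  · have b1 : ∑ v ∈ J.filter (fun v => ¬ Disjoint (O v) (sball G l Y f (2 * k * s))), w v ≤
        ∑ v ∈ J.filter (fun v => ¬ Disjoint (O v) (sball G l Y f r) ∧ O v ⊆ sball G l Y f r),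
          w v := by
      refine sum_le_sum_of_subset_of_nonneg (fun v hv => ?_) fun v _ _ => hw v
      obtain ⟨hvJ, hd⟩ := mem_filter.1 hv
      refine mem_filter.2 ⟨hvJ, fun hd' => hd (hd'.mono_right (sball_mono (by omega))),
        fun z hz => ?_⟩
      obtain ⟨u, hu, hu'⟩ := not_disjoint_iff.1 hd
      exact mem_sball.2 (((mem_sball.1 hu').trans
        (((hO v hvJ).2 u hu z hz).monoS (hO v hvJ).1)).mono hr1)
    have b2 : ∑ v ∈ J.filter (fun v => ¬ Disjoint (O v) (sball G l Y f r)), w v ≤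
        ∑ v ∈ J.filter (fun v => ¬ Disjoint (O v) (sball G l Y f (2 * k * s + s + s))), w v :=
      sum_le_sum_of_subset_of_nonneg (htouch hr2.le) fun v _ _ => hw v
    have b3 := sum_filter_add_sum_filter_not
      (J.filter (fun v => ¬ Disjoint (O v) (sball G l Y f r))) (fun v => O v ⊆ sball G l Y f r) w
    rw [filter_filter, filter_filter] at b3
    linarith

end Pool.Agent.MP_d3be90_lc

end

section

set_option autoImplicit false

open Finset
open scoped Classical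

namespace Pool.Agent.MP_d3be90_lc

variable {V : Type}

theorem exists_phase {G : SimpleGraph V} {c ρ : V → V → ℝ} {l : V → V → ℕ} (hN : Net G c l ρ)
    (lam n s : ℕ) (hlam : 1 ≤ lam) (hn : n < 2 ^ lam) (hs : 1 ≤ s)
    (O : V → Finset V) (w : V → ℝ) (hw : ∀ v, 0 ≤ w v)
    (sV sW : ℝ) (hsV : 0 ≤ sV) (hsW : 0 ≤ sW)
    (Y F : Finset V) (hF : F ⊆ Y) (J : Finset V)
    (hO : ∀ v ∈ J, O v ⊆ Y ∧ ∀ a ∈ O v, ∀ b ∈ O v, Reach G l (O v) a b s)
    (hOF : ∀ v ∈ J, ¬ Disjoint (O v) F)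
    (hV : vol c l Y ≤ n * sV) (hW : ∑ v ∈ J, w v ≤ n * sW) :
    ∃ (X : Finset V) (ctr : V → V), F ⊆ X ∧ X ⊆ Y ∧
      (∀ x ∈ X, ctr x ∈ F ∧ ctr (ctr x) = ctr x ∧ Rad G l (cls X ctr x) (ctr x) (18 * lam * s)) ∧
      (s : ℝ) * ∑ x ∈ Y, ∑ y ∈ Y, (if l x y < s ∧ (x ∈ X ∨ y ∈ X) ∧
          ¬ (x ∈ X ∧ y ∈ X ∧ ctr x = ctr y) then c x y else 0) + vol c l (Y \ X) / 2 ≤
        (vol c l Y + X.card * sV) / 2 ∧
      ∑ v ∈ J.filter (fun v => ¬ O v ⊆ X), w v ≤ (∑ v ∈ J, w v + X.card * sW) / 4 := by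
  induction h : F.card using Nat.strong_induction_on generalizing Y F J with
  | _ m ih =>
  rcases F.eq_empty_or_nonempty with rfl | ⟨f, hf⟩
  · have hJ : J = ∅ := eq_empty_of_forall_notMem fun v hv => hOF v hv (disjoint_empty_right _)
    subst hJ
    exact ⟨∅, id, Subset.rfl, empty_subset _, by simp, by simp, by simp⟩
  obtain ⟨B, hBY, hR, hcut, hsp⟩ :=
    exists_ball hN lam n s hlam hn hs Y f (hF hf) J O w hw hO sV sW hsV hsW hV hW
  have hfB : f ∈ B := hR.1
  have hcard : (F \ B).card < m := by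
    rw [← h]
    exact card_lt_card ⟨sdiff_subset, fun e => (mem_sdiff.1 (e hf)).2 hfB⟩
  obtain ⟨X', ctr', h1, h2, h3, h4, h5⟩ := ih _ hcard (Y \ B) (F \ B)
    (sdiff_subset_sdiff hF Subset.rfl) (J.filter fun v => Disjoint (O v) B)
    (fun v hv => ⟨subset_sdiff.2 ⟨(hO v (mem_filter.1 hv).1).1, (mem_filter.1 hv).2⟩,
      (hO v (mem_filter.1 hv).1).2⟩)
    (fun v hv e => by
      obtain ⟨a, ha, ha'⟩ := not_disjoint_iff.1 (hOF v (mem_filter.1 hv).1)
      exact disjoint_left.1 e ha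
        (mem_sdiff.2 ⟨ha', disjoint_left.1 (mem_filter.1 hv).2 ha⟩))
    ((vol_mono hN.c_nonneg sdiff_subset).trans hV)
    ((sum_le_sum_of_subset_of_nonneg (filter_subset _ _) fun v _ _ => hw v).trans hW) rfl
  have hXB : ∀ x ∈ X', x ∉ B := fun x hx => (mem_sdiff.1 (h2 hx)).2
  have hmem : ∀ x, x ∉ B → (x ∈ B ∪ X' ↔ x ∈ X') := fun x hx =>
    mem_union.trans ⟨fun e => e.resolve_left hx, Or.inr⟩
  have hne : ∀ x ∈ X', ctr' x ∉ B := fun x hx => (mem_sdiff.1 (h3 x hx).1).2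
  have hc : ((X'.card : ℝ) + 1) ≤ ((B ∪ X').card : ℝ) := by
    have e : (B ∪ X').card = B.card + X'.card :=
      card_union_of_disjoint (disjoint_right.2 hXB)
    have e' : 1 ≤ B.card := card_pos.2 ⟨f, hfB⟩
    have : X'.card + 1 ≤ (B ∪ X').card := by omega
    exact_mod_cast this
  obtain ⟨ctr, c1, c2⟩ : ∃ ctr : V → V, (∀ y ∈ B, ctr y = f) ∧ ∀ y, y ∉ B → ctr y = ctr' y :=
    ⟨fun y => if y ∈ B then f else ctr' y, fun y hy => if_pos hy, fun y hy => if_neg hy⟩
  refine ⟨B ∪ X', ctr, fun x hx => ?_, union_subset hBY (h2.trans sdiff_subset),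
    fun x hx => ?_, ?_, ?_⟩
  · by_cases hB : x ∈ B
    · exact mem_union_left _ hB
    · exact mem_union_right _ (h1 (mem_sdiff.2 ⟨hx, hB⟩))
  · by_cases hB : x ∈ B
    · have e : cls (B ∪ X') ctr x = B := by
        ext y
        rw [mem_cls, c1 x hB]
        refine ⟨fun ⟨hy, e⟩ => ?_, fun hy => ⟨mem_union_left _ hy, c1 y hy⟩⟩
        by_contra hy'
        rw [c2 y hy'] at e
        exact hne y ((hmem y hy').1 hy) (e ▸ hfB)
      rw [e, c1 x hB]
      exact ⟨hf, c1 f hfB, hR⟩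
    · have hx' := (hmem x hB).1 hx
      have e : cls (B ∪ X') ctr x = cls X' ctr' x := by
        ext y
        rw [mem_cls, mem_cls, c2 x hB]
        refine ⟨fun ⟨hy, e⟩ => ?_, fun ⟨hy, e⟩ =>
          ⟨mem_union_right _ hy, (c2 y (hXB y hy)).trans e⟩⟩
        have hy' : y ∉ B := fun hy' => hne x hx' (e ▸ (c1 y hy').symm ▸ hfB)
        exact ⟨(hmem y hy').1 hy, (c2 y hy').symm.trans e⟩
      rw [e, c2 x hB, c2 _ (hne x hx')]
      exact ⟨(mem_sdiff.1 (h3 x hx').1).1, (h3 x hx').2⟩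
  · obtain ⟨g, hg⟩ : ∃ g : V → V → ℝ, ∀ x y, g x y = if l x y < s ∧ (x ∈ B ∪ X' ∨ y ∈ B ∪ X') ∧
        ¬ (x ∈ B ∪ X' ∧ y ∈ B ∪ X' ∧ ctr x = ctr y) then c x y else 0 := ⟨_, fun _ _ => rfl⟩
    simp only [← hg]
    have gle : ∀ x y, g x y ≤ if l x y < s then c x y else 0 := fun x y => by
      rw [hg]
      split_ifs with p q q
      · exact le_rfl
      · exact absurd p.1 q
      · exact hN.c_nonneg x y
      · exact le_rfl
    have e0 : ∑ x ∈ B, ∑ y ∈ B, g x y = 0 :=
      sum_eq_zero fun x hx => sum_eq_zero fun y hy => by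
        rw [hg, if_neg]
        exact fun p => p.2.2 ⟨mem_union_left _ hx, mem_union_left _ hy,
          (c1 x hx).trans (c1 y hy).symm⟩
    have e1 : ∑ x ∈ B, ∑ y ∈ Y \ B, g x y ≤
        ∑ x ∈ B, ∑ y ∈ Y \ B, (if l x y < s then c x y else 0) :=
      sum_le_sum fun x _ => sum_le_sum fun y _ => gle x y
    have e2 : ∑ x ∈ Y \ B, ∑ y ∈ B, g x y ≤
        ∑ x ∈ B, ∑ y ∈ Y \ B, (if l x y < s then c x y else 0) := by
      rw [sum_comm]
      refine sum_le_sum fun x _ => sum_le_sum fun y _ => ?_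
      rw [hN.l_symm x y, hN.c_symm x y]
      exact gle y x
    have e3 : ∑ x ∈ Y \ B, ∑ y ∈ Y \ B, g x y =
        ∑ x ∈ Y \ B, ∑ y ∈ Y \ B, (if l x y < s ∧ (x ∈ X' ∨ y ∈ X') ∧
          ¬ (x ∈ X' ∧ y ∈ X' ∧ ctr' x = ctr' y) then c x y else 0) :=
      sum_congr rfl fun x hx => sum_congr rfl fun y hy => by
        have hx' := (mem_sdiff.1 hx).2
        have hy' := (mem_sdiff.1 hy).2
        rw [hg, c2 x hx', c2 y hy']
        exact if_congr (by rw [hmem x hx', hmem y hy']) rfl rfl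
    have e4 : ∑ x ∈ Y, ∑ y ∈ Y, g x y = (∑ x ∈ Y \ B, ∑ y ∈ Y \ B, g x y +
        ∑ x ∈ Y \ B, ∑ y ∈ B, g x y) + (∑ x ∈ B, ∑ y ∈ Y \ B, g x y +
        ∑ x ∈ B, ∑ y ∈ B, g x y) := by
      rw [← sum_add_distrib, ← sum_add_distrib, ← sum_sdiff hBY]
      congr 1 <;> exact sum_congr rfl fun x _ => (sum_sdiff hBY).symm
    have e5 : Y \ (B ∪ X') = (Y \ B) \ X' := by
      ext y
      simp only [mem_sdiff, mem_union, not_or, and_assoc]
    have e6 := vol_add_sdiff_le (l := l) hN.c_nonneg hBY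
    have hs0 : (0 : ℝ) ≤ s := Nat.cast_nonneg _
    have e7 := mul_le_mul_of_nonneg_left e1 hs0
    have e8 := mul_le_mul_of_nonneg_left e2 hs0
    have e9 := mul_le_mul_of_nonneg_right hc hsV
    rw [e4, e5, e0, e3]
    linarith
  · have e1 : ∑ v ∈ J.filter (fun v => ¬ O v ⊆ B ∪ X'), w v ≤
        ∑ v ∈ J.filter (fun v => ¬ Disjoint (O v) B ∧ ¬ O v ⊆ B), w v +
        ∑ v ∈ (J.filter fun v => Disjoint (O v) B).filter (fun v => ¬ O v ⊆ X'), w v := by
      rw [filter_filter, sum_filter, sum_filter, sum_filter, ← sum_add_distrib]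
      refine sum_le_sum fun v _ => ?_
      have := hw v
      by_cases p : O v ⊆ B ∪ X'
      · rw [if_neg (not_not.2 p)]
        exact add_nonneg (by split_ifs <;> linarith) (by split_ifs <;> linarith)
      rw [if_pos p]
      by_cases q : Disjoint (O v) B
      · rw [if_neg fun e => e.1 q, if_pos ⟨q, fun e => p (e.trans subset_union_right)⟩, zero_add]
      · rw [if_pos ⟨q, fun e => p (e.trans subset_union_left)⟩, if_neg fun e => q e.1, add_zero]
    have e2 : ∑ v ∈ J.filter (fun v => ¬ Disjoint (O v) B ∧ O v ⊆ B), w v +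
        ∑ v ∈ J.filter (fun v => Disjoint (O v) B), w v ≤ ∑ v ∈ J, w v := by
      rw [sum_filter, sum_filter, ← sum_add_distrib]
      refine sum_le_sum fun v _ => ?_
      have := hw v
      by_cases q : Disjoint (O v) B
      · rw [if_neg fun e => e.1 q, if_pos q, zero_add]
      · rw [if_neg q, add_zero]
        split_ifs <;> linarith
    have e9 := mul_le_mul_of_nonneg_right hc hsW
    linarith

end Pool.Agent.MP_d3be90_lc

end

section

set_option autoImplicit false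

open Finset
open scoped Classical

namespace Pool.Agent.MP_d3be90_lc

variable {V : Type}

lemma SCarve_sub {Y Y' : Finset V} (h : Y' ⊆ Y) (t : V → V → ℝ) :
    ∑ x ∈ Y, ∑ y ∈ Y, (if x ∈ Y' ∧ y ∈ Y' then t x y else 0) = ∑ x ∈ Y', ∑ y ∈ Y', t x y := by
  rw [← sum_subset h fun x _ hx => sum_eq_zero fun y _ => if_neg fun e => hx e.1]
  refine sum_congr rfl fun x hx => ?_
  rw [← sum_subset h fun y _ hy => if_neg fun e => hy e.2]
  exact sum_congr rfl fun y hy => if_pos ⟨hx, hy⟩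

theorem SCarve_aux {G : SimpleGraph V} {c ρ : V → V → ℝ} {l : V → V → ℕ} (hN : Net G c l ρ)
    (lam n s : ℕ) (hlam : 1 ≤ lam) (hn : n < 2 ^ lam) (hs : 1 ≤ s) (hn1 : 1 ≤ n)
    (sV : ℝ) (hsV : 0 ≤ sV) (h : ℕ) :
    ∀ (Y F : Finset V) (e : V → ℕ), F ⊆ Y → (∀ v ∈ Y, ∃ f ∈ F, Reach G l Y f v (e v * s)) →
      ∑ v ∈ Y, (2 : ℝ) ^ e v < (4 / 3) ^ h → vol c l Y ≤ n * sV → Y.card ≤ n →
      ∃ (ctr : V → V) (ph : V → ℕ),
        (∀ x ∈ Y, ctr x ∈ Y ∧ ctr (ctr x) = ctr x ∧
          Rad G l (cls Y ctr x) (ctr x) (18 * lam * s) ∧ ph (ctr x) < h ∧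
          (ctr x ∈ F ∨ ∃ x' ∈ Y, ∃ y ∈ Y, ctr x' = ctr x ∧ G.Adj x' y ∧ ph (ctr y) < ph (ctr x))) ∧
        (s : ℝ) * ∑ x ∈ Y, ∑ y ∈ Y, (if l x y < s ∧ ctr x ≠ ctr y then c x y else 0) ≤
          (vol c l Y + Y.card * sV) / 2 := by
  induction h with
  | zero =>
    intro Y F e _ _ hm _ _
    have hY : Y = ∅ := by
      by_contra hne
      obtain ⟨v, hv⟩ := nonempty_iff_ne_empty.2 hne
      have h1 : (2 : ℝ) ^ e v ≤ ∑ v ∈ Y, (2 : ℝ) ^ e v :=
        single_le_sum (f := fun v => (2 : ℝ) ^ e v) (fun _ _ => by positivity) hv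
      have h2 : (1 : ℝ) ≤ 2 ^ e v := one_le_pow₀ (by norm_num)
      rw [pow_zero] at hm
      linarith
    subst hY
    exact ⟨id, fun _ => 0, fun x hx => absurd hx (notMem_empty x), by simp [vol]⟩
  | succ h ih =>
    intro Y F e hF hw hm hV hc
    have hOex : ∀ v, ∃ O : Finset V, v ∈ Y → O ⊆ Y ∧
        (∃ f ∈ F, f ∈ O ∧ Reach G l Y f v (e v * s)) ∧ (∀ a ∈ O, ∀ b ∈ O, Reach G l O a b s) ∧
        (v ∈ O ∨ ∃ z ∈ O, ∃ z', G.Adj z z' ∧ ∃ r', r' + s ≤ e v * s ∧ Reach G l Y z' v r') := by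
      intro v
      by_cases hv : v ∈ Y
      · obtain ⟨f, hf, hr⟩ := hw v hv
        obtain ⟨O, h1, h2, h3, h4⟩ := hr.split hN.l_symm s
        exact ⟨O, fun _ => ⟨h1, ⟨f, hf, h2, hr⟩, h3, h4⟩⟩
      · exact ⟨∅, fun hv' => absurd hv' hv⟩
    choose O hO using hOex
    have hnp : (0 : ℝ) < n := Nat.cast_pos.2 hn1
    set W : ℝ := ∑ v ∈ Y, (2 : ℝ) ^ e v with hW
    have hW0 : 0 ≤ W := sum_nonneg fun _ _ => by positivity
    obtain ⟨X, cX, hFX, hXY, h3, h4, h5⟩ := exists_phase hN lam n s hlam hn hs O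
      (fun v => (2 : ℝ) ^ e v) (fun _ => by positivity) sV (W / n) hsV (by positivity) Y F hF Y
      (fun v hv => ⟨(hO v hv).1, (hO v hv).2.2.1⟩)
      (fun v hv hd => by
        obtain ⟨f, hf, hf', -⟩ := (hO v hv).2.1
        exact disjoint_left.1 hd hf' hf)
      hV (by rw [mul_div_cancel₀ _ hnp.ne'])
    have hXn : (X.card : ℝ) ≤ n := Nat.cast_le.2 ((card_le_card hXY).trans hc)
    have hsp : ∑ v ∈ Y.filter (fun v => ¬ O v ⊆ X), (2 : ℝ) ^ e v ≤ W / 2 := by
      have h6 : (X.card : ℝ) * (W / n) ≤ n * (W / n) :=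
        mul_le_mul_of_nonneg_right hXn (by positivity)
      rw [mul_div_cancel₀ _ hnp.ne'] at h6
      linarith
    have hsplit : ∀ v ∈ Y \ X, O v ⊆ X →
        ∃ z ∈ X, ∃ z', G.Adj z z' ∧ ∃ r', r' + s ≤ e v * s ∧ Reach G l Y z' v r' := by
      intro v hv hOX
      obtain ⟨hv1, hv2⟩ := mem_sdiff.1 hv
      rcases (hO v hv1).2.2.2 with h6 | ⟨z, hz, h6⟩
      · exact absurd (hOX h6) hv2
      · exact ⟨z, hOX hz, h6⟩
    obtain ⟨c', ph', h6, h7⟩ := ih (Y \ X) ((Y \ X).filter fun y => ∃ z ∈ X, G.Adj z y)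
      (fun v => if O v ⊆ X then e v - 1 else e v) (filter_subset _ _)
      (fun v hv => by
        obtain ⟨hv1, hv2⟩ := mem_sdiff.1 hv
        by_cases hOX : O v ⊆ X
        · obtain ⟨z, hz, z', hzz, r', hr', hr⟩ := hsplit v hv hOX
          have hle : r' ≤ (e v - 1) * s := by
            rw [Nat.sub_one_mul]
            omega
          simp only [if_pos hOX]
          rcases hr.exit X hv2 with q | ⟨y, hy, hy', q⟩
          · exact ⟨z', mem_filter.2 ⟨q.first, z, hz, hzz⟩, q.mono hle⟩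
          · exact ⟨y, mem_filter.2 ⟨hy, hy'⟩, q.mono hle⟩
        · obtain ⟨f, hf, -, hr⟩ := (hO v hv1).2.1
          simp only [if_neg hOX]
          rcases hr.exit X hv2 with q | ⟨y, hy, hy', q⟩
          · exact absurd (hFX hf) (mem_sdiff.1 q.first).2
          · exact ⟨y, mem_filter.2 ⟨hy, hy'⟩, q⟩)
      (by
        have e1 : ∑ v ∈ Y \ X, (2 : ℝ) ^ (if O v ⊆ X then e v - 1 else e v) ≤
            ∑ v ∈ Y \ X, ((2 : ℝ) ^ e v / 2 + if ¬ O v ⊆ X then (2 : ℝ) ^ e v / 2 else 0) := by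
          refine sum_le_sum fun v hv => ?_
          by_cases hOX : O v ⊆ X
          · obtain ⟨z, hz, z', hzz, r', hr', hr⟩ := hsplit v hv hOX
            have hpos : 1 ≤ e v := by
              rcases Nat.eq_zero_or_pos (e v) with h0 | h0
              · rw [h0] at hr'
                omega
              · exact h0
            rw [if_pos hOX, if_neg (not_not.2 hOX), add_zero]
            obtain ⟨k, hk⟩ : ∃ k, e v = k + 1 := ⟨e v - 1, by omega⟩
            rw [hk, Nat.add_sub_cancel, pow_succ]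
            linarith
          · rw [if_neg hOX, if_pos hOX]
            linarith
        have e2 : ∑ v ∈ Y \ X, ((2 : ℝ) ^ e v / 2 + if ¬ O v ⊆ X then (2 : ℝ) ^ e v / 2 else 0) ≤
            ∑ v ∈ Y, ((2 : ℝ) ^ e v / 2 + if ¬ O v ⊆ X then (2 : ℝ) ^ e v / 2 else 0) :=
          sum_le_sum_of_subset_of_nonneg sdiff_subset fun v _ _ => by
            split_ifs <;> positivity
        have e3 := e1.trans e2
        rw [sum_add_distrib, ← sum_filter, ← sum_div, ← sum_div, ← hW] at e3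
        rw [pow_succ] at hm
        linarith)
      ((vol_mono hN.c_nonneg sdiff_subset).trans hV) ((card_le_card sdiff_subset).trans hc)
    have hin : ∀ x ∈ X, cX x ∈ X := fun x hx => hFX (h3 x hx).1
    have hout : ∀ x ∈ Y, x ∉ X → c' x ∉ X := fun x hx hx' =>
      (mem_sdiff.1 (h6 x (mem_sdiff.2 ⟨hx, hx'⟩)).1).2
    refine ⟨fun x => if x ∈ X then cX x else c' x, fun v => if v ∈ X then 0 else ph' v + 1,
      fun x hx => ?_, ?_⟩
    · by_cases hxX : x ∈ X
      · have hcl : cls Y (fun x => if x ∈ X then cX x else c' x) x = cls X cX x := by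
          ext y
          simp only [mem_cls, if_pos hxX]
          constructor
          · rintro ⟨hy, q⟩
            by_cases hyX : y ∈ X
            · rw [if_pos hyX] at q
              exact ⟨hyX, q⟩
            · rw [if_neg hyX] at q
              exact absurd (q ▸ hin x hxX) (hout y hy hyX)
          · rintro ⟨hy, q⟩
            exact ⟨hXY hy, by rw [if_pos hy, q]⟩
        simp only [hcl, if_pos hxX, if_pos (hin x hxX)]
        exact ⟨hXY (hin x hxX), (h3 x hxX).2.1, (h3 x hxX).2.2, Nat.succ_pos _,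
          Or.inl (h3 x hxX).1⟩
      · have hx' : x ∈ Y \ X := mem_sdiff.2 ⟨hx, hxX⟩
        have hcl : cls Y (fun x => if x ∈ X then cX x else c' x) x = cls (Y \ X) c' x := by
          ext y
          simp only [mem_cls, if_neg hxX]
          constructor
          · rintro ⟨hy, q⟩
            by_cases hyX : y ∈ X
            · rw [if_pos hyX] at q
              exact absurd (q ▸ hin y hyX) (hout x hx hxX)
            · rw [if_neg hyX] at q
              exact ⟨mem_sdiff.2 ⟨hy, hyX⟩, q⟩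
          · rintro ⟨hy, q⟩
            exact ⟨(mem_sdiff.1 hy).1, by rw [if_neg (mem_sdiff.1 hy).2, q]⟩
        obtain ⟨q1, q2, q3, q4, q5⟩ := h6 x hx'
        simp only [hcl, if_neg hxX, if_neg (hout x hx hxX)]
        refine ⟨(mem_sdiff.1 q1).1, q2, q3, Nat.succ_lt_succ q4, Or.inr ?_⟩
        rcases q5 with q5 | ⟨x', hx1, y, hy1, q5, q6, q7⟩
        · obtain ⟨z, hz, hzz⟩ := (mem_filter.1 q5).2
          refine ⟨c' x, (mem_sdiff.1 q1).1, z, hXY hz, ?_, hzz.symm, ?_⟩
          · rw [if_neg (hout x hx hxX), q2]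
          · rw [if_pos hz, if_pos (hin z hz)]
            exact Nat.succ_pos _
        · obtain ⟨a1, a2⟩ := mem_sdiff.1 hx1
          obtain ⟨b1, b2⟩ := mem_sdiff.1 hy1
          refine ⟨x', a1, y, b1, ?_, q6, ?_⟩
          · rw [if_neg a2, q5]
          · rw [if_neg b2, if_neg (hout y b1 b2)]
            exact Nat.succ_lt_succ q7
    · have e1 : ∑ x ∈ Y, ∑ y ∈ Y, (if l x y < s ∧ (if x ∈ X then cX x else c' x) ≠
            (if y ∈ X then cX y else c' y) then c x y else 0) ≤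
          ∑ x ∈ Y, ∑ y ∈ Y, (if l x y < s ∧ (x ∈ X ∨ y ∈ X) ∧
            ¬ (x ∈ X ∧ y ∈ X ∧ cX x = cX y) then c x y else 0) +
          ∑ x ∈ Y \ X, ∑ y ∈ Y \ X, (if l x y < s ∧ c' x ≠ c' y then c x y else 0) := by
        rw [← SCarve_sub (Y := Y) (Y' := Y \ X) sdiff_subset, ← sum_add_distrib]
        refine sum_le_sum fun x hx => ?_
        rw [← sum_add_distrib]
        refine sum_le_sum fun y hy => ?_
        have hc0 := hN.c_nonneg x y
        by_cases hl : l x y < s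
        · by_cases hxX : x ∈ X <;> by_cases hyX : y ∈ X <;>
            simp only [hl, hxX, hyX, hx, hy, mem_sdiff, true_and, and_true, true_or, or_true,
              false_and, and_false, or_self, not_true, not_false_eq_true, if_true, if_false,
              add_zero, zero_add, ne_eq, le_refl] <;>
            split_ifs <;> linarith
        · simp only [hl, false_and, if_false, ite_self, add_zero, le_refl]
      have e2 : ((Y \ X).card : ℝ) + X.card = Y.card := by
        exact_mod_cast card_sdiff_add_card_eq_card hXY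
      have e3 := mul_le_mul_of_nonneg_left e1 (Nat.cast_nonneg (α := ℝ) s)
      rw [mul_add] at e3
      rw [← e2, add_mul]
      linarith

theorem carve {G : SimpleGraph V} {c ρ : V → V → ℝ} {l : V → V → ℕ} (hN : Net G c l ρ)
    (lam n s : ℕ) (hlam : 1 ≤ lam) (hn : n < 2 ^ lam) (hs : 1 ≤ s)
    (C : Finset V) (hC : C.card ≤ n) (a : V) (hR : Rad G l C a (36 * lam * s)) :
    ∃ (ctr : V → V) (ph : V → ℕ),
      (∀ x ∈ C, ctr x ∈ C ∧ ctr (ctr x) = ctr x ∧ Rad G l (cls C ctr x) (ctr x) (18 * lam * s) ∧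
        ph (ctr x) < 111 * lam ∧
        (ctr x = a ∨ ∃ x' ∈ C, ∃ y ∈ C, ctr x' = ctr x ∧ G.Adj x' y ∧ ph (ctr y) < ph (ctr x))) ∧
      (s : ℝ) * ∑ x ∈ C, ∑ y ∈ C, (if ctr x = ctr y then 0 else c x y) ≤ 2 * vol c l C := by
  obtain ⟨ha, r, hr, hw⟩ := hR
  have hn1 : 1 ≤ n := (card_pos.2 ⟨a, ha⟩).trans_le hC
  have hnp : (0 : ℝ) < n := Nat.cast_pos.2 hn1
  have hv := vol_nonneg (l := l) hN.c_nonneg C
  have hCn : (C.card : ℝ) ≤ n := Nat.cast_le.2 hC
  obtain ⟨ctr, ph, h1, h2⟩ := SCarve_aux hN lam n s hlam hn hs hn1 (vol c l C / n)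
    (by positivity) (111 * lam) C {a} (fun _ => 36 * lam) (singleton_subset_iff.2 ha)
    (fun v hv => ⟨a, mem_singleton_self a, (hw v hv).mono hr.le⟩)
    (by
      rw [sum_const, nsmul_eq_mul]
      have e1 : (n : ℝ) < 2 ^ lam := by exact_mod_cast hn
      have e2 : (2 : ℝ) ^ (37 * lam) ≤ (4 / 3) ^ (111 * lam) := by
        rw [show 111 * lam = 3 * (37 * lam) by ring, pow_mul (4 / 3 : ℝ)]
        exact pow_le_pow_left₀ (by norm_num) (by norm_num) _
      have e3 : (0 : ℝ) < 2 ^ (36 * lam) := by positivity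
      refine lt_of_lt_of_le ?_ e2
      rw [show 37 * lam = lam + 36 * lam by ring, pow_add]
      exact mul_lt_mul_of_pos_right (hCn.trans_lt e1) e3)
    (by rw [mul_div_cancel₀ _ hnp.ne']) hC
  refine ⟨ctr, ph, fun x hx => ?_, ?_⟩
  · obtain ⟨q1, q2, q3, q4, q5⟩ := h1 x hx
    exact ⟨q1, q2, q3, q4, q5.imp_left mem_singleton.1⟩
  · have e1 : (C.card : ℝ) * (vol c l C / n) ≤ n * (vol c l C / n) :=
      mul_le_mul_of_nonneg_right hCn (by positivity)
    rw [mul_div_cancel₀ _ hnp.ne'] at e1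
    have e2 : (s : ℝ) * ∑ x ∈ C, ∑ y ∈ C, (if ctr x = ctr y then 0 else c x y) ≤
        (s : ℝ) * ∑ x ∈ C, ∑ y ∈ C, (if l x y < s ∧ ctr x ≠ ctr y then c x y else 0) +
          vol c l C := by
      rw [vol, mul_sum, mul_sum, ← sum_add_distrib]
      refine sum_le_sum fun x _ => ?_
      rw [mul_sum, mul_sum, ← sum_add_distrib]
      refine sum_le_sum fun y _ => ?_
      have hc0 := hN.c_nonneg x y
      have hl0 : (0 : ℝ) ≤ c x y * l x y := mul_nonneg hc0 (Nat.cast_nonneg _)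
      by_cases hxy : ctr x = ctr y
      · rw [if_pos hxy, if_neg fun e => e.2 hxy]
        linarith
      · rw [if_neg hxy]
        by_cases hl : l x y < s
        · rw [if_pos ⟨hl, hxy⟩]
          linarith
        · rw [if_neg fun e => hl e.1]
          have h3 : (s : ℝ) ≤ l x y := Nat.cast_le.2 (not_lt.1 hl)
          have h4 := mul_le_mul_of_nonneg_left h3 hc0
          linarith
    linarith

end Pool.Agent.MP_d3be90_lc

end

section

set_option autoImplicit false

open Finset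
open scoped Classical

namespace Pool.Agent.MP_d3be90_lc

variable {V : Type}

lemma SHier_short {G : SimpleGraph V} {l : V → V → ℕ} {S : Finset V} {a x : V} {r m : ℕ}
    (hl : ∀ x y, G.Adj x y → m ≤ l x y) (h : Reach G l S a x r) (hr : r < m) : x = a := by
  cases h with
  | base _ _ => rfl
  | step _ hxy _ => have := hl _ _ hxy; omega

lemma SHier_cls {C : Finset V} {ctr : V → V} {x y : V} (h : ctr x = ctr y) :
    cls C ctr x = cls C ctr y := by
  unfold cls
  rw [h]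

lemma SHier_cls_subset (C : Finset V) (ctr : V → V) (x : V) : cls C ctr x ⊆ C :=
  filter_subset _ _

lemma SHier_bd_nonneg {c : V → V → ℝ} (hc : ∀ x y, 0 ≤ c x y) (S T : Finset V) :
    0 ≤ ∑ y ∈ S, ∑ z ∈ T, c y z :=
  sum_nonneg fun y _ => sum_nonneg fun z _ => hc y z

/-- the sum of the bounds of the children -/
lemma SHier_sum {c : V → V → ℝ} {l : V → V → ℕ} (hc : ∀ x y, 0 ≤ c x y) (W C : Finset V)
    (hC : C ⊆ W) (ctr : V → V) (hid : ∀ x ∈ C, ctr (ctr x) = ctr x) (α β γ : ℝ) (hα : 0 ≤ α) :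
    ∑ b ∈ C.image ctr, (α * vol c l (cls C ctr b) +
        β * ∑ y ∈ cls C ctr b, ∑ z ∈ W \ cls C ctr b, c y z + γ * (cls C ctr b).card) ≤
      α * vol c l C + β * (∑ y ∈ C, ∑ z ∈ W \ C, c y z +
        ∑ x ∈ C, ∑ y ∈ C, (if ctr x = ctr y then 0 else c x y)) + γ * C.card := by
  set f : V → ℝ := fun y => α * ∑ z ∈ cls C ctr y, c y z * (l y z : ℝ) +
    β * ∑ z ∈ W \ cls C ctr y, c y z + γ with hf
  have h1 : ∀ b ∈ C.image ctr, α * vol c l (cls C ctr b) +
      β * ∑ y ∈ cls C ctr b, ∑ z ∈ W \ cls C ctr b, c y z + γ * (cls C ctr b).card =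
      ∑ y ∈ C.filter (fun y => ctr y = b), f y := by
    intro b hb
    obtain ⟨x, hx, rfl⟩ := mem_image.1 hb
    have e : C.filter (fun y => ctr y = ctr x) = cls C ctr (ctr x) := by
      unfold cls
      rw [hid x hx]
    rw [e]
    have e2 : ∑ y ∈ cls C ctr (ctr x), f y = ∑ y ∈ cls C ctr (ctr x),
        (α * ∑ z ∈ cls C ctr (ctr x), c y z * (l y z : ℝ) +
          β * ∑ z ∈ W \ cls C ctr (ctr x), c y z + γ) := by
      refine sum_congr rfl fun y hy => ?_
      simp only [hf]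
      rw [SHier_cls (mem_cls.1 hy).2]
    rw [e2, sum_add_distrib, sum_add_distrib, ← mul_sum, ← mul_sum, sum_const, nsmul_eq_mul,
      mul_comm _ γ]
    rfl
  rw [sum_congr rfl h1, sum_fiberwise_of_maps_to fun x hx => mem_image_of_mem ctr hx]
  have h2 : ∀ y ∈ C, f y ≤ α * ∑ z ∈ C, c y z * (l y z : ℝ) +
      β * (∑ z ∈ W \ C, c y z + ∑ z ∈ C, (if ctr y = ctr z then 0 else c y z)) + γ := by
    intro y _
    have a1 : ∑ z ∈ cls C ctr y, c y z * (l y z : ℝ) ≤ ∑ z ∈ C, c y z * (l y z : ℝ) :=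
      sum_le_sum_of_subset_of_nonneg (SHier_cls_subset _ _ _) fun z _ _ =>
        mul_nonneg (hc y z) (Nat.cast_nonneg _)
    have a2 : ∑ z ∈ W \ cls C ctr y, c y z =
        ∑ z ∈ W \ C, c y z + ∑ z ∈ C, (if ctr y = ctr z then 0 else c y z) := by
      have e1 : W \ cls C ctr y = (W \ C) ∪ C.filter (fun z => ¬ ctr y = ctr z) := by
        ext z
        simp only [mem_sdiff, mem_cls, mem_union, mem_filter]
        constructor
        · rintro ⟨h1, h2⟩
          by_cases hz : z ∈ C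
          · exact Or.inr ⟨hz, fun e => h2 ⟨hz, e.symm⟩⟩
          · exact Or.inl ⟨h1, hz⟩
        · rintro (⟨h1, h2⟩ | ⟨h1, h2⟩)
          · exact ⟨h1, fun e => h2 e.1⟩
          · exact ⟨hC h1, fun e => h2 e.2.symm⟩
      rw [e1, sum_union (disjoint_left.2 fun z hz hz' => (mem_sdiff.1 hz).2 (mem_filter.1 hz').1),
        sum_filter]
      congr 1
      refine sum_congr rfl fun z _ => ?_
      by_cases e : ctr y = ctr z <;> simp [e]
    simp only [hf]
    rw [a2]
    have := mul_le_mul_of_nonneg_left a1 hα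
    linarith
  refine (sum_le_sum h2).trans (le_of_eq ?_)
  rw [sum_add_distrib, sum_add_distrib, ← mul_sum, ← mul_sum, sum_add_distrib, sum_const,
    nsmul_eq_mul, mul_comm _ γ]
  rfl

/-- gluing the units of the bad children with the good children -/
lemma SHier_glue {G : SimpleGraph V} {c ρ : V → V → ℝ} {l : V → V → ℕ} (hN : Net G c l ρ)
    (W C : Finset V) (τ : ℝ) (u0 r r' R : ℕ) (a : V) (ctr0 : V → V) (ph : V → ℕ)
    (h0 : ∀ x ∈ C, ctr0 x ∈ C ∧ ctr0 (ctr0 x) = ctr0 x ∧ Rad G l (cls C ctr0 x) (ctr0 x) R ∧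
      ph (ctr0 x) < r' ∧
      (ctr0 x = a ∨ ∃ x' ∈ C, ∃ y ∈ C, ctr0 x' = ctr0 x ∧ G.Adj x' y ∧ ph (ctr0 y) < ph (ctr0 x)))
    (cb : V → V → V) (rb : V → V → ℕ) (Hb : V → Finset V)
    (hb : ∀ b ∈ C, Units G c ρ W (cls C ctr0 b) τ u0 r (cb b) (rb b) (Hb b))
    (Bad : V → Prop)
    (hgood : ∀ b, ¬ Bad b → (R : ℝ) * ∑ y ∈ cls C ctr0 b, ∑ z ∈ W \ cls C ctr0 b, c y z ≤ τ ∧
      2 * (cls C ctr0 b).card ≤ u0) :
    Units G c ρ W C τ u0 (r + r') (fun x => if Bad (ctr0 x) then cb (ctr0 x) x else ctr0 x)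
      (fun y => if Bad (ctr0 y) then rb (ctr0 y) y else r + ph y)
      (insert a (((C.image ctr0).filter Bad).biUnion Hb)) := by
  set ctr : V → V := fun x => if Bad (ctr0 x) then cb (ctr0 x) x else ctr0 x with hctr
  set rk : V → ℕ := fun y => if Bad (ctr0 y) then rb (ctr0 y) y else r + ph y with hrk
  have hK : ∀ x ∈ C, x ∈ cls C ctr0 (ctr0 x) := fun x hx => mem_cls.2 ⟨hx, (h0 x hx).2.1.symm⟩
  have hU : ∀ x ∈ C, Units G c ρ W (cls C ctr0 (ctr0 x)) τ u0 r (cb (ctr0 x)) (rb (ctr0 x))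
      (Hb (ctr0 x)) := fun x hx => hb _ (h0 x hx).1
  have cB : ∀ x, Bad (ctr0 x) → ctr x = cb (ctr0 x) x := fun x h => if_pos h
  have cG : ∀ x, ¬ Bad (ctr0 x) → ctr x = ctr0 x := fun x h => if_neg h
  have F1 : ∀ x ∈ C, ctr x ∈ C ∧ ctr0 (ctr x) = ctr0 x := by
    intro x hx
    by_cases h : Bad (ctr0 x)
    · rw [cB x h]
      have := mem_cls.1 ((hU x hx).mem x (hK x hx))
      exact ⟨this.1, this.2.trans (h0 x hx).2.1⟩
    · rw [cG x h]
      exact ⟨(h0 x hx).1, (h0 x hx).2.1⟩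
  have rB : ∀ x ∈ C, Bad (ctr0 x) → rk (ctr x) = rb (ctr0 x) (cb (ctr0 x) x) := by
    intro x hx h
    simp only [hrk]
    rw [(F1 x hx).2, if_pos h, cB x h]
  have rG : ∀ x ∈ C, ¬ Bad (ctr0 x) → rk (ctr x) = r + ph (ctr0 x) := by
    intro x hx h
    simp only [hrk]
    rw [(F1 x hx).2, if_neg h, cG x h]
  have F2 : ∀ x ∈ C, ∀ y ∈ C, ctr y = ctr x → ctr0 y = ctr0 x := fun x hx y hy e => by
    rw [← (F1 x hx).2, ← (F1 y hy).2, e]
  have clB : ∀ x ∈ C, Bad (ctr0 x) →
      cls C ctr x = cls (cls C ctr0 (ctr0 x)) (cb (ctr0 x)) x := by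
    intro x hx h
    ext y
    simp only [mem_cls]
    constructor
    · rintro ⟨hy, e⟩
      have e0 := F2 x hx y hy e
      refine ⟨⟨hy, e0.trans (h0 x hx).2.1.symm⟩, ?_⟩
      rw [cB x h, cB y (e0 ▸ h), e0] at e
      exact e
    · rintro ⟨⟨hy, e0⟩, e⟩
      rw [(h0 x hx).2.1] at e0
      refine ⟨hy, ?_⟩
      rw [cB x h, cB y (e0 ▸ h), e0]
      exact e
  have clG : ∀ x ∈ C, ¬ Bad (ctr0 x) → cls C ctr x = cls C ctr0 (ctr0 x) := by
    intro x hx h
    ext y
    simp only [mem_cls]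
    rw [(h0 x hx).2.1]
    constructor
    · rintro ⟨hy, e⟩
      exact ⟨hy, F2 x hx y hy e⟩
    · rintro ⟨hy, e0⟩
      refine ⟨hy, ?_⟩
      rw [cG x h, cG y (e0 ▸ h), e0]
  have hrad : ∀ x ∈ C, Rad G l (cls C ctr0 (ctr0 x)) (ctr0 x) R := fun x hx => by
    rw [SHier_cls (h0 x hx).2.1]
    exact (h0 x hx).2.2.1
  refine ⟨fun x hx => (F1 x hx).1, fun x hx => ?_, fun x hx => ?_, fun x hx => ?_,
    fun x hx => ?_, fun x hx => ?_, fun x hx => ?_⟩
  · by_cases h : Bad (ctr0 x)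
    · rw [cB (ctr x) ((F1 x hx).2 ▸ h), (F1 x hx).2, cB x h]
      exact (hU x hx).idem x (hK x hx)
    · rw [cG (ctr x) ((F1 x hx).2 ▸ h), (F1 x hx).2, cG x h]
  · by_cases h : Bad (ctr0 x)
    · rw [clB x hx h]
      exact (hU x hx).conn x (hK x hx)
    · rw [clG x hx h]
      exact (hrad x hx).conn
  · by_cases h : Bad (ctr0 x)
    · rw [clB x hx h]
      exact (hU x hx).light x (hK x hx)
    · rw [clG x hx h]
      exact (hgood _ h).2
  · by_cases h : Bad (ctr0 x)
    · rw [clB x hx h]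
      refine le_of_eq_of_le (sum_congr rfl fun y hy => ?_) ((hU x hx).cheap x (hK x hx))
      have e0 : ctr0 y = ctr0 x := (mem_cls.1 (mem_cls.1 hy).1).2.trans (h0 x hx).2.1
      rw [cB y (e0 ▸ h), e0]
    · rw [clG x hx h]
      refine le_trans ?_ (hgood _ h).1
      rw [mul_sum]
      refine sum_le_sum fun y hy => ?_
      rw [mul_sum]
      refine sum_le_sum fun z _ => ?_
      have e0 : ctr0 y = ctr0 x := (mem_cls.1 hy).2.trans (h0 x hx).2.1
      obtain ⟨-, r0, hr0, hr⟩ := hrad x hx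
      have d1 := (hr y hy).dist_le hN
      have d2 : (r0 : ℝ) ≤ R := by exact_mod_cast hr0.le
      rw [cG y (e0 ▸ h), e0, hN.ρ_symm, mul_comm]
      exact mul_le_mul_of_nonneg_right (d1.trans d2) (hN.c_nonneg _ _)
  · by_cases h : Bad (ctr0 x)
    · rw [rB x hx h]
      have := (hU x hx).rk_lt x (hK x hx)
      omega
    · rw [rG x hx h]
      have := (h0 x hx).2.2.2.1
      omega
  · by_cases h : Bad (ctr0 x)
    · rcases (hU x hx).hub x (hK x hx) with e | ⟨x', hx', y, hy, e1, e2, e3⟩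
      · refine Or.inl (mem_insert_of_mem (mem_biUnion.2 ⟨ctr0 x,
          mem_filter.2 ⟨mem_image_of_mem _ hx, h⟩, ?_⟩))
        rw [cB x h]
        exact e
      · have a1 : ctr0 x' = ctr0 x := (mem_cls.1 hx').2.trans (h0 x hx).2.1
        have a2 : ctr0 y = ctr0 x := (mem_cls.1 hy).2.trans (h0 x hx).2.1
        refine Or.inr ⟨x', (mem_cls.1 hx').1, y, (mem_cls.1 hy).1, ?_, e2, ?_⟩
        · rw [cB x h, cB x' (a1 ▸ h), a1]
          exact e1
        · rw [rB x hx h, rB y (mem_cls.1 hy).1 (a2 ▸ h), a2]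
          exact e3
    · rcases (h0 x hx).2.2.2.2 with e | ⟨x', hx', y, hy, e1, e2, e3⟩
      · refine Or.inl ?_
        rw [cG x h, e]
        exact mem_insert_self _ _
      · refine Or.inr ⟨x', hx', y, hy, ?_, e2, ?_⟩
        · rw [cG x h, cG x' (e1 ▸ h), e1]
        · rw [rG x hx h]
          by_cases h' : Bad (ctr0 y)
          · rw [rB y hy h']
            have := (hU y hy).rk_lt y (hK y hy)
            omega
          · rw [rG y hy h']
            omega

theorem hier {G : SimpleGraph V} {c ρ : V → V → ℝ} {l : V → V → ℕ} (hN : Net G c l ρ)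
    (lam n : ℕ) (hlam : 1 ≤ lam) (hn : n < 2 ^ lam) (hl : ∀ x y, G.Adj x y → 18 * lam ≤ l x y)
    (W : Finset V) (hW : W.card ≤ n) (τ : ℝ) (hτ : 0 < τ) (u0 : ℕ) (hu : 2 ≤ u0) (i : ℕ) :
    ∀ C ⊆ W, ∀ a : V, Rad G l C a (18 * lam * 2 ^ (i + 1)) →
      ∃ (ctr : V → V) (rk : V → ℕ) (Hub : Finset V),
        Units G c ρ W C τ u0 (111 * lam * (i + 1)) ctr rk Hub ∧
        τ * Hub.card ≤ τ + 72 * lam * i * vol c l C +
          18 * lam * 2 ^ (i + 1) * ∑ y ∈ C, ∑ z ∈ W \ C, c y z + 2 * i * τ * C.card / u0 := by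
  induction i with
  | zero =>
    intro C hC a hR
    obtain ⟨ctr, ph, h0, -⟩ := carve hN lam n 1 hlam hn le_rfl C ((card_le_card hC).trans hW) a
      (by rw [show 36 * lam * 1 = 18 * lam * 2 ^ (0 + 1) by ring]; exact hR)
    have hs : ∀ x ∈ C, ∀ y ∈ cls C ctr x, y = ctr x := by
      intro x hx y hy
      obtain ⟨-, r, hr, h⟩ := (h0 x hx).2.2.1
      exact SHier_short hl (h y hy) (by omega)
    refine ⟨ctr, ph, {a}, ⟨fun x hx => (h0 x hx).1, fun x hx => (h0 x hx).2.1,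
      fun x hx => (h0 x hx).2.2.1.conn, fun x hx => ?_, fun x hx => ?_, fun x hx => ?_,
      fun x hx => ?_⟩, ?_⟩
    · have : (cls C ctr x).card ≤ 1 :=
        card_le_one.2 fun y hy z hz => (hs x hx y hy).trans (hs x hx z hz).symm
      omega
    · refine le_trans (le_of_eq (sum_eq_zero fun y hy => sum_eq_zero fun z _ => ?_)) hτ.le
      rw [(mem_cls.1 hy).2, ← hs x hx y hy, hN.ρ_self, mul_zero]
    · have := (h0 x hx).2.2.2.1
      omega
    · exact (h0 x hx).2.2.2.2.imp (fun e => mem_singleton.2 e) id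
    · have := SHier_bd_nonneg hN.c_nonneg C (W \ C)
      have e : (0 : ℝ) ≤ 18 * lam * 2 ^ (0 + 1) * ∑ y ∈ C, ∑ z ∈ W \ C, c y z := by positivity
      simp only [card_singleton, Nat.cast_one, Nat.cast_zero, mul_zero, zero_mul, zero_div]
      linarith
  | succ i ih =>
    intro C hC a hR
    obtain ⟨ctr0, ph, h0, hcut⟩ := carve hN lam n (2 ^ (i + 1)) hlam hn Nat.one_le_two_pow C
      ((card_le_card hC).trans hW) a
      (by rw [show 36 * lam * 2 ^ (i + 1) = 18 * lam * 2 ^ (i + 1 + 1) by ring]; exact hR)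
    have hch : ∀ b : V, ∃ (cb : V → V) (rb : V → ℕ) (Hb : Finset V), b ∈ C →
        Units G c ρ W (cls C ctr0 b) τ u0 (111 * lam * (i + 1)) cb rb Hb ∧
        τ * Hb.card ≤ τ + 72 * lam * i * vol c l (cls C ctr0 b) +
          18 * lam * 2 ^ (i + 1) * ∑ y ∈ cls C ctr0 b, ∑ z ∈ W \ cls C ctr0 b, c y z +
          2 * i * τ * (cls C ctr0 b).card / u0 := by
      intro b
      by_cases hb : b ∈ C
      · obtain ⟨cb, rb, Hb, h⟩ := ih (cls C ctr0 b) ((SHier_cls_subset _ _ _).trans hC) (ctr0 b)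
          (h0 b hb).2.2.1
        exact ⟨cb, rb, Hb, fun _ => h⟩
      · exact ⟨id, fun _ => 0, ∅, fun h => absurd h hb⟩
    choose cb rb Hb hb using hch
    obtain ⟨Bad, hBad⟩ : ∃ Bad : V → Prop, ∀ b, Bad b ↔
        (τ < ((18 * lam * 2 ^ (i + 1) : ℕ) : ℝ) *
          ∑ y ∈ cls C ctr0 b, ∑ z ∈ W \ cls C ctr0 b, c y z ∨ u0 < 2 * (cls C ctr0 b).card) :=
      ⟨_, fun _ => Iff.rfl⟩
    have hg := SHier_glue hN W C τ u0 (111 * lam * (i + 1)) (111 * lam) (18 * lam * 2 ^ (i + 1)) a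
      ctr0 ph h0 cb rb Hb (fun b h => (hb b h).1) Bad (fun b h => by
        rw [hBad, not_or, not_lt, not_lt] at h
        exact h)
    rw [show 111 * lam * (i + 1) + 111 * lam = 111 * lam * (i + 1 + 1) by ring] at hg
    refine ⟨_, _, _, hg, ?_⟩
    have hu0 : (0 : ℝ) < u0 := by exact_mod_cast (by omega : 0 < u0)
    have c1 : ((insert a (((C.image ctr0).filter Bad).biUnion Hb)).card : ℝ) ≤
        1 + ∑ b ∈ (C.image ctr0).filter Bad, ((Hb b).card : ℝ) := by
      have := (card_insert_le a (((C.image ctr0).filter Bad).biUnion Hb)).trans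
        (Nat.add_le_add_right card_biUnion_le 1)
      rw [add_comm (1 : ℝ)]
      exact_mod_cast this
    have hα : (0 : ℝ) ≤ 72 * lam * i := by positivity
    have hβ : (0 : ℝ) ≤ 18 * lam * 2 ^ (i + 1 + 1) := by positivity
    have hγ : (0 : ℝ) ≤ 2 * (i + 1) * τ / u0 := by positivity
    have c2 : ∀ b ∈ (C.image ctr0).filter Bad, τ * ((Hb b).card : ℝ) ≤
        72 * lam * i * vol c l (cls C ctr0 b) +
          18 * lam * 2 ^ (i + 1 + 1) * ∑ y ∈ cls C ctr0 b, ∑ z ∈ W \ cls C ctr0 b, c y z +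
          2 * (i + 1) * τ / u0 * (cls C ctr0 b).card := by
      intro b hbm
      obtain ⟨hb1, hb2⟩ := mem_filter.1 hbm
      obtain ⟨x, hx, rfl⟩ := mem_image.1 hb1
      have h1 := (hb _ (h0 x hx).1).2
      set bd := ∑ y ∈ cls C ctr0 (ctr0 x), ∑ z ∈ W \ cls C ctr0 (ctr0 x), c y z with hbd
      set k : ℝ := ((cls C ctr0 (ctr0 x)).card : ℝ) with hk
      have b0 : 0 ≤ bd := SHier_bd_nonneg hN.c_nonneg _ _
      have k0 : 0 ≤ k := Nat.cast_nonneg _
      have p1 : (0 : ℝ) ≤ 18 * lam * 2 ^ (i + 1) * bd := by positivity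
      have p2 : 0 ≤ 2 * τ * k / u0 := by positivity
      have h2 : τ ≤ 18 * lam * 2 ^ (i + 1) * bd + 2 * τ * k / u0 := by
        rcases (hBad _).1 hb2 with e | e
        · push_cast at e
          linarith
        · have e' : (u0 : ℝ) ≤ 2 * k := by
            rw [hk]
            exact_mod_cast e.le
          have : τ ≤ 2 * τ * k / u0 := by
            rw [le_div_iff₀ hu0]
            nlinarith
          linarith
      have e1 : (18 : ℝ) * lam * 2 ^ (i + 1 + 1) * bd = 2 * (18 * lam * 2 ^ (i + 1) * bd) := by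
        ring
      have e2 : 2 * ((i : ℝ) + 1) * τ / u0 * k = 2 * i * τ * k / u0 + 2 * τ * k / u0 := by
        ring
      rw [e1, e2]
      linarith
    have c3 := (sum_le_sum c2).trans ((sum_le_sum_of_subset_of_nonneg (filter_subset _ _)
      fun b _ _ => by
        have := vol_nonneg (l := l) hN.c_nonneg (cls C ctr0 b)
        have := SHier_bd_nonneg hN.c_nonneg (cls C ctr0 b) (W \ cls C ctr0 b)
        positivity).trans
      (SHier_sum (l := l) hN.c_nonneg W C hC ctr0 (fun x hx => (h0 x hx).2.1) _ _ _ hα))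
    rw [← mul_sum] at c3
    have c4 := mul_le_mul_of_nonneg_left c1 hτ.le
    have c5 := mul_le_mul_of_nonneg_left hcut (show (0 : ℝ) ≤ 36 * lam by positivity)
    push_cast at c5 ⊢
    have e3 : 2 * ((i : ℝ) + 1) * τ / u0 * C.card = 2 * (i + 1) * τ * C.card / u0 := by ring
    rw [e3] at c3
    set cut := ∑ x ∈ C, ∑ y ∈ C, (if ctr0 x = ctr0 y then 0 else c x y)
    set bd := ∑ y ∈ C, ∑ z ∈ W \ C, c y z
    have e4 : (18 : ℝ) * lam * 2 ^ (i + 1 + 1) * (bd + cut) =
        18 * lam * 2 ^ (i + 1 + 1) * bd + 36 * lam * (2 ^ (i + 1) * cut) := by ring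
    rw [e4] at c3
    rw [mul_add, mul_one] at c4
    linarith

end Pool.Agent.MP_d3be90_lc

end

section

set_option autoImplicit false

open Finset
open scoped Classical

namespace Pool.Agent.MP_d3be90_lc

variable {V : Type}

lemma SUnits_exit {G : SimpleGraph V} {W B : Finset V} {a x : V} (h : WkM G.Adj W a x)
    (ha : a ∈ B) (hx : x ∉ B) : ∃ y ∈ B, ∃ z ∈ W, z ∉ B ∧ G.Adj y z := by
  have key : x ∈ B ∨ ∃ y ∈ B, ∃ z ∈ W, z ∉ B ∧ G.Adj y z := by
    refine h.ind (P := fun x => x ∈ B ∨ ∃ y ∈ B, ∃ z ∈ W, z ∉ B ∧ G.Adj y z) (Or.inl ha) ?_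
    intro y z _ hyz hz ih
    rcases ih with hy | ih
    · by_cases hzB : z ∈ B
      · exact Or.inl hzB
      · exact Or.inr ⟨y, hy, z, hz, hzB, hyz⟩
    · exact Or.inr ih
  exact key.resolve_left hx

theorem Conn.reach {G : SimpleGraph V} {l : V → V → ℕ} {W : Finset V} (h : Conn G W) (Λ : ℕ)
    (hl : ∀ x y, G.Adj x y → l x y ≤ Λ) {a : V} (ha : a ∈ W) :
    ∀ x ∈ W, Reach G l W a x (W.card * Λ) := by
  have key : ∀ j : ℕ, (∀ x ∈ W, Reach G l W a x (j * Λ)) ∨
      j + 1 ≤ (W.filter fun x => Reach G l W a x (j * Λ)).card := by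
    intro j
    induction j with
    | zero =>
      refine Or.inr (card_pos.2 ⟨a, mem_filter.2 ⟨ha, Reach.base _ ha⟩⟩)
    | succ j ih =>
      have hle : j * Λ ≤ (j + 1) * Λ := Nat.mul_le_mul_right _ (Nat.le_succ j)
      rcases ih with ih | ih
      · exact Or.inl fun x hx => (ih x hx).mono hle
      · by_cases hall : ∀ x ∈ W, Reach G l W a x (j * Λ)
        · exact Or.inl fun x hx => (hall x hx).mono hle
        · push Not at hall
          obtain ⟨x, hx, hx'⟩ := hall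
          obtain ⟨y, hy, z, hz, hzB, hyz⟩ := SUnits_exit
            (B := W.filter fun x => Reach G l W a x (j * Λ)) (h a ha x hx)
            (mem_filter.2 ⟨ha, Reach.base _ ha⟩) (fun e => hx' (mem_filter.1 e).2)
          refine Or.inr ?_
          have hsub : insert z (W.filter fun x => Reach G l W a x (j * Λ)) ⊆
              W.filter fun x => Reach G l W a x ((j + 1) * Λ) := by
            refine insert_subset (mem_filter.2 ⟨hz, ?_⟩) fun w hw =>
              mem_filter.2 ⟨(mem_filter.1 hw).1, (mem_filter.1 hw).2.mono hle⟩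
            refine (Reach.step (mem_filter.1 hy).2 hyz hz).mono ?_
            have := hl y z hyz
            rw [Nat.succ_mul]
            omega
          have := card_le_card hsub
          rw [card_insert_of_notMem hzB] at this
          omega
  rcases key W.card with e | e
  · exact e
  · have := card_filter_le W fun x => Reach G l W a x (W.card * Λ)
    omega

theorem exists_units {G : SimpleGraph V} {c ρ : V → V → ℝ} {l : V → V → ℕ} (hN : Net G c l ρ)
    (lam n Λ L N' : ℕ) (hlam : 1 ≤ lam) (hn : n < 2 ^ lam) (hL : n * Λ ≤ 2 ^ L)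
    (hl : ∀ x y, G.Adj x y → 18 * lam ≤ l x y ∧ l x y ≤ 18 * lam * Λ)
    (W : Finset V) (hW : W.card ≤ n) (hne : W.Nonempty) (hc : Conn G W)
    (τ : ℝ) (hτ : 0 < τ) (hV : vol c l W ≤ N' * τ) (u0 : ℕ) (hu : 2 ≤ u0) (hWu : W.card ≤ u0) :
    ∃ (ctr : V → V) (rk : V → ℕ) (Hub : Finset V),
      Units G c ρ W W τ u0 (111 * lam * (L + 1)) ctr rk Hub ∧
      Hub.card ≤ 1 + 72 * lam * L * N' + 2 * L := by
  obtain ⟨a, ha⟩ := hne
  have hrad : Rad G l W a (18 * lam * 2 ^ (L + 1)) := by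
    refine ⟨ha, W.card * (18 * lam * Λ), ?_,
      hc.reach (18 * lam * Λ) (fun x y e => (hl x y e).2) ha⟩
    have h1 : W.card * Λ ≤ 2 ^ L := (Nat.mul_le_mul_right _ hW).trans hL
    have h2 : 0 < 2 ^ L := Nat.pos_of_ne_zero (by positivity)
    calc W.card * (18 * lam * Λ) = 18 * lam * (W.card * Λ) := by ring
      _ ≤ 18 * lam * 2 ^ L := Nat.mul_le_mul_left _ h1
      _ < 18 * lam * 2 ^ (L + 1) := by
        refine Nat.mul_lt_mul_of_pos_left ?_ (by omega)
        rw [pow_succ]; omega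
  obtain ⟨ctr, rk, Hub, hU, hH⟩ := hier hN lam n hlam hn (fun x y e => (hl x y e).1) W hW τ hτ
    u0 hu L W Subset.rfl a hrad
  refine ⟨ctr, rk, Hub, hU, ?_⟩
  have hu0 : (0 : ℝ) < u0 := by exact_mod_cast (by omega : 0 < u0)
  have hWu' : (W.card : ℝ) ≤ u0 := by exact_mod_cast hWu
  have h3 : 2 * (L : ℝ) * τ * W.card / u0 ≤ 2 * L * τ := by
    rw [div_le_iff₀ hu0]
    exact mul_le_mul_of_nonneg_left hWu' (by positivity)
  have h4 : 72 * (lam : ℝ) * L * vol c l W ≤ 72 * lam * L * (N' * τ) :=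
    mul_le_mul_of_nonneg_left hV (by positivity)
  simp only [sdiff_self, bot_eq_empty, sum_empty, sum_const_zero, mul_zero, add_zero] at hH
  have h5 : τ * (Hub.card : ℝ) ≤ τ * (1 + 72 * lam * L * N' + 2 * L) := by
    nlinarith
  have h6 : (Hub.card : ℝ) ≤ 1 + 72 * lam * L * N' + 2 * L := le_of_mul_le_mul_left h5 hτ
  exact_mod_cast h6

end Pool.Agent.MP_d3be90_lc

end

section

set_option autoImplicit false

open Finset
open scoped Classical

namespace Pool.Agent.MP_d3be90_lc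

theorem Sep.scale {V : Type} {c len ρ len' ρ' : V → V → ℝ} {U : Finset V} {p : ℕ} {δ δ' : ℝ}
    (h : Sep c len ρ U p δ) (s : ℝ) (hs : 0 ≤ s) (h1 : ∀ x y, len' x y = s * len x y)
    (h2 : ∀ x y, ρ' x y = s * ρ x y) (h3 : δ' = s * δ) : Sep c len' ρ' U p δ' := by
  obtain ⟨lab, P, π, p1, p2, p3, p4⟩ := h
  refine ⟨lab, P, π, p1, p2, p3, ?_⟩
  have := mul_le_mul_of_nonneg_left p4 hs
  rw [mul_add, mul_sum, mul_sum] at this
  simp only [mul_sum] at this
  rw [h3]
  refine le_of_eq_of_le ?_ (this.trans_eq ?_)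
  · refine sum_congr rfl fun u _ => sum_congr rfl fun v _ => ?_
    split_ifs
    · simp
    · rw [h2, h2]; ring
  · congr 1
    refine sum_congr rfl fun u _ => sum_congr rfl fun v _ => ?_
    split_ifs
    · simp
    · rw [h1]; ring

theorem Net.scale {V : Type} {G : SimpleGraph V} {c ρ : V → V → ℝ} {l : V → V → ℕ}
    (h : Net G c l ρ) (K : ℕ) : Net G c (fun x y => K * l x y) (fun x y => K * ρ x y) := by
  have hK : (0 : ℝ) ≤ K := Nat.cast_nonneg K
  refine ⟨h.c_nonneg, h.c_symm, h.c_adj, fun x y => by rw [h.l_symm],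
    fun x => by rw [h.ρ_self, mul_zero], fun x y => by rw [h.ρ_symm], fun x y z => ?_,
    fun x y e => ?_⟩
  · rw [← mul_add]; exact mul_le_mul_of_nonneg_left (h.ρ_tri x y z) hK
  · push_cast; exact mul_le_mul_of_nonneg_left (h.ρ_le x y e) hK

theorem sep_of_vol_zero {V : Type} {G : SimpleGraph V} {c ρ : V → V → ℝ} {l : V → V → ℕ}
    (hN : Net G c l ρ) (hl : ∀ x y, G.Adj x y → 1 ≤ l x y) (U : Finset V) (hU : 2 ≤ U.card)
    (h0 : vol c l U = 0) (p : ℕ) : Sep c (fun x y => (l x y : ℝ)) ρ U p 0 := by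
  have hc : ∀ u ∈ U, ∀ v ∈ U, c u v = 0 := by
    intro u hu v hv
    by_contra hne
    have nn : ∀ x y, 0 ≤ c x y * (l x y : ℝ) := fun x y =>
      mul_nonneg (hN.c_nonneg x y) (Nat.cast_nonneg _)
    have e1 := (sum_eq_zero_iff_of_nonneg fun x _ => sum_nonneg fun y _ => nn x y).1 h0 u hu
    have e2 := (sum_eq_zero_iff_of_nonneg fun y _ => nn u y).1 e1 v hv
    rcases mul_eq_zero.1 e2 with e | e
    · exact hne e
    · have := hl u v (hN.c_adj u v hne)
      have : l u v = 0 := by exact_mod_cast e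
      omega
  refine ⟨fun x => {x}, ∅, fun u _ => u, by simp, fun y _ => ⟨mem_singleton_self _, by simpa⟩,
    fun u hu v hv _ h => absurd (hc u hu v hv) h, ?_⟩
  rw [add_zero]
  refine sum_le_sum fun u hu => sum_le_sum fun v hv => ?_
  rw [hc u hu v hv]
  simp

/-- balanced separators with few portals in graphs without a complete minor -/
theorem exists_sep (t : ℕ) (ht : 2 ≤ t) (b T : ℕ) (hT : 1 ≤ T) :
    ∀ (V : Type) [Fintype V] (G : SimpleGraph V), ¬ KMinor G t →
      ∀ lam : ℕ, 1 ≤ lam → Fintype.card V < 2 ^ lam →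
      ∃ p : ℕ, p * lam + 3 ≤ 10 ^ 14 * (t + 1) ^ 6 * (b + 2) ^ 3 * T * lam ^ 8 ∧
        ∀ (c ρ : V → V → ℝ) (l : V → V → ℕ), Net G c l ρ →
          (∀ x y, G.Adj x y → 1 ≤ l x y ∧ l x y ≤ 2 ^ (b * lam)) →
          ∀ U : Finset V, 2 ≤ U.card →
            Sep c (fun x y => (l x y : ℝ)) ρ U p (1 / (lam * T) * vol c l U) := by
  intro V _ G hG lam hlam hn
  obtain ⟨L, hL⟩ : ∃ L, L = (b + 1) * lam := ⟨_, rfl⟩
  obtain ⟨r, hr⟩ : ∃ r, r = 111 * lam * (L + 1) := ⟨_, rfl⟩
  obtain ⟨β, hβ⟩ : ∃ β, β = 32 * (t + 1) ^ 2 * r * lam * T := ⟨_, rfl⟩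
  obtain ⟨m, hm⟩ : ∃ m, m = 2 * madD t * (75 * lam * L * β) := ⟨_, rfl⟩
  have L1 : 1 ≤ L := by rw [hL]; exact Nat.mul_pos (by omega) hlam
  have r1 : 1 ≤ r := by rw [hr]; exact Nat.mul_pos (by omega) (by omega)
  have β1 : 0 < β := by rw [hβ]; positivity
  have m1 : 0 < m := by rw [hm, madD]; positivity
  refine ⟨(t + 1) * (8 * (t + 1) * r * m), ?_, ?_⟩
  · have e1 : r ≤ 111 * (b + 2) * lam ^ 2 := by
      rw [hr, hL]
      have : (b + 1) * lam + 1 ≤ (b + 2) * lam := by nlinarith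
      calc 111 * lam * ((b + 1) * lam + 1) ≤ 111 * lam * ((b + 2) * lam) := by gcongr
        _ = _ := by ring
    have e2 : (t + 1) * (8 * (t + 1) * r * m) * lam =
        1728000000 * (t + 1) ^ 6 * (b + 1) * T * r ^ 2 * lam ^ 4 := by
      rw [hm, hβ, hL, madD]; ring
    have e3 : 0 < (t + 1) ^ 6 * (b + 2) ^ 3 * T * lam ^ 8 := by positivity
    have e4 : 1728000000 * (t + 1) ^ 6 * (b + 1) * T * r ^ 2 * lam ^ 4
        ≤ 1728000000 * (t + 1) ^ 6 * (b + 2) * T * (111 * (b + 2) * lam ^ 2) ^ 2 * lam ^ 4 := by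
      gcongr; omega
    have e5 : 1728000000 * (t + 1) ^ 6 * (b + 2) * T * (111 * (b + 2) * lam ^ 2) ^ 2 * lam ^ 4 =
        21290688000000 * ((t + 1) ^ 6 * (b + 2) ^ 3 * T * lam ^ 8) := by ring
    have e6 : 10 ^ 14 * (t + 1) ^ 6 * (b + 2) ^ 3 * T * lam ^ 8 =
        100000000000000 * ((t + 1) ^ 6 * (b + 2) ^ 3 * T * lam ^ 8) := by ring
    omega
  intro c ρ l hN hl U hU
  rcases (vol_nonneg (l := l) hN.c_nonneg U).eq_or_lt with h0 | h0
  · rw [← h0, mul_zero]
    exact sep_of_vol_zero hN (fun x y e => (hl x y e).1) U hU h0.symm _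
  have hN' := hN.scale (18 * lam)
  have hK : (0 : ℝ) < ((18 * lam : ℕ) : ℝ) := by positivity
  have hvol : ∀ S, vol c (fun x y => 18 * lam * l x y) S = ((18 * lam : ℕ) : ℝ) * vol c l S := by
    intro S
    simp only [vol, mul_sum]
    refine sum_congr rfl fun x _ => sum_congr rfl fun y _ => ?_
    push_cast; ring
  have hβm : (0 : ℝ) < ((β * m : ℕ) : ℝ) := by positivity
  obtain ⟨τ, hτ⟩ : ∃ τ : ℝ, τ = ((18 * lam : ℕ) : ℝ) * vol c l U / ((β * m : ℕ) : ℝ) := ⟨_, rfl⟩
  have τ0 : 0 < τ := by rw [hτ]; positivity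
  have key := sep_of_cover hN' t hG U τ τ0.le (8 * (t + 1) * r * m) fun W hW hne hc => by
    obtain ⟨ctr, rk, Hub, h1, h2⟩ := exists_units hN' lam (Fintype.card V) (2 ^ (b * lam)) L
      (β * m) hlam hn (by
        rw [hL, add_mul, one_mul, pow_add, mul_comm]
        exact Nat.mul_le_mul_left _ hn.le)
      (fun x y e => ⟨Nat.le_mul_of_pos_right _ (hl x y e).1, Nat.mul_le_mul_left _ (hl x y e).2⟩)
      W (card_le_univ _) hne hc τ τ0 (by
        rw [hτ, mul_div_cancel₀ _ hβm.ne', ← hvol]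
        exact vol_mono hN.c_nonneg hW) U.card hU (card_le_card hW)
    rw [← hr] at h1
    refine cover_of_units hN' t ht hG W hne τ τ0.le U.card r _ m ctr rk Hub h1 h2 r1 m1 ?_
    have f0 : 1 ≤ β * m := Nat.mul_pos β1 m1
    have f1 : L ≤ lam * L * (β * m) := by
      calc L = 1 * L * 1 := by ring
        _ ≤ _ := by gcongr
    calc 2 * madD t * (1 + 72 * lam * L * (β * m) + 2 * L)
        ≤ 2 * madD t * (75 * (lam * L * (β * m))) := by
          refine Nat.mul_le_mul_left _ ?_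
          have : 72 * lam * L * (β * m) = 72 * (lam * L * (β * m)) := by ring
          omega
      _ = 2 * madD t * (75 * lam * L * β) * m := by ring
      _ = m ^ 2 := by rw [← hm]; ring
  refine key.scale (((18 * lam : ℕ) : ℝ))⁻¹ (by positivity) (fun x y => ?_) (fun x y => ?_) ?_
  · push_cast; field_simp
  · field_simp
  · have e1 : (0 : ℝ) < lam := by positivity
    have e2 : (0 : ℝ) < T := by positivity
    have e3 : (0 : ℝ) < r := by positivity
    have e4 : (0 : ℝ) < m := by positivity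
    rw [hτ, hβ]
    push_cast
    field_simp
    ring

end Pool.Agent.MP_d3be90_lc

end

section

set_option autoImplicit false

open Finset
open scoped Classical

namespace Pool.Agent.MP_d3be90_lc

variable {V : Type}

/-- glue a family of cuts along a labelling -/
noncomputable def sprodGlue [Fintype V] {ι : Type} (lab : V → ι) (om : ι → Finset V) : Finset V :=
  univ.filter fun v => v ∈ om (lab v)

lemma mem_sprodGlue [Fintype V] {ι : Type} (lab : V → ι) (om : ι → Finset V) (v : V) :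
    v ∈ sprodGlue lab om ↔ v ∈ om (lab v) := by
  simp [sprodGlue]

/-- the glued distribution -/
noncomputable def sprodW [Fintype V] {ι : Type} [Fintype ι] (lab : V → ι)
    (w : ι → Finset V → ℝ) (A : Finset V) : ℝ :=
  ∑ om : ι → Finset V, if sprodGlue lab om = A then ∏ i, w i (om i) else 0

lemma sprod_exp [Fintype V] {ι : Type} [Fintype ι] (lab : V → ι)
    (w : ι → Finset V → ℝ) (f : Finset V → ℝ) :
    ∑ A, sprodW lab w A * f A = ∑ om : ι → Finset V, (∏ i, w i (om i)) * f (sprodGlue lab om) := by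
  simp only [sprodW, sum_mul]
  rw [sum_comm]
  refine sum_congr rfl fun om _ => ?_
  simp only [ite_mul, zero_mul]
  rw [sum_ite_eq]
  simp

lemma sprod_fact [Fintype V] {ι : Type} [Fintype ι] (w F : ι → Finset V → ℝ) :
    ∑ om : ι → Finset V, (∏ i, w i (om i)) * ∏ i, F i (om i) = ∏ i, ∑ A, w i A * F i A := by
  rw [prod_univ_sum, Fintype.piFinset_univ]
  exact sum_congr rfl fun om _ => prod_mul_distrib.symm

lemma sprod_one [Fintype V] {ι : Type} [Fintype ι] (w : ι → Finset V → ℝ)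
    (hw : ∀ i, IsDist (w i)) (j : ι) (f : Finset V → ℝ) :
    ∑ om : ι → Finset V, (∏ i, w i (om i)) * f (om j) = ∑ A, w j A * f A := by
  have h := sprod_fact w (fun i A => if i = j then f A else 1)
  simp only [prod_ite_eq', mem_univ, if_true] at h
  rw [h, ← mul_prod_erase univ _ (mem_univ j)]
  simp only [if_true]
  rw [prod_eq_one, mul_one]
  intro i hi
  simp only [if_neg (ne_of_mem_erase hi), mul_one]
  exact (hw i).2

lemma sprod_two [Fintype V] {ι : Type} [Fintype ι] (w : ι → Finset V → ℝ)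
    (hw : ∀ i, IsDist (w i)) (j k : ι) (hjk : j ≠ k) (f g : Finset V → ℝ) :
    ∑ om : ι → Finset V, (∏ i, w i (om i)) * (f (om j) * g (om k)) =
      (∑ A, w j A * f A) * ∑ A, w k A * g A := by
  have h := sprod_fact w (fun i A => (if i = j then f A else 1) * if i = k then g A else 1)
  simp only [prod_mul_distrib, prod_ite_eq', mem_univ, if_true] at h
  rw [h, ← mul_prod_erase univ _ (mem_univ j),
    ← mul_prod_erase (univ.erase j) _ (mem_erase.2 ⟨hjk.symm, mem_univ k⟩)]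
  simp only [if_true, if_neg hjk, if_neg hjk.symm, mul_one, one_mul]
  rw [prod_eq_one, mul_one]
  intro i hi
  simp only [if_neg (ne_of_mem_erase hi), if_neg (ne_of_mem_erase (mem_of_mem_erase hi)), mul_one]
  exact (hw i).2

lemma sprod_prI [Fintype V] (w : Finset V → ℝ) (u : V) :
    prI w u = ∑ A, w A * if u ∈ A then 1 else 0 := by
  simp [prI]

lemma sprod_prI' [Fintype V] (w : Finset V → ℝ) (hw : IsDist w) (u : V) :
    1 - prI w u = ∑ A, w A * if u ∈ A then 0 else 1 := by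
  have h : 1 - prI w u = ∑ A, w A - prI w u := by rw [hw.2]
  rw [h, prI, ← sum_sub_distrib]
  refine sum_congr rfl fun A _ => ?_
  split_ifs <;> simp

lemma sprod_prS [Fintype V] (w : Finset V → ℝ) (u v : V) :
    prS w u v = ∑ A, w A * if (u ∈ A ↔ v ∈ A) then 0 else 1 := by
  simp [prS]

theorem exists_prod [Fintype V] {ι : Type} [Fintype ι] (lab : V → ι) (w : ι → Finset V → ℝ)
    (hw : ∀ i, IsDist (w i)) :
    ∃ w' : Finset V → ℝ, IsDist w' ∧ (∀ u, prI w' u = prI (w (lab u)) u) ∧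
      (∀ u v, lab u = lab v → prS w' u v = prS (w (lab u)) u v) ∧
      ∀ u v, lab u ≠ lab v → prS w' u v =
        prI (w (lab u)) u * (1 - prI (w (lab v)) v) +
          prI (w (lab v)) v * (1 - prI (w (lab u)) u) := by
  refine ⟨sprodW lab w, ⟨fun A => ?_, ?_⟩, fun u => ?_, fun u v huv => ?_, fun u v huv => ?_⟩
  · refine sum_nonneg fun om _ => ?_
    split_ifs
    · exact prod_nonneg fun i _ => (hw i).1 _
    · exact le_rfl
  · have h := sprod_exp lab w (fun _ => 1)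
    have h2 := sprod_fact w (fun _ _ => 1)
    simp only [mul_one, prod_const_one] at h h2
    rw [h, h2]
    exact prod_eq_one fun i _ => (hw i).2
  · rw [sprod_prI, sprod_prI, sprod_exp,
      ← sprod_one w hw (lab u) (fun A => if u ∈ A then 1 else 0)]
    simp only [mem_sprodGlue]
  · rw [sprod_prS, sprod_prS, sprod_exp,
      ← sprod_one w hw (lab u) (fun A => if (u ∈ A ↔ v ∈ A) then 0 else 1)]
    simp only [mem_sprodGlue, huv]
  · rw [sprod_prI' _ (hw _), sprod_prI' _ (hw _), sprod_prI, sprod_prI, sprod_prS, sprod_exp,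
      ← sprod_two w hw _ _ huv, ← sprod_two w hw _ _ (Ne.symm huv), ← sum_add_distrib]
    refine sum_congr rfl fun om _ => ?_
    simp only [mem_sprodGlue]
    by_cases h1 : u ∈ om (lab u) <;> by_cases h2 : v ∈ om (lab v) <;> simp [h1, h2]

theorem exists_bernoulli [Fintype V] (u : V) (p : ℝ) (h0 : 0 ≤ p) (h1 : p ≤ 1) :
    ∃ w : Finset V → ℝ, IsDist w ∧ prI w u = p := by
  refine ⟨fun A => (if A = {u} then p else 0) + if A = ∅ then 1 - p else 0,
    ⟨fun A => ?_, ?_⟩, ?_⟩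
  · refine add_nonneg ?_ ?_ <;> split_ifs <;> linarith
  · simp [sum_add_distrib]
  · rw [sprod_prI]
    simp only [add_mul, sum_add_distrib, ite_mul, zero_mul, sum_ite_eq', mem_univ, if_true]
    simp

theorem sum_prS [Fintype V] (w : Finset V → ℝ) (c : V → V → ℝ) :
    ∑ u, ∑ v, c u v * prS w u v = ∑ A, w A * cutW c A := by
  simp only [prS, cutW, mul_sum]
  rw [sum_comm (s := (univ : Finset (Finset V)))]
  refine sum_congr rfl fun u _ => ?_
  rw [sum_comm (s := (univ : Finset (Finset V)))]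
  refine sum_congr rfl fun v _ => sum_congr rfl fun A _ => ?_
  split_ifs <;> simp [mul_comm]

end Pool.Agent.MP_d3be90_lc

end

section

set_option autoImplicit false

open Finset
open scoped Classical

namespace Pool.Agent.MP_d3be90_lc

variable {V : Type}

variable {k : ℕ} {μ : Finset V → Finset V → ℝ}

lemma SSA_fibre {Q : Finset V} (A : Finset V) (g : Finset V → ℝ) :
    ∑ σ ∈ Q.powerset, (if A ∩ Q = σ then g σ else 0) = g (A ∩ Q) := by
  rw [sum_ite_eq]
  rw [if_pos (mem_powerset.2 inter_subset_right)]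

lemma SSA_key (h : SA k μ) {S T : Finset V} (hST : S ⊆ T) (hT : T.card ≤ k)
    (f : Finset V → ℝ) :
    ∑ B ∈ S.powerset, μ S B * f B = ∑ A ∈ T.powerset, μ T A * f (A ∩ S) := by
  have e : ∀ B ∈ S.powerset, μ S B * f B =
      ∑ A ∈ T.powerset, (if A ∩ S = B then μ T A * f B else 0) := by
    intro B hB
    rw [h.cons S T hST hT B hB, sum_mul]
    refine sum_congr rfl fun A _ => ?_
    split_ifs <;> simp
  rw [sum_congr rfl e, sum_comm]
  exact sum_congr rfl fun A _ => SSA_fibre A fun B => μ T A * f B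

lemma SSA_d (h : SA k μ) {T : Finset V} (hT : T.card ≤ k) {u v : V} (hu : u ∈ T) (hv : v ∈ T) :
    dSA μ u v = ∑ A ∈ T.powerset, μ T A * (if (u ∈ A ↔ v ∈ A) then 0 else 1) := by
  have hs : ({u, v} : Finset V) ⊆ T := insert_subset hu (singleton_subset_iff.2 hv)
  have := SSA_key h hs hT fun B => if (u ∈ B ↔ v ∈ B) then 0 else 1
  unfold dSA
  refine Eq.trans (sum_congr rfl fun A _ => ?_) (this.trans (sum_congr rfl fun A _ => ?_))
  · split_ifs <;> simp
  · have e : (u ∈ A ∩ {u, v} ↔ v ∈ A ∩ {u, v}) ↔ (u ∈ A ↔ v ∈ A) := by simp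
    rw [if_congr e rfl rfl]

lemma SSA_m (h : SA k μ) {T Q : Finset V} (hT : T.card ≤ k) {u : V} (hu : u ∈ T) (hQ : Q ⊆ T)
    (σ : Finset V) :
    mSA μ Q σ u = ∑ A ∈ T.powerset, μ T A * (if A ∩ Q = σ ∧ u ∈ A then 1 else 0) := by
  have hs : insert u Q ⊆ T := insert_subset hu hQ
  have := SSA_key h hs hT fun B => if B ∩ Q = σ ∧ u ∈ B then 1 else 0
  unfold mSA
  refine Eq.trans (sum_congr rfl fun A _ => ?_) (this.trans (sum_congr rfl fun A _ => ?_))
  · split_ifs <;> simp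
  · have e1 : A ∩ insert u Q ∩ Q = A ∩ Q := by
      rw [inter_assoc, inter_eq_right.2 (subset_insert u Q)]
    have e : (A ∩ insert u Q ∩ Q = σ ∧ u ∈ A ∩ insert u Q) ↔ (A ∩ Q = σ ∧ u ∈ A) := by
      rw [e1]; simp
    rw [if_congr e rfl rfl]

lemma SSA_mu (h : SA k μ) {T Q σ : Finset V} (hT : T.card ≤ k) (hQ : Q ⊆ T)
    (hσ : σ ∈ Q.powerset) :
    μ Q σ = ∑ A ∈ T.powerset, μ T A * (if A ∩ Q = σ then 1 else 0) := by
  rw [h.cons Q T hQ hT σ hσ]
  refine sum_congr rfl fun A _ => ?_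
  split_ifs <;> simp

theorem dSA_self (μ : Finset V → Finset V → ℝ) (u : V) : dSA μ u u = 0 := by
  unfold dSA
  exact sum_eq_zero fun A _ => if_pos Iff.rfl

theorem dSA_symm (μ : Finset V → Finset V → ℝ) (u v : V) : dSA μ u v = dSA μ v u := by
  unfold dSA
  rw [pair_comm u v]
  exact sum_congr rfl fun A _ => if_congr Iff.comm rfl rfl

theorem SA.d_nonneg (h : SA k μ) (hk : 2 ≤ k) (u v : V) : 0 ≤ dSA μ u v := by
  unfold dSA
  refine sum_nonneg fun A hA => ?_
  split_ifs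
  · exact le_rfl
  · exact h.nonneg _ (card_le_two.trans hk) A hA

theorem SA.d_tri (h : SA k μ) (hk : 3 ≤ k) (u v z : V) :
    dSA μ u z ≤ dSA μ u v + dSA μ v z := by
  have hT : ({u, v, z} : Finset V).card ≤ k := card_le_three.trans hk
  have hu : u ∈ ({u, v, z} : Finset V) := by simp
  have hv : v ∈ ({u, v, z} : Finset V) := by simp
  have hz : z ∈ ({u, v, z} : Finset V) := by simp
  rw [SSA_d h hT hu hz, SSA_d h hT hu hv, SSA_d h hT hv hz, ← sum_add_distrib]
  refine sum_le_sum fun A hA => ?_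
  have h0 := h.nonneg _ hT A hA
  rw [← mul_add]
  refine mul_le_mul_of_nonneg_left ?_ h0
  by_cases a : u ∈ A <;> by_cases b : v ∈ A <;> by_cases c : z ∈ A <;> simp [a, b, c]

theorem SA.m_nonneg (h : SA k μ) {Q : Finset V} (hQ : Q.card + 1 ≤ k) (σ : Finset V) (u : V) :
    0 ≤ mSA μ Q σ u := by
  unfold mSA
  refine sum_nonneg fun A hA => ?_
  split_ifs
  · exact h.nonneg _ ((card_insert_le u Q).trans hQ) A hA
  · exact le_rfl

theorem SA.m_le (h : SA k μ) {Q σ : Finset V} (hQ : Q.card + 1 ≤ k) (hσ : σ ∈ Q.powerset)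
    (u : V) : mSA μ Q σ u ≤ μ Q σ := by
  have hT : (insert u Q).card ≤ k := (card_insert_le u Q).trans hQ
  rw [SSA_m h hT (mem_insert_self u Q) (subset_insert u Q), SSA_mu h hT (subset_insert u Q) hσ]
  refine sum_le_sum fun A hA => mul_le_mul_of_nonneg_left ?_ (h.nonneg _ hT A hA)
  by_cases a : A ∩ Q = σ <;> by_cases b : u ∈ A <;> simp [a, b]

theorem SA.m_refine (h : SA k μ) {Q Q' σ : Finset V} (hQ : Q ⊆ Q') (hk : Q'.card + 1 ≤ k)
    (hσ : σ ∈ Q.powerset) (u : V) :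
    mSA μ Q σ u = ∑ σ' ∈ Q'.powerset, (if σ' ∩ Q = σ then mSA μ Q' σ' u else 0) := by
  have hT : (insert u Q').card ≤ k := (card_insert_le u Q').trans hk
  have e : ∀ σ' ∈ Q'.powerset, (if σ' ∩ Q = σ then mSA μ Q' σ' u else 0) =
      ∑ A ∈ (insert u Q').powerset, (if A ∩ Q' = σ' then
        μ (insert u Q') A * (if σ' ∩ Q = σ ∧ u ∈ A then 1 else 0) else 0) := by
    intro σ' _
    rw [SSA_m h hT (mem_insert_self u Q') (subset_insert u Q')]
    by_cases a : σ' ∩ Q = σ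
    · rw [if_pos a]
      refine sum_congr rfl fun A _ => ?_
      by_cases b : A ∩ Q' = σ' <;> by_cases c : u ∈ A <;> simp [a, b, c]
    · rw [if_neg a]
      refine (sum_eq_zero fun A _ => ?_).symm
      simp [a]
  rw [sum_congr rfl e, sum_comm,
    SSA_m h hT (mem_insert_self u Q') (hQ.trans (subset_insert u Q'))]
  refine sum_congr rfl fun A _ => ?_
  rw [SSA_fibre A fun σ' => μ (insert u Q') A * (if σ' ∩ Q = σ ∧ u ∈ A then 1 else 0),
    inter_assoc, inter_eq_right.2 hQ]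

theorem SA.d_le_sum_min (h : SA k μ) {Q : Finset V} (hQ : Q.card + 2 ≤ k) (u v : V) :
    dSA μ u v ≤ ∑ σ ∈ Q.powerset, min (mSA μ Q σ u + mSA μ Q σ v)
      (2 * μ Q σ - mSA μ Q σ u - mSA μ Q σ v) := by
  have hT : (insert u (insert v Q)).card ≤ k := by
    have a := card_insert_le u (insert v Q)
    have b := card_insert_le v Q
    omega
  have hu : u ∈ insert u (insert v Q) := mem_insert_self _ _
  have hv : v ∈ insert u (insert v Q) := mem_insert_of_mem (mem_insert_self _ _)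
  have hs : Q ⊆ insert u (insert v Q) := (subset_insert _ _).trans (subset_insert _ _)
  generalize insert u (insert v Q) = T at hT hu hv hs
  have e : dSA μ u v = ∑ σ ∈ Q.powerset, ∑ A ∈ T.powerset,
      (if A ∩ Q = σ then μ T A * (if (u ∈ A ↔ v ∈ A) then 0 else 1) else 0) := by
    rw [sum_comm, SSA_d h hT hu hv]
    exact sum_congr rfl fun A _ =>
      (SSA_fibre A fun _ => μ T A * (if (u ∈ A ↔ v ∈ A) then 0 else 1)).symm
  rw [e]
  refine sum_le_sum fun σ hσ => ?_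
  rw [SSA_m h hT hu hs, SSA_m h hT hv hs, SSA_mu h hT hs hσ]
  refine le_min ?_ ?_
  · rw [← sum_add_distrib]
    refine sum_le_sum fun A hA => ?_
    have h0 := h.nonneg _ hT A hA
    by_cases a : A ∩ Q = σ <;> by_cases b : u ∈ A <;> by_cases c : v ∈ A <;> simp [a, b, c]
    linarith
  · rw [mul_sum, ← sum_sub_distrib, ← sum_sub_distrib]
    refine sum_le_sum fun A hA => ?_
    have h0 := h.nonneg _ hT A hA
    by_cases a : A ∩ Q = σ <;> by_cases b : u ∈ A <;> by_cases c : v ∈ A <;> simp [a, b, c] <;>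
      linarith

theorem SA.sum_portal (h : SA k μ) {Q : Finset V} (hQ : Q.card + 1 ≤ k) {π : V} (hπ : π ∈ Q)
    (u : V) :
    ∑ σ ∈ Q.powerset, (if π ∈ σ then μ Q σ - mSA μ Q σ u else mSA μ Q σ u) = dSA μ u π := by
  have hT : (insert u Q).card ≤ k := (card_insert_le u Q).trans hQ
  have hu : u ∈ insert u Q := mem_insert_self _ _
  have hs : Q ⊆ insert u Q := subset_insert _ _
  generalize insert u Q = T at hT hu hs
  have e : ∀ σ ∈ Q.powerset, (if π ∈ σ then μ Q σ - mSA μ Q σ u else mSA μ Q σ u) =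
      ∑ A ∈ T.powerset,
        (if A ∩ Q = σ then μ T A * (if (u ∈ A ↔ π ∈ A) then 0 else 1) else 0) := by
    intro σ hσ
    rw [SSA_m h hT hu hs, SSA_mu h hT hs hσ]
    by_cases p : π ∈ σ
    · rw [if_pos p, ← sum_sub_distrib]
      refine sum_congr rfl fun A _ => ?_
      by_cases a : A ∩ Q = σ
      · have b : π ∈ A := (mem_inter.1 (a ▸ p)).1
        by_cases c : u ∈ A <;> simp [a, b, c]
      · simp [a]
    · rw [if_neg p]
      refine sum_congr rfl fun A _ => ?_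
      by_cases a : A ∩ Q = σ
      · have b : π ∉ A := fun b => p (a ▸ mem_inter.2 ⟨b, hπ⟩)
        by_cases c : u ∈ A <;> simp [a, b, c]
      · simp [a]
  rw [sum_congr rfl e, sum_comm, SSA_d h hT hu (hs hπ)]
  exact sum_congr rfl fun A _ =>
    SSA_fibre A fun _ => μ T A * (if (u ∈ A ↔ π ∈ A) then 0 else 1)

end Pool.Agent.MP_d3be90_lc

end

section

set_option autoImplicit false

open Finset
open scoped Classical

namespace Pool.Agent.MP_d3be90_lc

variable {V : Type}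

/-- separation probability averaged over the traces on `Q` -/
noncomputable def sroundF [Fintype V] (μ : Finset V → Finset V → ℝ) (Q : Finset V)
    (w : Finset V → Finset V → ℝ) (u v : V) : ℝ :=
  ∑ s ∈ Q.powerset, μ Q s * prS (w s) u v

/-- a conditional rounding of `U` given the trace on `Q`, of cost at most `K` -/
structure SroundGood [Fintype V] (μ : Finset V → Finset V → ℝ) (c : V → V → ℝ) (U Q : Finset V)
    (K : ℝ) (w : Finset V → Finset V → ℝ) : Prop where
  dist : ∀ s, IsDist (w s)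
  marg : ∀ s ∈ Q.powerset, ∀ u ∈ U, μ Q s * prI (w s) u = mSA μ Q s u
  low : ∀ u ∈ U, ∀ v ∈ U, dSA μ u v ≤ 2 * sroundF μ Q w u v
  cost : ∑ u ∈ U, ∑ v ∈ U, c u v * sroundF μ Q w u v ≤ K

lemma sround_exists_dist [Fintype V] : ∃ w : Finset V → ℝ, IsDist w := by
  refine ⟨fun A => if A = ∅ then 1 else 0, fun A => ?_, ?_⟩
  · dsimp only
    split_ifs <;> norm_num
  · simp

lemma sround_prS_self [Fintype V] (w : Finset V → ℝ) (u : V) : prS w u u = 0 := by
  simp [prS]

lemma sround_prI_nonneg [Fintype V] {w : Finset V → ℝ} (hw : IsDist w) (u : V) :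
    0 ≤ prI w u :=
  sum_nonneg fun A _ => by
    split_ifs
    · exact hw.1 A
    · exact le_rfl

lemma sround_prI_le [Fintype V] {w : Finset V → ℝ} (hw : IsDist w) (u : V) :
    prI w u ≤ 1 := by
  rw [← hw.2]
  refine sum_le_sum fun A _ => ?_
  split_ifs
  · exact le_rfl
  · exact hw.1 A

lemma sround_min_le {m a b : ℝ} (hm : 0 ≤ m) (ha : 0 ≤ a) (ha' : a ≤ 1) (hb : 0 ≤ b)
    (hb' : b ≤ 1) :
    min (m * a + m * b) (2 * m - m * a - m * b) ≤ 2 * (m * (a * (1 - b) + b * (1 - a))) := by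
  rcases le_total (a + b) 1 with h | h
  · refine (min_le_left _ _).trans ?_
    have h1 : a + b ≤ 2 * (a * (1 - b) + b * (1 - a)) := by
      nlinarith [sq_nonneg (a - b), mul_nonneg (add_nonneg ha hb) (sub_nonneg.2 h)]
    have h2 := mul_le_mul_of_nonneg_left h1 hm
    linarith
  · refine (min_le_right _ _).trans ?_
    have h0 : 0 ≤ 2 - a - b := by linarith
    have h1 : 2 - a - b ≤ 2 * (a * (1 - b) + b * (1 - a)) := by
      nlinarith [sq_nonneg (a - b), mul_nonneg h0 (sub_nonneg.2 h)]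
    have h2 := mul_le_mul_of_nonneg_left h1 hm
    linarith

lemma sround_volR_nonneg {c len : V → V → ℝ} (hc : ∀ x y, 0 ≤ c x y) (hlen : ∀ x y, 0 ≤ len x y)
    (U : Finset V) : 0 ≤ volR c len U :=
  sum_nonneg fun x _ => sum_nonneg fun y _ => mul_nonneg (hc x y) (hlen x y)

/-- sets with at most one element -/
lemma sround_small [Fintype V] {k : ℕ} {μ : Finset V → Finset V → ℝ} (hμ : SA k μ)
    (c : V → V → ℝ) {U Q : Finset V} (hU : U.card ≤ 1) (hQ : Q.card + 1 ≤ k) {K : ℝ}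
    (hK : 0 ≤ K) : ∃ w, SroundGood μ c U Q K w := by
  have hF : ∀ (w : Finset V → Finset V → ℝ) (u : V), sroundF μ Q w u u = 0 := fun w u => by
    simp [sroundF, sround_prS_self]
  rcases U.eq_empty_or_nonempty with rfl | ⟨u, hu⟩
  · obtain ⟨w, hw⟩ := sround_exists_dist (V := V)
    exact ⟨fun _ => w, fun _ => hw, by simp, by simp, by simpa using hK⟩
  · have hU' : U = {u} := by
      refine eq_singleton_iff_unique_mem.2 ⟨hu, fun x hx => ?_⟩
      exact card_le_one.1 hU x hx u hu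
    subst hU'
    have key : ∀ s : Finset V, ∃ w : Finset V → ℝ, IsDist w ∧
        (s ∈ Q.powerset → μ Q s * prI w u = mSA μ Q s u) := by
      intro s
      by_cases hs : s ∈ Q.powerset
      · have h0 := hμ.m_nonneg hQ s u
        have h1 := hμ.m_le hQ hs u
        have h2 : 0 ≤ μ Q s := h0.trans h1
        obtain ⟨w, hw, hp⟩ := exists_bernoulli u (mSA μ Q s u / μ Q s) (div_nonneg h0 h2)
          (div_le_one_of_le₀ h1 h2)
        refine ⟨w, hw, fun _ => ?_⟩
        rw [hp]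
        rcases h2.eq_or_lt with h3 | h3
        · rw [← h3, zero_mul]
          linarith
        · field_simp
      · obtain ⟨w, hw⟩ := sround_exists_dist (V := V)
        exact ⟨w, hw, fun h => absurd h hs⟩
    choose w hw1 hw2 using key
    refine ⟨w, hw1, fun s hs x hx => ?_, fun x hx y hy => ?_, ?_⟩
    · rw [mem_singleton.1 hx]
      exact hw2 s hs
    · rw [mem_singleton.1 hx, mem_singleton.1 hy, dSA_self, hF]
      norm_num
    · simpa [hF] using hK

/-- forgetting part of the trace -/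
lemma sround_descend [Fintype V] {k : ℕ} {μ : Finset V → Finset V → ℝ} (hμ : SA k μ)
    (c : V → V → ℝ) {U Q Q' : Finset V} (hQ : Q ⊆ Q') (hk : Q'.card + 1 ≤ k) {K : ℝ}
    {w' : Finset V → Finset V → ℝ} (h : SroundGood μ c U Q' K w') :
    ∃ w, SroundGood μ c U Q K w := by
  have hk' : Q'.card ≤ k := by omega
  have hkQ : Q.card ≤ k := (card_le_card hQ).trans hk'
  have key : ∀ s : Finset V, ∃ w : Finset V → ℝ, IsDist w ∧ (s ∈ Q.powerset → ∀ A,
      μ Q s * w A = ∑ s' ∈ Q'.powerset, (if s' ∩ Q = s then μ Q' s' * w' s' A else 0)) := by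
    intro s
    by_cases hs : s ∈ Q.powerset
    · have hc := hμ.cons Q Q' hQ hk' s hs
      rcases (hμ.nonneg Q hkQ s hs).eq_or_lt with h0 | h0
      · obtain ⟨w, hw⟩ := sround_exists_dist (V := V)
        refine ⟨w, hw, fun _ A => ?_⟩
        rw [← h0, zero_mul]
        have hz := (sum_eq_zero_iff_of_nonneg (s := Q'.powerset)
          (f := fun A => if A ∩ Q = s then μ Q' A else 0) (fun B hB => by
            split_ifs
            · exact hμ.nonneg Q' hk' B hB
            · exact le_rfl)).1 (hc.symm.trans h0.symm)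
        refine (sum_eq_zero fun B hB => ?_).symm
        have := hz B hB
        split_ifs with e
        · rw [if_pos e] at this
          rw [this, zero_mul]
        · rfl
      · refine ⟨fun A => (∑ s' ∈ Q'.powerset, (if s' ∩ Q = s then μ Q' s' * w' s' A else 0)) /
          μ Q s, ⟨fun A => div_nonneg (sum_nonneg fun B hB => ?_) h0.le, ?_⟩, fun _ A => ?_⟩
        · split_ifs
          · exact mul_nonneg (hμ.nonneg Q' hk' B hB) ((h.dist B).1 A)
          · exact le_rfl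
        · rw [← sum_div, sum_comm, div_eq_one_iff_eq h0.ne', hc]
          refine sum_congr rfl fun B _ => ?_
          split_ifs
          · rw [← mul_sum, (h.dist B).2, mul_one]
          · simp
        · field_simp
    · obtain ⟨w, hw⟩ := sround_exists_dist (V := V)
      exact ⟨w, hw, fun h => absurd h hs⟩
  choose w hw1 hw2 using key
  have hI : ∀ s ∈ Q.powerset, ∀ u, μ Q s * prI (w s) u =
      ∑ s' ∈ Q'.powerset, (if s' ∩ Q = s then μ Q' s' * prI (w' s') u else 0) := by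
    intro s hs u
    have e1 : μ Q s * prI (w s) u = ∑ A, (if u ∈ A then
        ∑ s' ∈ Q'.powerset, (if s' ∩ Q = s then μ Q' s' * w' s' A else 0) else 0) := by
      rw [prI, mul_sum]
      refine sum_congr rfl fun A _ => ?_
      split_ifs
      · exact hw2 s hs A
      · simp
    have e2 : ∀ A : Finset V, (if u ∈ A then
        ∑ s' ∈ Q'.powerset, (if s' ∩ Q = s then μ Q' s' * w' s' A else 0) else 0) =
        ∑ s' ∈ Q'.powerset, (if s' ∩ Q = s then μ Q' s' * (if u ∈ A then w' s' A else 0)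
          else 0) := by
      intro A
      split_ifs <;> simp
    rw [e1, sum_congr rfl fun A _ => e2 A, sum_comm]
    refine sum_congr rfl fun B _ => ?_
    split_ifs
    · rw [prI, mul_sum]
    · simp
  have hS : ∀ s ∈ Q.powerset, ∀ u v, μ Q s * prS (w s) u v =
      ∑ s' ∈ Q'.powerset, (if s' ∩ Q = s then μ Q' s' * prS (w' s') u v else 0) := by
    intro s hs u v
    have e1 : μ Q s * prS (w s) u v = ∑ A, (if (u ∈ A ↔ v ∈ A) then 0 else
        ∑ s' ∈ Q'.powerset, (if s' ∩ Q = s then μ Q' s' * w' s' A else 0)) := by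
      rw [prS, mul_sum]
      refine sum_congr rfl fun A _ => ?_
      split_ifs
      · simp
      · exact hw2 s hs A
    have e2 : ∀ A : Finset V, (if (u ∈ A ↔ v ∈ A) then 0 else
        ∑ s' ∈ Q'.powerset, (if s' ∩ Q = s then μ Q' s' * w' s' A else 0)) =
        ∑ s' ∈ Q'.powerset, (if s' ∩ Q = s then
          μ Q' s' * (if (u ∈ A ↔ v ∈ A) then 0 else w' s' A) else 0) := by
      intro A
      split_ifs <;> simp
    rw [e1, sum_congr rfl fun A _ => e2 A, sum_comm]
    refine sum_congr rfl fun B _ => ?_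
    split_ifs
    · rw [prS, mul_sum]
    · simp
  have hF : ∀ u v, sroundF μ Q w u v = sroundF μ Q' w' u v := by
    intro u v
    unfold sroundF
    rw [sum_congr rfl fun s hs => hS s hs u v, sum_comm]
    refine sum_congr rfl fun B _ => ?_
    rw [sum_ite_eq, if_pos (mem_powerset.2 inter_subset_right)]
  refine ⟨w, hw1, fun s hs u hu => ?_, fun u hu v hv => ?_, ?_⟩
  · rw [hI s hs u, hμ.m_refine hQ hk hs u]
    refine sum_congr rfl fun B hB => ?_
    rw [h.marg B hB u hu]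
  · rw [hF]
    exact h.low u hu v hv
  · simp only [hF]
    exact h.cost

/-- splitting a double sum according to the labels -/
lemma sround_split {ι : Type} [Fintype ι] [DecidableEq ι] (lab : V → ι) (U : Finset V)
    (f : ι → V → V → ℝ) :
    ∑ u ∈ U, ∑ v ∈ U, (if lab u = lab v then f (lab u) u v else 0) =
      ∑ i, ∑ u ∈ U.filter (fun x => lab x = i), ∑ v ∈ U.filter (fun x => lab x = i), f i u v := by
  rw [← sum_fiberwise U lab]
  refine sum_congr rfl fun i _ => sum_congr rfl fun u hu => ?_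
  have e : lab u = i := (mem_filter.1 hu).2
  rw [sum_filter, e]
  refine sum_congr rfl fun v _ => ?_
  by_cases h : lab v = i
  · rw [if_pos h, if_pos h.symm]
  · rw [if_neg h, if_neg (Ne.symm h)]

/-- gluing independent roundings of the parts -/
lemma sround_glue [Fintype V] {k : ℕ} {μ : Finset V → Finset V → ℝ} (hμ : SA k μ)
    {c : V → V → ℝ} (hc : ∀ x y, 0 ≤ c x y) {U Q : Finset V} (hk : Q.card + 2 ≤ k)
    (lab : V → Finset V) (π : V → V → V)
    (hπ : ∀ u ∈ U, ∀ v ∈ U, lab u ≠ lab v → c u v ≠ 0 → π u v ∈ Q)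
    (K : Finset V → ℝ) (W : Finset V → Finset V → Finset V → ℝ)
    (hW : ∀ i, SroundGood μ c (U.filter fun x => lab x = i) Q (K i) (W i)) :
    ∃ w, SroundGood μ c U Q (∑ i, K i + ∑ u ∈ U, ∑ v ∈ U,
      (if lab u = lab v then 0 else c u v * (dSA μ u (π u v) + dSA μ (π u v) v))) w := by
  have hk1 : Q.card + 1 ≤ k := by omega
  have hk0 : Q.card ≤ k := by omega
  choose w hw1 hw2 hw3 hw4 using fun s : Finset V =>
    exists_prod lab (fun i => W i s) fun i => (hW i).dist s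
  have hmem : ∀ u ∈ U, u ∈ U.filter fun x => lab x = lab u := fun u hu => mem_filter.2 ⟨hu, rfl⟩
  have hm : ∀ s ∈ Q.powerset, ∀ u ∈ U, μ Q s * prI (W (lab u) s) u = mSA μ Q s u :=
    fun s hs u hu => (hW (lab u)).marg s hs u (hmem u hu)
  have hsame : ∀ u v, lab u = lab v → sroundF μ Q w u v = sroundF μ Q (W (lab u)) u v := by
    intro u v e
    unfold sroundF
    exact sum_congr rfl fun s _ => by rw [hw3 s u v e]
  refine ⟨w, hw1, fun s hs u hu => ?_, fun u hu v hv => ?_, ?_⟩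
  · rw [hw2]
    exact hm s hs u hu
  · by_cases e : lab u = lab v
    · rw [hsame u v e]
      exact (hW (lab u)).low u (hmem u hu) v (mem_filter.2 ⟨hv, e.symm⟩)
    · refine (hμ.d_le_sum_min hk u v).trans ?_
      unfold sroundF
      rw [mul_sum]
      refine sum_le_sum fun s hs => ?_
      rw [← hm s hs u hu, ← hm s hs v hv, hw4 s u v e]
      exact sround_min_le (hμ.nonneg Q hk0 s hs) (sround_prI_nonneg ((hW _).dist s) u)
        (sround_prI_le ((hW _).dist s) u) (sround_prI_nonneg ((hW _).dist s) v)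
        (sround_prI_le ((hW _).dist s) v)
  · have h1 : ∑ u ∈ U, ∑ v ∈ U,
        (if lab u = lab v then c u v * sroundF μ Q (W (lab u)) u v else 0) ≤ ∑ i, K i := by
      rw [sround_split lab U fun i u v => c u v * sroundF μ Q (W i) u v]
      exact sum_le_sum fun i _ => (hW i).cost
    refine le_trans ?_ (add_le_add h1 le_rfl)
    rw [← sum_add_distrib]
    refine sum_le_sum fun u hu => ?_
    rw [← sum_add_distrib]
    refine sum_le_sum fun v hv => ?_
    by_cases e : lab u = lab v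
    · rw [if_pos e, if_pos e, hsame u v e, add_zero]
    · rw [if_neg e, if_neg e, zero_add]
      by_cases h0 : c u v = 0
      · rw [h0, zero_mul, zero_mul]
      refine mul_le_mul_of_nonneg_left ?_ (hc u v)
      have hp := hπ u hu v hv e h0
      rw [dSA_symm μ (π u v) v, ← hμ.sum_portal hk1 hp u, ← hμ.sum_portal hk1 hp v,
        ← sum_add_distrib]
      unfold sroundF
      refine sum_le_sum fun s hs => ?_
      rw [← hm s hs u hu, ← hm s hs v hv, hw4 s u v e]
      have a0 := sround_prI_nonneg ((hW (lab u)).dist s) u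
      have a1 := sround_prI_le ((hW (lab u)).dist s) u
      have b0 := sround_prI_nonneg ((hW (lab v)).dist s) v
      have b1 := sround_prI_le ((hW (lab v)).dist s) v
      have m0 := hμ.nonneg Q hk0 s hs
      generalize prI (W (lab u) s) u = a at *
      generalize prI (W (lab v) s) v = b at *
      generalize μ Q s = m at *
      split_ifs
      · have := mul_nonneg m0 (mul_nonneg (sub_nonneg.2 a1) (sub_nonneg.2 b1))
        nlinarith
      · have := mul_nonneg m0 (mul_nonneg a0 b0)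
        nlinarith

lemma sround_aux [Fintype V] {k : ℕ} {μ : Finset V → Finset V → ℝ} (hμ : SA k μ)
    (c len : V → V → ℝ) (hc : ∀ x y, 0 ≤ c x y) (hlen : ∀ x y, 0 ≤ len x y) (p : ℕ) (ε : ℝ)
    (hε : 0 ≤ ε)
    (hsep : ∀ U : Finset V, 2 ≤ U.card → Sep c len (dSA μ) U p (ε * volR c len U)) (j : ℕ) :
    ∀ U Q : Finset V, U.card ≤ 2 ^ j → Q.card + p * j + 2 ≤ k →
      ∃ w, SroundGood μ c U Q ((1 + j * ε) * volR c len U) w := by
  induction j with
  | zero =>
    intro U Q hU hQ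
    refine sround_small hμ c (by simpa using hU) (by omega) ?_
    have := sround_volR_nonneg hc hlen U
    positivity
  | succ j ih =>
    intro U Q hU hQ
    have hv := sround_volR_nonneg hc hlen U
    by_cases h1 : U.card ≤ 1
    · exact sround_small hμ c h1 (by omega) (by positivity)
    obtain ⟨lab, P, π, hP, hl, hπ, hcost⟩ := hsep U (by omega)
    have hQ' : (Q ∪ P).card + p * j + 2 ≤ k := by
      have := card_union_le Q P
      rw [mul_add, mul_one] at hQ
      omega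
    have hcard : ∀ i : Finset V, (U.filter fun x => lab x = i).card ≤ 2 ^ j := by
      intro i
      rcases (U.filter fun x => lab x = i).eq_empty_or_nonempty with e | ⟨y, hy⟩
      · rw [e]
        simp
      · have h2 : (U.filter fun x => lab x = i) ⊆ i := fun z hz => by
          have := (hl z (mem_filter.1 hz).1).1
          rwa [(mem_filter.1 hz).2] at this
        have h3 := (hl y (mem_filter.1 hy).1).2
        rw [(mem_filter.1 hy).2] at h3
        have h4 := card_le_card h2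
        rw [pow_succ] at hU
        omega
    choose W hW using fun i : Finset V => ih (U.filter fun x => lab x = i) (Q ∪ P) (hcard i) hQ'
    obtain ⟨w', hw'⟩ := sround_glue hμ hc (Q := Q ∪ P) (by omega) lab π
      (fun u hu v hv e h0 => mem_union_right _ (hπ u hu v hv e h0)) _ W hW
    obtain ⟨w, hw⟩ := sround_descend hμ c (subset_union_left (s₁ := Q) (s₂ := P)) (by omega) hw'
    refine ⟨w, hw.dist, hw.marg, hw.low, hw.cost.trans ?_⟩
    have e1 : ∑ i : Finset V, volR c len (U.filter fun x => lab x = i) =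
        ∑ u ∈ U, ∑ v ∈ U, (if lab u = lab v then c u v * len u v else 0) :=
      (sround_split lab U fun _ u v => c u v * len u v).symm
    have e2 : volR c len U = ∑ u ∈ U, ∑ v ∈ U, (if lab u = lab v then c u v * len u v else 0) +
        ∑ u ∈ U, ∑ v ∈ U, (if lab u = lab v then 0 else c u v * len u v) := by
      rw [← sum_add_distrib]
      refine sum_congr rfl fun u _ => ?_
      rw [← sum_add_distrib]
      refine sum_congr rfl fun v _ => ?_
      split_ifs <;> simp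
    have h0 : 0 ≤ ∑ u ∈ U, ∑ v ∈ U, (if lab u = lab v then 0 else c u v * len u v) :=
      sum_nonneg fun u _ => sum_nonneg fun v _ => by
        split_ifs
        · exact le_rfl
        · exact mul_nonneg (hc u v) (hlen u v)
    rw [← mul_sum, e1]
    have h5 : 0 ≤ (j : ℝ) * ε * ∑ u ∈ U, ∑ v ∈ U,
        (if lab u = lab v then 0 else c u v * len u v) := by positivity
    push_cast
    rw [e2] at hcost ⊢
    nlinarith

theorem rounding [Fintype V] {k : ℕ} {μ : Finset V → Finset V → ℝ} (hμ : SA k μ)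
    (c len : V → V → ℝ) (hc : ∀ x y, 0 ≤ c x y) (hlen : ∀ x y, 0 ≤ len x y) (p j : ℕ) (ε : ℝ)
    (hε : 0 ≤ ε) (hj : Fintype.card V ≤ 2 ^ j) (hk : p * j + 2 ≤ k)
    (hsep : ∀ U : Finset V, 2 ≤ U.card → Sep c len (dSA μ) U p (ε * volR c len U)) :
    ∃ w : Finset V → ℝ, IsDist w ∧ (∀ u v, dSA μ u v ≤ 2 * prS w u v) ∧
      ∑ u, ∑ v, c u v * prS w u v ≤ (1 + j * ε) * volR c len univ := by
  obtain ⟨w, hw⟩ := sround_aux hμ c len hc hlen p ε hε hsep j univ ∅ (by simpa using hj)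
    (by simpa using hk)
  have h1 : μ ∅ ∅ = 1 := by simpa using hμ.total ∅ (by simp)
  have hF : ∀ u v, sroundF μ ∅ w u v = prS (w ∅) u v := fun u v => by
    simp [sroundF, h1]
  refine ⟨w ∅, hw.dist ∅, fun u v => ?_, ?_⟩
  · rw [← hF]
    exact hw.low u (mem_univ u) v (mem_univ v)
  · simpa only [hF] using hw.cost

end Pool.Agent.MP_d3be90_lc

end

section

set_option autoImplicit false

open Finset
open scoped Classical

namespace Pool.Agent.MP_d3be90_lc

/-- bounded lengths -/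
theorem core_len (t : ℕ) (ht : 2 ≤ t) (b T : ℕ) (hT : 1 ≤ T) :
    ∀ (V : Type) [Fintype V] (G : SimpleGraph V), ¬ KMinor G t →
      ∀ lam : ℕ, 1 ≤ lam → Fintype.card V < 2 ^ lam →
      ∀ (k : ℕ) (μ : Finset V → Finset V → ℝ), SA k μ → 3 ≤ k →
        10 ^ 14 * (t + 1) ^ 6 * (b + 2) ^ 3 * T * lam ^ 8 ≤ k →
      ∀ (c : V → V → ℝ), (∀ x y, 0 ≤ c x y) → (∀ x y, c x y = c y x) →
        (∀ x y, ¬ G.Adj x y → c x y = 0) →
      ∀ η : ℝ, 0 < η → (∀ x y, G.Adj x y → dSA μ x y / η + 1 ≤ 2 ^ (b * lam)) →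
      ∀ dem : V → V → ℝ, (∀ x y, 0 ≤ dem x y) → (∀ A, cutW dem A ≤ cutW c A) →
        ∑ u, ∑ v, dem u v * dSA μ u v ≤
          2 * (1 + 1 / (T : ℝ)) * (∑ u, ∑ v, c u v * dSA μ u v + η * ∑ u, ∑ v, c u v) := by
  have h0 := exists_sep t ht b T hT
  intro V _ G hG lam hlam hn k μ hμ hk3 hk c c1 c2 c3 η hη hb dem hd hcut
  obtain ⟨p, hp, h1⟩ := h0 V G hG lam hlam hn
  have d0 : ∀ u v, 0 ≤ dSA μ u v := hμ.d_nonneg (by omega)
  obtain ⟨l, hl⟩ : ∃ l : V → V → ℕ, l = fun x y => ⌊dSA μ x y / η⌋₊ + 1 := ⟨_, rfl⟩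
  have l1 : ∀ x y, dSA μ x y / η ≤ (l x y : ℝ) := fun x y => by
    rw [hl]; push_cast; exact (Nat.lt_floor_add_one _).le
  have l2 : ∀ x y, (l x y : ℝ) ≤ dSA μ x y / η + 1 := fun x y => by
    rw [hl]; push_cast
    exact add_le_add_left (Nat.floor_le (div_nonneg (d0 x y) hη.le)) _
  have hN : Net G c l fun x y => dSA μ x y / η := by
    refine ⟨c1, c2, fun x y e => by_contra fun h => e (c3 x y h), fun x y => ?_, fun x => ?_,
      fun x y => ?_, fun x y z => ?_, fun x y _ => l1 x y⟩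
    · rw [hl]; simp only [dSA_symm μ x y]
    · rw [dSA_self, zero_div]
    · rw [dSA_symm]
    · rw [← add_div]; exact div_le_div_of_nonneg_right (hμ.d_tri hk3 x y z) hη.le
  have lT : (0 : ℝ) < lam := by positivity
  have T0 : (0 : ℝ) < T := by positivity
  obtain ⟨w, w1, w2, w3⟩ := rounding hμ c (fun x y => η * (l x y : ℝ)) c1
    (fun x y => by positivity) p lam (1 / (lam * T)) (by positivity) hn.le (by omega)
    fun U hU => by
      refine (h1 c _ l hN (fun x y e => ⟨by rw [hl]; exact Nat.le_add_left _ _, ?_⟩) U hU).scale η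
        hη.le (fun _ _ => rfl) (fun x y => by field_simp) ?_
      · have := (l2 x y).trans (hb x y e)
        exact_mod_cast this
      · simp only [volR, vol, mul_sum]
        exact sum_congr rfl fun x _ => sum_congr rfl fun y _ => by ring
  have e1 : (1 : ℝ) + lam * (1 / (lam * T)) = 1 + 1 / T := by field_simp
  rw [e1] at w3
  have e2 : volR c (fun x y => η * (l x y : ℝ)) univ ≤
      ∑ u, ∑ v, c u v * dSA μ u v + η * ∑ u, ∑ v, c u v := by
    simp only [volR, mul_sum, ← sum_add_distrib]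
    refine sum_le_sum fun x _ => sum_le_sum fun y _ => ?_
    have : η * (l x y : ℝ) ≤ dSA μ x y + η := by
      have := mul_le_mul_of_nonneg_left (l2 x y) hη.le
      rwa [mul_add, mul_div_cancel₀ _ hη.ne', mul_one] at this
    nlinarith [c1 x y]
  calc ∑ u, ∑ v, dem u v * dSA μ u v ≤ ∑ u, ∑ v, 2 * (dem u v * prS w u v) :=
        sum_le_sum fun u _ => sum_le_sum fun v _ => by nlinarith [hd u v, w2 u v]
    _ = 2 * ∑ u, ∑ v, dem u v * prS w u v := by simp only [mul_sum]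
    _ ≤ 2 * ∑ u, ∑ v, c u v * prS w u v := by
        rw [sum_prS, sum_prS]
        exact mul_le_mul_of_nonneg_left
          (sum_le_sum fun A _ => mul_le_mul_of_nonneg_left (hcut A) (w1.1 A)) (by norm_num)
    _ ≤ 2 * ((1 + 1 / (T : ℝ)) *
          (∑ u, ∑ v, c u v * dSA μ u v + η * ∑ u, ∑ v, c u v)) :=
        mul_le_mul_of_nonneg_left (w3.trans (mul_le_mul_of_nonneg_left e2 (by positivity)))
          (by norm_num)
    _ = _ := by ring

/-- bounded capacity ratio -/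
theorem core (t : ℕ) (ht : 2 ≤ t) (b T : ℕ) (hT : 1 ≤ T) :
    ∀ (V : Type) [Fintype V] (G : SimpleGraph V), ¬ KMinor G t →
      ∀ lam : ℕ, 1 ≤ lam → Fintype.card V < 2 ^ lam →
      ∀ (k : ℕ) (μ : Finset V → Finset V → ℝ), SA k μ → 3 ≤ k →
        10 ^ 14 * (t + 1) ^ 6 * (b + 2 + T + 2) ^ 3 * T * lam ^ 8 ≤ k →
      ∀ (c : V → V → ℝ) (lo : ℝ), 0 < lo → (∀ x y, c x y = c y x) →
        (∀ x y, ¬ G.Adj x y → c x y = 0) →
        (∀ x y, G.Adj x y → lo ≤ c x y ∧ c x y ≤ lo * 2 ^ (b * lam)) →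
      ∀ dem : V → V → ℝ, (∀ x y, 0 ≤ dem x y) → (∀ A, cutW dem A ≤ cutW c A) →
        ∑ u, ∑ v, dem u v * dSA μ u v ≤
          2 * (1 + 1 / (T : ℝ)) ^ 2 * ∑ u, ∑ v, c u v * dSA μ u v := by
  have h0 := core_len t ht (b + 2 + T) T hT
  intro V _ G hG lam hlam hn k μ hμ hk3 hk c lo hlo c2 c3 c4 dem hd hcut
  have c1 : ∀ x y, 0 ≤ c x y := fun x y => by
    by_cases e : G.Adj x y
    · exact hlo.le.trans (c4 x y e).1
    · rw [c3 x y e]
  have c5 : ∀ x y, c x y ≤ lo * 2 ^ (b * lam) := fun x y => by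
    by_cases e : G.Adj x y
    · exact (c4 x y e).2
    · rw [c3 x y e]; positivity
  have d0 : ∀ u v, 0 ≤ dSA μ u v := hμ.d_nonneg (by omega)
  have h1 := h0 V G hG lam hlam hn k μ hμ hk3 hk c c1 c2 c3
  have T0 : (0 : ℝ) < T := by positivity
  obtain ⟨Vol, hVol⟩ : ∃ Vol, Vol = ∑ u, ∑ v, c u v * dSA μ u v := ⟨_, rfl⟩
  obtain ⟨C, hC⟩ : ∃ C, C = ∑ u, ∑ v, c u v := ⟨_, rfl⟩
  rw [← hVol, ← hC] at h1
  rw [← hVol]
  have C0 : 0 ≤ C := by rw [hC]; exact sum_nonneg fun u _ => sum_nonneg fun v _ => c1 u v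
  have e1 : ∀ x y, G.Adj x y → lo * dSA μ x y ≤ Vol := fun x y e => by
    have nn : ∀ u v, 0 ≤ c u v * dSA μ u v := fun u v => mul_nonneg (c1 u v) (d0 u v)
    calc lo * dSA μ x y ≤ c x y * dSA μ x y := mul_le_mul_of_nonneg_right (c4 x y e).1 (d0 x y)
      _ ≤ ∑ v, c x v * dSA μ x v := single_le_sum (fun v _ => nn x v) (mem_univ y)
      _ ≤ Vol := by
        rw [hVol]
        exact single_le_sum (f := fun u => ∑ v, c u v * dSA μ u v)
          (fun u _ => sum_nonneg fun v _ => nn u v) (mem_univ x)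
  have V0 : 0 ≤ Vol := by
    rw [hVol]; exact sum_nonneg fun u _ => sum_nonneg fun v _ => mul_nonneg (c1 u v) (d0 u v)
  rcases V0.eq_or_lt with hV | hV
  · rw [← hV, mul_zero]
    refine le_of_forall_pos_le_add fun δ hδ => ?_
    have hη : 0 < δ / (2 * (1 + 1 / (T : ℝ)) * (C + 1)) := by positivity
    refine (h1 _ hη (fun x y e => ?_) dem hd hcut).trans ?_
    · have : dSA μ x y = 0 := by
        have := e1 x y e
        rw [← hV] at this
        exact le_antisymm (by by_contra hc; push Not at hc; nlinarith [mul_pos hlo hc]) (d0 x y)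
      rw [this, zero_div, zero_add]
      exact one_le_pow₀ (by norm_num)
    · rw [← hV, zero_add, zero_add]
      calc 2 * (1 + 1 / (T : ℝ)) * (δ / (2 * (1 + 1 / (T : ℝ)) * (C + 1)) * C)
          ≤ 2 * (1 + 1 / (T : ℝ)) * (δ / (2 * (1 + 1 / (T : ℝ)) * (C + 1)) * (C + 1)) := by
            gcongr; linarith
        _ = δ := by field_simp
  · have Cp : 0 < C := by
      refine C0.lt_of_ne fun h => hV.ne' ?_
      have z : ∀ u v, c u v = 0 := fun u v =>
        (sum_eq_zero_iff_of_nonneg fun y _ => c1 u y).1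
          ((sum_eq_zero_iff_of_nonneg fun x _ => sum_nonneg fun y _ => c1 x y).1
            (hC ▸ h.symm) u (mem_univ _)) v (mem_univ _)
      rw [hVol]
      simp [z]
    have hη : 0 < Vol / (T * C) := by positivity
    refine (h1 _ hη (fun x y e => ?_) dem hd hcut).trans_eq ?_
    · have n1 : (Fintype.card V : ℝ) ≤ 2 ^ lam := by exact_mod_cast hn.le
      have f1 : C ≤ 2 ^ lam * (2 ^ lam * (lo * 2 ^ (b * lam))) := by
        rw [hC]
        calc ∑ u, ∑ v, c u v ≤ ∑ _u : V, ∑ _v : V, lo * 2 ^ (b * lam) :=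
              sum_le_sum fun u _ => sum_le_sum fun v _ => c5 u v
          _ = Fintype.card V * (Fintype.card V * (lo * 2 ^ (b * lam))) := by simp
          _ ≤ _ := by gcongr
      have f2 : dSA μ x y / (Vol / (T * C)) ≤ T * (2 ^ lam * (2 ^ lam * 2 ^ (b * lam))) := by
        rw [div_le_iff₀ hη]
        have g1 : dSA μ x y ≤ Vol / lo := by rw [le_div_iff₀ hlo, mul_comm]; exact e1 x y e
        refine g1.trans ?_
        rw [div_le_iff₀ hlo]
        calc Vol = Vol / C * C := by field_simp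
          _ ≤ Vol / C * (2 ^ lam * (2 ^ lam * (lo * 2 ^ (b * lam)))) := by gcongr
          _ = _ := by field_simp
      have f3 : (T : ℝ) + 1 ≤ 2 ^ (T * lam) := by
        have : T + 1 ≤ 2 ^ (T * lam) :=
          (Nat.lt_two_pow_self (n := T)).trans_le
            (Nat.pow_le_pow_right (by norm_num) (Nat.le_mul_of_pos_right _ hlam))
        exact_mod_cast this
      have f4 : (1 : ℝ) ≤ 2 ^ lam * (2 ^ lam * 2 ^ (b * lam)) := by
        rw [← pow_add, ← pow_add]; exact one_le_pow₀ (by norm_num)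
      calc dSA μ x y / (Vol / (T * C)) + 1
          ≤ (T + 1) * (2 ^ lam * (2 ^ lam * 2 ^ (b * lam))) := by linarith
        _ ≤ 2 ^ (T * lam) * (2 ^ lam * (2 ^ lam * 2 ^ (b * lam))) := by gcongr
        _ = _ := by ring
    · field_simp

end Pool.Agent.MP_d3be90_lc

end

section

set_option autoImplicit false

open Finset
open scoped Classical

namespace Pool.Agent.MP_d3be90_lc

lemma SWin_geom (M : ℝ) (hM : 2 ≤ M) (s : ℤ) (S : Finset ℤ) :
    ∀ a : ℤ, (∀ y ∈ S, y ≤ a) → ∑ y ∈ S, M ^ (y + s) ≤ 2 * M ^ (a + s) := by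
  have h0 : 0 < M := by linarith
  induction S using Finset.induction_on_max with
  | empty => intro a _; rw [sum_empty]; positivity
  | insert m S hm ih =>
    intro a ha
    rw [sum_insert fun h => lt_irrefl _ (hm m h)]
    have h1 := ih (m - 1) fun y hy => by have := hm y hy; omega
    have h2 : M ^ (m + s) = M * M ^ (m - 1 + s) := by
      rw [← zpow_one_add₀ h0.ne']; congr 1; ring
    have h3 : M ^ (m + s) ≤ M ^ (a + s) :=
      zpow_le_zpow_right₀ (by linarith) (by have := ha m (mem_insert_self _ _); omega)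
    have h4 : 0 < M ^ (m - 1 + s) := by positivity
    nlinarith

theorem sum_window (M : ℝ) (hM : 2 ≤ M) (T : ℕ) (x : ℝ) (hx : 0 ≤ x) (Y : Finset ℤ) :
    ∑ y ∈ Y, (if M ^ (y - 1) ≤ x then min x (M ^ (y + T + 1)) else 0) ≤ (T + 4) * x := by
  have h0 : 0 < M := by linarith
  have h1 : 1 < M := by linarith
  rcases hx.eq_or_lt with rfl | hx'
  · rw [mul_zero]
    refine (sum_eq_zero fun y _ => if_neg (not_le.2 ?_)).le
    positivity
  obtain ⟨b, hb1, hb2⟩ := exists_mem_Ico_zpow hx' h1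
  rw [← sum_filter_add_sum_filter_not Y fun y => b - T - 1 ≤ y]
  have e1 : ∑ y ∈ Y.filter (fun y => b - T - 1 ≤ y),
      (if M ^ (y - 1) ≤ x then min x (M ^ (y + T + 1)) else 0) ≤ (T + 3) * x := by
    rw [← sum_filter]
    have hs : (Y.filter fun y => b - T - 1 ≤ y).filter (fun y => M ^ (y - 1) ≤ x) ⊆
        Icc (b - T - 1) (b + 1) := by
      intro y hy
      obtain ⟨hy1, hy2⟩ := mem_filter.1 hy
      have := (zpow_lt_zpow_iff_right₀ h1).1 (hy2.trans_lt hb2)
      exact mem_Icc.2 ⟨(mem_filter.1 hy1).2, by omega⟩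
    have hc : (Icc (b - T - 1) (b + 1)).card = T + 3 := by rw [Int.card_Icc]; omega
    calc _ ≤ ∑ _y ∈ (Y.filter fun y => b - T - 1 ≤ y).filter (fun y => M ^ (y - 1) ≤ x), x :=
          sum_le_sum fun y _ => min_le_left _ _
      _ ≤ ∑ _y ∈ Icc (b - T - 1) (b + 1), x :=
          sum_le_sum_of_subset_of_nonneg hs fun _ _ _ => hx
      _ = (T + 3) * x := by rw [sum_const, hc, nsmul_eq_mul]; push_cast; ring
  have e2 : ∑ y ∈ Y.filter (fun y => ¬ b - T - 1 ≤ y),
      (if M ^ (y - 1) ≤ x then min x (M ^ (y + T + 1)) else 0) ≤ x := by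
    have h2 := SWin_geom M hM (T + 1) (Y.filter fun y => ¬ b - T - 1 ≤ y) (b - T - 2)
      fun y hy => by have := (mem_filter.1 hy).2; omega
    have h3 : M ^ b = M * M ^ (b - T - 2 + (T + 1)) := by
      rw [← zpow_one_add₀ h0.ne']; congr 1; ring
    have h4 : 0 < M ^ (b - T - 2 + (T + 1)) := by positivity
    refine le_trans (sum_le_sum fun y _ => ?_) (h2.trans (by nlinarith))
    rw [← add_assoc]
    split_ifs
    · exact min_le_right _ _
    · positivity
  linarith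

variable {V : Type} [Fintype V]

lemma SWin_le_cut {c : V → V → ℝ} (hc : ∀ x y, 0 ≤ c x y) {A : Finset V} {u v : V}
    (h : ¬ (u ∈ A ↔ v ∈ A)) : c u v ≤ cutW c A := by
  have h0 : ∀ x y, 0 ≤ (if (x ∈ A ↔ y ∈ A) then 0 else c x y) := fun x y => by
    split_ifs
    · exact le_rfl
    · exact hc x y
  calc c u v = if (u ∈ A ↔ v ∈ A) then 0 else c u v := (if_neg h).symm
    _ ≤ ∑ y, (if (u ∈ A ↔ y ∈ A) then 0 else c u y) :=
        single_le_sum (f := fun y => if (u ∈ A ↔ y ∈ A) then 0 else c u y)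
          (fun y _ => h0 u y) (mem_univ v)
    _ ≤ _ := single_le_sum (f := fun x => ∑ y, (if (x ∈ A ↔ y ∈ A) then 0 else c x y))
        (fun x _ => sum_nonneg fun y _ => h0 x y) (mem_univ u)

lemma SWin_cut_le {c c' : V → V → ℝ} {A : Finset V} {a B : ℝ} (hB : 0 ≤ B)
    (h : ∀ u v, ¬ (u ∈ A ↔ v ∈ A) → c u v ≤ a * c' u v + B) :
    cutW c A ≤ a * cutW c' A + (Fintype.card V : ℝ) ^ 2 * B := by
  have e : (Fintype.card V : ℝ) ^ 2 * B = ∑ _u : V, ∑ _v : V, B := by
    simp only [sum_const, card_univ, nsmul_eq_mul]; ring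
  unfold cutW
  rw [e, mul_sum, ← sum_add_distrib]
  refine sum_le_sum fun u _ => ?_
  rw [mul_sum, ← sum_add_distrib]
  refine sum_le_sum fun v _ => ?_
  split_ifs with h1
  · linarith
  · exact h u v h1

lemma SWin_scale {M : ℝ} (hM : 1 < M) {c dem : V → V → ℝ} (hd : ∀ x y, 0 ≤ dem x y)
    (hcut : ∀ A, cutW dem A ≤ cutW c A) (u v : V) :
    ∃ g : ℤ, u ≠ v → 0 < dem u v →
      (∀ A : Finset V, ¬ (u ∈ A ↔ v ∈ A) → M ^ g ≤ cutW c A) ∧ dem u v < M ^ (g + 1) := by
  by_cases h : u ≠ v ∧ 0 < dem u v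
  · obtain ⟨A, hA, hmin⟩ := exists_min_image
      (univ.filter fun A : Finset V => ¬ (u ∈ A ↔ v ∈ A)) (cutW c)
      ⟨{u}, mem_filter.2 ⟨mem_univ _, by simp [h.1.symm]⟩⟩
    have h1 : dem u v ≤ cutW c A := (SWin_le_cut hd (mem_filter.1 hA).2).trans (hcut A)
    obtain ⟨g, hg1, hg2⟩ := exists_mem_Ico_zpow (h.2.trans_le h1) hM
    exact ⟨g, fun _ _ => ⟨fun B hB => hg1.trans (hmin B (mem_filter.2 ⟨mem_univ _, hB⟩)),
      h1.trans_lt hg2⟩⟩
  · exact ⟨0, fun h1 h2 => absurd ⟨h1, h2⟩ h⟩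

lemma SWin_cut {M : ℝ} (hM : 1 < M) {T : ℕ} (hT : 1 ≤ T)
    (hn : T * (Fintype.card V : ℝ) ^ 2 ≤ M) {c dem : V → V → ℝ} (hc : ∀ x y, 0 ≤ c x y)
    (hd : ∀ x y, 0 ≤ dem x y) (hcut : ∀ A, cutW dem A ≤ cutW c A) (g : V → V → ℤ)
    (hg : ∀ u v, u ≠ v → 0 < dem u v →
      (∀ A : Finset V, ¬ (u ∈ A ↔ v ∈ A) → M ^ g u v ≤ cutW c A) ∧ dem u v < M ^ (g u v + 1))
    (y : ℤ) (A : Finset V) :
    cutW (fun u v => if (u ≠ v ∧ 0 < dem u v) ∧ y ∈ Ioc (g u v - T) (g u v)
        then (1 - 1 / (T : ℝ)) * dem u v else 0) A ≤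
      cutW (fun u v => if M ^ (y - 1) ≤ c u v then min (c u v) (M ^ (y + T + 1)) else 0) A := by
  have h0 : 0 < M := by linarith
  have hT' : (1 : ℝ) ≤ T := by exact_mod_cast hT
  have hx0 : 0 < 1 / (T : ℝ) := by positivity
  have hx1 : 1 / (T : ℝ) ≤ 1 := by rw [div_le_one (by linarith)]; exact hT'
  have hn2 : 0 ≤ (Fintype.card V : ℝ) ^ 2 := by positivity
  set cy : V → V → ℝ :=
    fun u v => if M ^ (y - 1) ≤ c u v then min (c u v) (M ^ (y + T + 1)) else 0 with hcy
  have hcy0 : ∀ u v, 0 ≤ cy u v := fun u v => by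
    simp only [hcy]
    split_ifs
    · exact le_min (hc u v) (by positivity)
    · exact le_rfl
  by_cases h1 : ∃ u v, ¬ (u ∈ A ↔ v ∈ A) ∧ (u ≠ v ∧ 0 < dem u v) ∧ y ∈ Ioc (g u v - T) (g u v)
  swap
  · refine (SWin_cut_le (c' := cy) (a := 1) (B := 0) le_rfl fun u v h => ?_).trans (by simp)
    rw [if_neg fun h2 => h1 ⟨u, v, h, h2⟩]
    linarith [hcy0 u v]
  obtain ⟨u0, v0, h2, h3, h4⟩ := h1
  have h5 : M ^ y ≤ cutW c A :=
    (zpow_le_zpow_right₀ hM.le (mem_Ioc.1 h4).2).trans ((hg u0 v0 h3.1 h3.2).1 A h2)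
  by_cases h6 : ∃ p q, ¬ (p ∈ A ↔ q ∈ A) ∧ M ^ (y + T + 1) ≤ c p q
  · obtain ⟨p, q, h7, h8⟩ := h6
    have h9 : cy p q = M ^ (y + T + 1) := by
      simp only [hcy]
      rw [if_pos ((zpow_le_zpow_right₀ hM.le (by omega)).trans h8), min_eq_right h8]
    have h10 := SWin_le_cut hcy0 h7
    have h11 : 0 < M ^ (y + T) := by positivity
    rw [h9, zpow_add_one₀ h0.ne'] at h10
    refine (SWin_cut_le (c' := cy) (a := 0) (B := M ^ (y + T)) h11.le fun u v _ => ?_).trans ?_
    · rw [zero_mul, zero_add]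
      split_ifs with h
      · have a1 := (hg u v h.1.1 h.1.2).2
        have a2 : M ^ (g u v + 1) ≤ M ^ (y + T) :=
          zpow_le_zpow_right₀ hM.le (by have := (mem_Ioc.1 h.2).1; omega)
        nlinarith [hd u v]
      · exact h11.le
    · have : (Fintype.card V : ℝ) ^ 2 ≤ M := by nlinarith
      nlinarith
  · have h11 : 0 < M ^ (y - 1) := by positivity
    have h7 : cutW c A ≤ 1 * cutW cy A + (Fintype.card V : ℝ) ^ 2 * M ^ (y - 1) := by
      refine SWin_cut_le h11.le fun p q h => ?_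
      have h8 : c p q ≤ M ^ (y + T + 1) := (not_le.1 fun h9 => h6 ⟨p, q, h, h9⟩).le
      simp only [hcy]
      split_ifs with h9
      · rw [min_eq_left h8]; linarith
      · linarith [not_le.1 h9]
    have h8 : M ^ y = M ^ (y - 1) * M := by rw [← zpow_add_one₀ h0.ne']; congr 1; ring
    have h9 : (Fintype.card V : ℝ) ^ 2 * M ^ (y - 1) ≤ 1 / (T : ℝ) * cutW c A := by
      rw [one_div_mul_eq_div, le_div_iff₀ (by linarith)]
      nlinarith
    refine (SWin_cut_le (c' := dem) (a := 1 - 1 / (T : ℝ)) (B := 0) le_rfl fun u v _ => ?_).trans ?_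
    · split_ifs
      · linarith
      · nlinarith [hd u v]
    · have := mul_le_mul_of_nonneg_left (hcut A) (sub_nonneg.2 hx1)
      linarith

omit [Fintype V] in
lemma SWin_num {ε : ℝ} {T : ℕ} (hT : 2 ≤ T) (hε : 50 / ε ≤ T) (h0 : 0 < ε) :
    2 * (1 + 1 / (T : ℝ)) ^ 2 * (T + 4) ≤ (2 + ε) * (T * (1 - 1 / (T : ℝ))) := by
  have hT' : (2 : ℝ) ≤ T := by exact_mod_cast hT
  have hx0 : 0 < 1 / (T : ℝ) := by positivity
  have hx1 : 1 / (T : ℝ) ≤ 1 / 2 := by gcongr
  have hx2 : 50 * (1 / (T : ℝ)) ≤ ε := by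
    rw [div_le_iff₀ h0] at hε
    rw [mul_one_div, div_le_iff₀ (by linarith)]
    linarith
  have e : (T : ℝ) + 4 = T * (1 + 4 * (1 / (T : ℝ))) := by field_simp
  rw [e]
  generalize 1 / (T : ℝ) = x at *
  have h1 : 2 * (1 + x) ^ 2 * (1 + 4 * x) ≤ (2 + ε) * (1 - x) := by
    have a1 : (2 + 50 * x) * (1 - x) ≤ (2 + ε) * (1 - x) :=
      mul_le_mul_of_nonneg_right (by linarith) (by linarith)
    have a2 : x * x ≤ x * (1 / 2) := mul_le_mul_of_nonneg_left hx1 hx0.le
    have a3 : x * (x * x) ≤ x * (x * (1 / 2)) := mul_le_mul_of_nonneg_left a2 hx0.le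
    nlinarith
  nlinarith

/-- arbitrary capacities -/
theorem win (t : ℕ) (ht : 2 ≤ t) (ε : ℝ) (hε : 0 < ε) (T : ℕ) (hT2 : 2 ≤ T) (hTε : 50 / ε ≤ T) :
    ∀ (V : Type) [Fintype V] (G : SimpleGraph V), ¬ KMinor G t →
      ∀ lam : ℕ, 1 ≤ lam → Fintype.card V < 2 ^ lam →
      ∀ (k : ℕ) (μ : Finset V → Finset V → ℝ), SA k μ → 3 ≤ k →
        10 ^ 17 * (t + 1) ^ 6 * T ^ 7 * lam ^ 8 ≤ k →
      ∀ c : V → V → ℝ, (∀ x y, 0 ≤ c x y) → (∀ x y, c x y = c y x) →
        (∀ x y, ¬ G.Adj x y → c x y = 0) →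
      ∀ dem : V → V → ℝ, (∀ x y, 0 ≤ dem x y) → (∀ A, cutW dem A ≤ cutW c A) →
        ∑ u, ∑ v, dem u v * dSA μ u v ≤ (2 + ε) * ∑ u, ∑ v, c u v * dSA μ u v := by
  have hc0 := core t ht ((T + 2) ^ 2) T (by omega)
  intro V _ G hG lam hlam hn k μ hμ hk hk0 c hc hcs hcG dem hd hcut
  have hk' : 10 ^ 14 * (t + 1) ^ 6 * ((T + 2) ^ 2 + 2 + T + 2) ^ 3 * T * lam ^ 8 ≤ k := by
    refine le_trans ?_ hk0
    have e : (T + 2) ^ 2 + 2 + T + 2 ≤ 10 * T ^ 2 := by nlinarith
    calc 10 ^ 14 * (t + 1) ^ 6 * ((T + 2) ^ 2 + 2 + T + 2) ^ 3 * T * lam ^ 8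
        ≤ 10 ^ 14 * (t + 1) ^ 6 * (10 * T ^ 2) ^ 3 * T * lam ^ 8 := by gcongr
      _ = _ := by ring
  have hT' : (2 : ℝ) ≤ T := by exact_mod_cast hT2
  set M : ℝ := 2 ^ ((T + 2) * lam) with hMdef
  have hM2 : 2 ≤ M := le_self_pow₀ (by norm_num) (by positivity)
  have hM : 1 < M := by linarith
  have h0 : 0 < M := by linarith
  have hMn : T * (Fintype.card V : ℝ) ^ 2 ≤ M := by
    have a1 : T ≤ 2 ^ (T * lam) :=
      (Nat.lt_two_pow_self).le.trans (Nat.pow_le_pow_right (by norm_num) (by nlinarith))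
    have a2 : T * Fintype.card V ^ 2 ≤ 2 ^ ((T + 2) * lam) := by
      rw [show (T + 2) * lam = T * lam + lam * 2 by ring, pow_add, pow_mul 2 lam 2]
      exact Nat.mul_le_mul a1 (Nat.pow_le_pow_left hn.le 2)
    rw [hMdef]
    exact_mod_cast a2
  choose g hg using SWin_scale hM hd hcut
  have hd0 := hμ.d_nonneg (by omega)
  have key : ∀ y : ℤ, ∑ u, ∑ v, (if (u ≠ v ∧ 0 < dem u v) ∧ y ∈ Ioc (g u v - T) (g u v)
        then (1 - 1 / (T : ℝ)) * dem u v else 0) * dSA μ u v ≤ 2 * (1 + 1 / (T : ℝ)) ^ 2 *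
      ∑ u, ∑ v, (if M ^ (y - 1) ≤ c u v then min (c u v) (M ^ (y + T + 1)) else 0) * dSA μ u v := by
    intro y
    have hlo : 0 < M ^ (y - 1) := by positivity
    let Gy : SimpleGraph V :=
      { Adj := fun u v => G.Adj u v ∧ M ^ (y - 1) ≤ c u v
        symm := ⟨fun u v h => ⟨h.1.symm, hcs u v ▸ h.2⟩⟩
        loopless := ⟨fun u h => G.irrefl h.1⟩ }
    refine hc0 V Gy (fun h => hG (h.mono fun u v e => e.1)) lam hlam hn k μ hμ hk hk'
      (fun u v => if M ^ (y - 1) ≤ c u v then min (c u v) (M ^ (y + T + 1)) else 0) (M ^ (y - 1))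
      hlo (fun u v => by rw [hcs u v]) (fun u v h => if_neg fun h1 => h ⟨?_, h1⟩)
      (fun u v h => ?_) _ (fun u v => ?_) (SWin_cut hM (by omega) hMn hc hd hcut g hg y)
    · by_contra h2
      rw [hcG u v h2] at h1
      linarith
    · have e : M ^ (y + T + 1) = M ^ (y - 1) * 2 ^ ((T + 2) ^ 2 * lam) := by
        rw [show (T + 2) ^ 2 * lam = (T + 2) * lam * (T + 2) by ring, pow_mul, ← hMdef,
          ← zpow_natCast, ← zpow_add₀ h0.ne']
        congr 1
        push_cast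
        ring
      rw [if_pos h.2, ← e]
      exact ⟨le_min h.2 (zpow_le_zpow_right₀ hM.le (by omega)), min_le_right _ _⟩
    · split_ifs
      · refine mul_nonneg (sub_nonneg.2 ?_) (hd u v)
        rw [div_le_one (by linarith)]
        linarith
      · exact le_rfl
  let Y : Finset ℤ := univ.biUnion fun p : V × V => Ioc (g p.1 p.2 - T) (g p.1 p.2)
  have hsum := sum_le_sum fun y (_ : y ∈ Y) => key y
  have hL : ∑ y ∈ Y, ∑ u, ∑ v, (if (u ≠ v ∧ 0 < dem u v) ∧ y ∈ Ioc (g u v - T) (g u v)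
        then (1 - 1 / (T : ℝ)) * dem u v else 0) * dSA μ u v =
      T * (1 - 1 / (T : ℝ)) * ∑ u, ∑ v, dem u v * dSA μ u v := by
    rw [sum_comm, mul_sum]
    refine sum_congr rfl fun u _ => ?_
    rw [sum_comm, mul_sum]
    refine sum_congr rfl fun v _ => ?_
    by_cases h : u ≠ v ∧ 0 < dem u v
    · have hs : Y.filter (fun y => y ∈ Ioc (g u v - T) (g u v)) = Ioc (g u v - T) (g u v) := by
        ext y
        exact mem_filter.trans ⟨And.right, fun e => ⟨mem_biUnion.2 ⟨(u, v), mem_univ _, e⟩, e⟩⟩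
      have hc : (Ioc (g u v - T) (g u v)).card = T := by rw [Int.card_Ioc]; omega
      simp only [h, ne_eq, not_false_eq_true, and_self, true_and]
      rw [← sum_mul, ← sum_filter, hs, sum_const, hc, nsmul_eq_mul]
      ring
    · have e : dem u v * dSA μ u v = 0 := by
        by_cases h1 : u = v
        · rw [h1, dSA_self, mul_zero]
        · rw [le_antisymm (not_lt.1 fun h2 => h ⟨h1, h2⟩) (hd u v), zero_mul]
      rw [e, mul_zero]
      exact sum_eq_zero fun y _ => by rw [if_neg fun h2 => h h2.1, zero_mul]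
  have hR : ∑ y ∈ Y, ∑ u, ∑ v,
      (if M ^ (y - 1) ≤ c u v then min (c u v) (M ^ (y + T + 1)) else 0) * dSA μ u v ≤
      (T + 4) * ∑ u, ∑ v, c u v * dSA μ u v := by
    rw [sum_comm, mul_sum]
    refine sum_le_sum fun u _ => ?_
    rw [sum_comm, mul_sum]
    refine sum_le_sum fun v _ => ?_
    rw [← sum_mul, ← mul_assoc]
    exact mul_le_mul_of_nonneg_right (sum_window M hM2 T _ (hc u v) Y) (hd0 u v)
  rw [hL, ← mul_sum] at hsum
  have hC : 0 ≤ ∑ u, ∑ v, c u v * dSA μ u v :=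
    sum_nonneg fun u _ => sum_nonneg fun v _ => mul_nonneg (hc u v) (hd0 u v)
  have hpos : 0 < T * (1 - 1 / (T : ℝ)) := by
    have : T * (1 - 1 / (T : ℝ)) = T - 1 := by field_simp
    linarith
  have h1 := mul_le_mul_of_nonneg_left hR (by positivity : 0 ≤ 2 * (1 + 1 / (T : ℝ)) ^ 2)
  have h2 := mul_le_mul_of_nonneg_right (SWin_num hT2 hTε hε) hC
  refine le_of_mul_le_mul_left ?_ hpos
  linarith

end Pool.Agent.MP_d3be90_lc

end
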